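import Pool.Agent.T6.H40.RP.PolyHaus

set_option autoImplicit false

namespace Pool.Agent.T6.H40.RP

open MeasureTheory

theorem metric_of_le (lam ε s : ℝ) (hlam : 0 < lam) (hε : 0 < ε) (hs0 : 0 < s) (hs4 : s ≤ 4)
    (hall : ∀ B : ℝ, ∃ C : ℝ, 0 ≤ C ∧
      ∀ Y : ℝ, 1 ≤ Y → (Pairs B lam Y).Finite ∧ ((Pairs B lam Y).ncard : ℝ) ≤ C * Y ^ (expo lam + ε))
    {ι : Type} [Countable ι] (g p q : ι → ℂ) (w : ι → ℝ) (hg : ∀ t, g t ≠ 0) (hw : ∀ t, 0 ≤ w t)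
    (hs : Summable fun t => (w t / ‖g t‖) ^ s * (1 + ‖g t‖ + ‖p t‖ + ‖q t‖ + w t) ^ (expo lam + ε)) :
    ∀ᵐ x : ℂ × ℂ, ∀ B : ℝ, (Hits g p q w B lam x).Finite := by
  have he := expo_nonneg hlam
  have hκ : 0 ≤ expo lam + ε := by linarith
  refine metric lam ε hlam hε hall g p q w hg hw ?_
  set S : ℝ := ∑' t, (w t / ‖g t‖) ^ s * (1 + ‖g t‖ + ‖p t‖ + ‖q t‖ + w t) ^ (expo lam + ε) with hS
  have hr : ∀ t, 0 ≤ w t / ‖g t‖ := fun t => div_nonneg (hw t) (norm_nonneg _)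
  have hbase : ∀ t, 1 ≤ 1 + ‖g t‖ + ‖p t‖ + ‖q t‖ + w t := fun t => by
    have h1 := norm_nonneg (g t)
    have h2 := norm_nonneg (p t)
    have h3 := norm_nonneg (q t)
    have h4 := hw t
    linarith
  have hnn : ∀ t, 0 ≤ (w t / ‖g t‖) ^ s * (1 + ‖g t‖ + ‖p t‖ + ‖q t‖ + w t) ^ (expo lam + ε) := fun t =>
    mul_nonneg (Real.rpow_nonneg (hr t) _) (Real.rpow_nonneg (by linarith [hbase t]) _)
  have hb : ∀ t, w t / ‖g t‖ ≤ S ^ (1 / s) := by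
    intro t
    have h1 : (w t / ‖g t‖) ^ s ≤ S := by
      have h2 := hs.le_tsum t fun j _ => hnn j
      have h3 : 1 ≤ (1 + ‖g t‖ + ‖p t‖ + ‖q t‖ + w t) ^ (expo lam + ε) := Real.one_le_rpow (hbase t) hκ
      have h4 := Real.rpow_nonneg (hr t) s
      calc (w t / ‖g t‖) ^ s = (w t / ‖g t‖) ^ s * 1 := (mul_one _).symm
        _ ≤ (w t / ‖g t‖) ^ s * (1 + ‖g t‖ + ‖p t‖ + ‖q t‖ + w t) ^ (expo lam + ε) :=
            mul_le_mul_of_nonneg_left h3 h4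
        _ ≤ S := h2
    calc w t / ‖g t‖ = ((w t / ‖g t‖) ^ s) ^ (1 / s) := by
          rw [← Real.rpow_mul (hr t), mul_one_div_cancel hs0.ne', Real.rpow_one]
      _ ≤ S ^ (1 / s) := Real.rpow_le_rpow (Real.rpow_nonneg (hr t) _) h1 (by positivity)
  refine Summable.of_nonneg_of_le (fun t => ?_) (fun t => ?_) (hs.mul_left ((S ^ (1 / s)) ^ (4 - s)))
  · exact mul_nonneg (pow_nonneg (hr t) _) (Real.rpow_nonneg (by linarith [hbase t]) _)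
  · rw [← mul_assoc]
    refine mul_le_mul_of_nonneg_right ?_ (Real.rpow_nonneg (by linarith [hbase t]) _)
    have h1 : (w t / ‖g t‖) ^ 4 = (w t / ‖g t‖) ^ (4 - s) * (w t / ‖g t‖) ^ s := by
      rw [← Real.rpow_add_of_nonneg (hr t) (by linarith) hs0.le, ← Real.rpow_natCast]
      congr 1
      push_cast
      ring
    rw [h1]
    exact mul_le_mul_of_nonneg_right (Real.rpow_le_rpow (hr t) (hb t) (by linarith))
      (Real.rpow_nonneg (hr t) _)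

theorem poly_metric_of_le (lam : ℝ) (hlam : 0 < lam)
    (hall : ∀ B ε : ℝ, 0 < ε → ∃ C : ℝ, 0 ≤ C ∧
      ∀ Y : ℝ, 1 ≤ Y → (Pairs B lam Y).Finite ∧ ((Pairs B lam Y).ncard : ℝ) ≤ C * Y ^ (expo lam + ε))
    (d : ℕ) (hd : 1 ≤ d) (ρ s : ℝ) (hs : 0 < s) (hs4 : s ≤ 4) (hρ : d * expo lam + 2 < (d - ρ) * s)
    (P Q : Polynomial ℂ) (hP : P.natDegree ≤ d) (hQ : Q.natDegree ≤ d) :
    ∀ᵐ x : ℂ × ℂ, ∀ B : ℝ, (Hits (fun z : GaussianInt => GaussianInt.toComplex z ^ d)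
      (fun z => P.eval (GaussianInt.toComplex z)) (fun z => Q.eval (GaussianInt.toComplex z))
      (fun z => ab z ^ ρ) B lam x).Finite := by
  have he := expo_nonneg hlam
  have hd0 : (0 : ℝ) < d := by exact_mod_cast hd
  have hde : 0 < d * expo lam := mul_pos hd0 he
  have hρd : 0 < d - ρ := by
    by_contra hcon
    push Not at hcon
    nlinarith
  refine poly_metric lam hlam hall d hd ρ ?_ P Q hP hQ
  nlinarith

end Pool.Agent.T6.H40.RP
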