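import Pool.Agent.T6.H40.RP.Asym

set_option autoImplicit false

namespace Pool.Agent.T6.H40.RP

/-- the monomials `x ^ j * y ^ (d - j)` -/
noncomputable def formExps (d : ℕ) : Finset (Fin 2 →₀ ℕ) := by
  classical
  exact (Finset.range (d + 1)).image fun j => Finsupp.single 0 j + Finsupp.single 1 (d - j)

theorem fib_le {r : ℕ} (K : Finset (Fin r →₀ ℕ)) (H τ : ℝ) (hH : 1 ≤ H) (hτ : 1 ≤ τ) (t : Fin r → GaussianInt) (m : ℕ)
    (ι : Fin (m + 1) → K) (hι : Function.Injective ι) (x y : GaussianInt) (hx : τ ≤ ab x) (hxy : IsCoprime x y)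
    (hw : ∀ j, mon t (ι j).1 = x ^ (j : ℕ) * y ^ (m - (j : ℕ))) (a : GaussianInt) :
    ({P | P ∈ Polys K H ∧ MvPolynomial.eval t P = a}.ncard : ℝ) ≤
      (36 ^ m * 4 ^ (m + 1)) * ((1 + H / τ) ^ 2) ^ m * (1 / H ^ 2) ^ (m + 1) * (Polys K H).ncard := by
  have hx0 : 0 < ab x := by linarith
  have hxne : x ≠ 0 := by
    rintro rfl
    rw [ab_zero] at hx0
    exact lt_irrefl _ hx0
  refine (fib_bound K H hH t m ι hι x y hxne hxy hw a).trans ?_
  refine mul_le_mul_of_nonneg_right ?_ (Nat.cast_nonneg _)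
  have h1 : H / ab x ≤ H / τ := div_le_div_of_nonneg_left (by linarith) (by linarith) hx
  have h2 : 0 ≤ H / ab x := div_nonneg (by linarith) hx0.le
  have h3 : (36 * (1 + H / ab x) ^ 2) ^ m ≤ 36 ^ m * ((1 + H / τ) ^ 2) ^ m := by
    rw [mul_pow]
    refine mul_le_mul_of_nonneg_left ?_ (by positivity)
    exact pow_le_pow_left₀ (sq_nonneg _) (pow_le_pow_left₀ (by linarith) (by linarith) 2) m
  have h4 : (4 / H ^ 2) ^ (m + 1) = 4 ^ (m + 1) * (1 / H ^ 2) ^ (m + 1) := by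
    rw [← mul_pow]
    congr 1
    ring
  have h5 : 0 ≤ (1 / H ^ 2) ^ (m + 1) := by positivity
  rw [h4]
  calc (36 * (1 + H / ab x) ^ 2) ^ m * (4 ^ (m + 1) * (1 / H ^ 2) ^ (m + 1))
      ≤ (36 ^ m * ((1 + H / τ) ^ 2) ^ m) * (4 ^ (m + 1) * (1 / H ^ 2) ^ (m + 1)) :=
        mul_le_mul_of_nonneg_right h3 (by positivity)
    _ = (36 ^ m * 4 ^ (m + 1)) * ((1 + H / τ) ^ 2) ^ m * (1 / H ^ 2) ^ (m + 1) := by ring

theorem poly_final (hall : ∀ B lam ε : ℝ, 0 < lam → 0 < ε → ∃ C : ℝ, 0 ≤ C ∧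
      ∀ Y : ℝ, 1 ≤ Y → (Pairs B lam Y).Finite ∧ ((Pairs B lam Y).ncard : ℝ) ≤ C * Y ^ (expo lam + ε))
    (r d m : ℕ) (K : Finset (Fin r →₀ ℕ)) (h0 : 0 ∈ K) (hd : ∀ k ∈ K, ∑ i, k i ≤ d)
    (hm : ∀ i, ∀ j ≤ m, Finsupp.single i j ∈ K) (B lam θ : ℝ)
    (hlam : 0 < lam) (hθ : 0 ≤ θ) (he4 : expo lam < 4)
    (hcond : θ * (2 * r + d * expo lam) + expo lam < 4 + 4 * m * min θ 1) :
    ∃ ν : ℝ, 0 < ν ∧ ∃ H₀ : ℝ, ∀ H : ℝ, H₀ ≤ H →
      ((BadPairs K B lam H (H ^ θ)).ncard : ℝ) ≤ H ^ (-ν) * ((Polys K H).ncard : ℝ) ^ 2 := by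
  refine asym hall d m K hd B lam θ hlam hθ he4 hcond (fun _ => True) (36 ^ m * 4 ^ (m + 1)) (by positivity)
    ?_ ?_ (fun _ _ _ _ _ _ _ => trivial)
  · intro H hH t _ a
    have h := fib_le K H 1 hH le_rfl t 0 (fun _ => ⟨0, h0⟩) (fun a b _ => by
      rw [Fin.fin_one_eq_zero a, Fin.fin_one_eq_zero b]) 1 1
      (by unfold ab; rw [map_one, norm_one]) isCoprime_one_left (fun j => by
        rw [mon]
        simp) a
    simp only [pow_zero, zero_add, pow_one, one_mul, mul_one] at h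
    refine h.trans (mul_le_mul_of_nonneg_right (mul_le_mul_of_nonneg_right ?_ (by positivity)) (Nat.cast_nonneg _))
    have h1 : (1 : ℝ) ≤ 36 ^ m := one_le_pow₀ (by norm_num)
    have h2 : (4 : ℝ) ≤ 4 ^ (m + 1) := by
      rw [pow_succ]
      have : (1 : ℝ) ≤ 4 ^ m := one_le_pow₀ (by norm_num)
      linarith
    nlinarith
  · rintro H τ hH hτ t - ⟨i, hi⟩ a
    refine fib_le K H τ hH hτ t m (fun j => ⟨Finsupp.single i (j : ℕ), hm i j (Nat.lt_succ_iff.1 j.2)⟩) ?_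
      (t i) 1 hi isCoprime_one_right (fun j => ?_) a
    · intro j j' h
      have h1 := congrArg (fun k : K => k.1 i) h
      simp only [Finsupp.single_eq_same] at h1
      exact Fin.ext h1
    · dsimp only
      rw [mon, one_pow, mul_one, Finset.prod_eq_single i]
      · rw [Finsupp.single_eq_same]
      · intro b _ hb
        rw [Finsupp.single_eq_of_ne hb, pow_zero]
      · intro h
        exact absurd (Finset.mem_univ i) h

theorem sum_form {d : ℕ} : ∀ k ∈ formExps d, ∑ i, k i ≤ d := by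
  classical
  intro k hk
  obtain ⟨j, hj, rfl⟩ := Finset.mem_image.1 hk
  have := Finset.mem_range.1 hj
  rw [Fin.sum_univ_two]
  simp
  omega

theorem sum_form' {d : ℕ} : ∀ k ∈ formExps d, k 0 + k 1 = d := by
  classical
  intro k hk
  obtain ⟨j, hj, rfl⟩ := Finset.mem_image.1 hk
  have := Finset.mem_range.1 hj
  simp
  omega

theorem form_coprime {d : ℕ} (hd1 : 1 ≤ d) {H : ℝ} {P Q : MvPolynomial (Fin 2) GaussianInt}
    (hP : P ∈ Polys (formExps d) H) (hQ : Q ∈ Polys (formExps d) H) (t : Fin 2 → GaussianInt)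
    (h : IsCoprime (MvPolynomial.eval t P) (MvPolynomial.eval t Q)) : IsCoprime (t 0) (t 1) := by
  have key : ∀ P ∈ Polys (formExps d) H, MvPolynomial.eval t P ∈ Ideal.span {t 0, t 1} := by
    intro P hP
    rw [MvPolynomial.eval_eq']
    refine Ideal.sum_mem _ fun k hk => Ideal.mul_mem_left _ _ ?_
    have hk1 := sum_form' k (hP.1 hk)
    rw [Fin.prod_univ_two]
    by_cases h0 : k 0 = 0
    · have h1 : k 1 ≠ 0 := by omega
      obtain ⟨l, hl⟩ := Nat.exists_eq_succ_of_ne_zero h1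
      rw [hl, pow_succ, ← mul_assoc]
      exact Ideal.mul_mem_left _ _ (Ideal.subset_span (by simp))
    · obtain ⟨l, hl⟩ := Nat.exists_eq_succ_of_ne_zero h0
      rw [hl, pow_succ, mul_assoc, mul_comm (t 0), ← mul_assoc]
      exact Ideal.mul_mem_left _ _ (Ideal.subset_span (by simp))
  obtain ⟨u, v, huv⟩ := h
  have h1 : (1 : GaussianInt) ∈ Ideal.span {t 0, t 1} := by
    rw [← huv]
    exact Ideal.add_mem _ (Ideal.mul_mem_left _ _ (key P hP)) (Ideal.mul_mem_left _ _ (key Q hQ))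
  obtain ⟨a, b, hab⟩ := Ideal.mem_span_pair.1 h1
  exact ⟨a, b, hab⟩

theorem form_fib {d : ℕ} (H τ : ℝ) (hH : 1 ≤ H) (hτ : 1 ≤ τ) (t : Fin 2 → GaussianInt)
    (ht : IsCoprime (t 0) (t 1)) (hi : ∃ i, τ ≤ ab (t i)) (a : GaussianInt) :
    ({P | P ∈ Polys (formExps d) H ∧ MvPolynomial.eval t P = a}.ncard : ℝ) ≤
      (36 ^ d * 4 ^ (d + 1)) * ((1 + H / τ) ^ 2) ^ d * (1 / H ^ 2) ^ (d + 1) * (Polys (formExps d) H).ncard := by
  classical
  obtain ⟨i, hi⟩ := hi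
  have hmon : ∀ j l : ℕ, mon t (Finsupp.single 0 j + Finsupp.single 1 l) = t 0 ^ j * t 1 ^ l := by
    intro j l
    rw [mon, Fin.prod_univ_two]
    simp
  fin_cases i
  · refine fib_le (formExps d) H τ hH hτ t d (fun j => ⟨Finsupp.single 0 (j : ℕ) + Finsupp.single 1 (d - (j : ℕ)),
      Finset.mem_image.2 ⟨j, Finset.mem_range.2 j.2, rfl⟩⟩) ?_ (t 0) (t 1) hi ht (fun j => hmon _ _) a
    intro j j' h
    have h1 := congrArg (fun k : formExps d => k.1 0) h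
    simp at h1
    exact Fin.ext h1
  · refine fib_le (formExps d) H τ hH hτ t d (fun j => ⟨Finsupp.single 0 (d - (j : ℕ)) + Finsupp.single 1 (j : ℕ),
      Finset.mem_image.2 ⟨d - j, Finset.mem_range.2 (by omega), ?_⟩⟩) ?_ (t 1) (t 0) hi ht.symm
      (fun j => (hmon _ _).trans (mul_comm _ _)) a
    · have := Nat.lt_succ_iff.1 j.2
      rw [Nat.sub_sub_self this]
    · intro j j' h
      have h1 := congrArg (fun k : formExps d => k.1 1) h
      simp at h1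
      exact Fin.ext h1

theorem form_final (hall : ∀ B lam ε : ℝ, 0 < lam → 0 < ε → ∃ C : ℝ, 0 ≤ C ∧
      ∀ Y : ℝ, 1 ≤ Y → (Pairs B lam Y).Finite ∧ ((Pairs B lam Y).ncard : ℝ) ≤ C * Y ^ (expo lam + ε))
    (d : ℕ) (hd1 : 1 ≤ d) (B lam θ : ℝ) (hlam : 0 < lam) (hθ : 0 ≤ θ) (he4 : expo lam < 4)
    (hcond : θ * (4 + d * expo lam) + expo lam < 4 + 4 * d * min θ 1) :
    ∃ ν : ℝ, 0 < ν ∧ ∃ H₀ : ℝ, ∀ H : ℝ, H₀ ≤ H →
      ((BadPairs (formExps d) B lam H (H ^ θ)).ncard : ℝ) ≤ H ^ (-ν) * ((Polys (formExps d) H).ncard : ℝ) ^ 2 := by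
  refine asym hall d d (formExps d) sum_form B lam θ hlam hθ he4 (by push_cast; linarith)
    (fun t => IsCoprime (t 0) (t 1)) (144 ^ d * 4 ^ (d + 1)) (by positivity) ?_ ?_ ?_
  · intro H hH t ht a
    have hex : ∃ i, (1 : ℝ) ≤ ab (t i) := by
      by_contra hcon
      push Not at hcon
      have hz : ∀ i, t i = 0 := by
        intro i
        by_contra hne
        have h1 : 0 < (t i).norm := GaussianInt.norm_pos.2 hne
        have h2 : (1 : ℝ) ≤ ((t i).norm : ℝ) := by exact_mod_cast h1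
        rw [GaussianInt.intCast_real_norm, Complex.normSq_eq_norm_sq] at h2
        have h3 : ‖GaussianInt.toComplex (t i)‖ < 1 := hcon i
        have h4 := norm_nonneg (GaussianInt.toComplex (t i))
        nlinarith
      rw [hz 0, hz 1] at ht
      exact not_isCoprime_zero_zero ht
    refine (form_fib H 1 hH le_rfl t ht hex a).trans ?_
    refine mul_le_mul_of_nonneg_right ?_ (Nat.cast_nonneg _)
    have h1 : ((1 + H / 1) ^ 2) ^ d ≤ 4 ^ d * (H ^ 2) ^ d := by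
      rw [← mul_pow, div_one]
      refine pow_le_pow_left₀ (sq_nonneg _) ?_ _
      nlinarith
    have h2 : (H ^ 2) ^ d * (1 / H ^ 2) ^ d = 1 := by
      rw [← mul_pow, mul_one_div_cancel (by positivity), one_pow]
    have h3 : (144 : ℝ) ^ d = 36 ^ d * 4 ^ d := by
      rw [← mul_pow]
      norm_num
    calc (36 ^ d * 4 ^ (d + 1)) * ((1 + H / 1) ^ 2) ^ d * (1 / H ^ 2) ^ (d + 1)
        ≤ (36 ^ d * 4 ^ (d + 1)) * (4 ^ d * (H ^ 2) ^ d) * (1 / H ^ 2) ^ (d + 1) :=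
          mul_le_mul_of_nonneg_right (mul_le_mul_of_nonneg_left h1 (by positivity)) (by positivity)
      _ = (36 ^ d * 4 ^ d) * 4 ^ (d + 1) * ((H ^ 2) ^ d * (1 / H ^ 2) ^ d) * (1 / H ^ 2) := by ring
      _ = 144 ^ d * 4 ^ (d + 1) * (1 / H ^ 2) := by rw [h2, h3, mul_one]
  · intro H τ hH hτ t ht hi a
    refine (form_fib H τ hH hτ t ht hi a).trans ?_
    have h1 : (36 : ℝ) ^ d ≤ 144 ^ d := pow_le_pow_left₀ (by norm_num) (by norm_num) _
    gcongr
  · intro H P hP Q hQ t hb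
    exact form_coprime hd1 hP hQ t hb.2.2.2.1

end Pool.Agent.T6.H40.RP
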