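import Pool.Agent.T6.H40.RP.Asym2
import Pool.Agent.T6.H40.RP.Inst

set_option autoImplicit false

namespace Pool.Agent.T6.H40.RP

/-- the monomials `x ^ j`, `j ≤ d`, in one variable -/
noncomputable def powExps (d : ℕ) : Finset (Fin 1 →₀ ℕ) := by
  classical
  exact (Finset.range (d + 1)).image fun j => Finsupp.single 0 j

theorem pow_card (d : ℕ) : (powExps d).card = d + 1 := by
  classical
  rw [powExps, Finset.card_image_of_injective _ (Finsupp.single_injective 0), Finset.card_range]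

theorem form_card (d : ℕ) : (formExps d).card = d + 1 := by
  classical
  rw [formExps, Finset.card_image_of_injOn, Finset.card_range]
  intro j _ j' _ h
  have h1 := congrArg (fun k : Fin 2 →₀ ℕ => k 0) h
  simpa using h1

theorem pow_deg {d : ℕ} : ∀ k ∈ powExps d, ∑ i, k i ≤ d := by
  classical
  intro k hk
  obtain ⟨j, hj, rfl⟩ := Finset.mem_image.1 hk
  have := Finset.mem_range.1 hj
  simp
  omega

theorem pow_mem {d j : ℕ} (hj : j ≤ d) (i : Fin 1) : Finsupp.single i j ∈ powExps d := by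
  classical
  have hi : i = 0 := Fin.fin_one_eq_zero i
  subst hi
  exact Finset.mem_image.2 ⟨j, Finset.mem_range.2 (by omega), rfl⟩

theorem pow_str (m₀ : ℕ) : Structured 0 m₀ (powExps (m₀ + 1)) (fun _ => True) := by
  classical
  intro i
  have hi : i = 0 := Fin.fin_one_eq_zero i
  subst hi
  refine ⟨fun j => ⟨Finsupp.single 0 (j : ℕ), pow_mem (Nat.lt_succ_iff.1 j.2) 0⟩, fun _ => 1, ⟨?_, ?_⟩, ?_, ?_, ?_, ?_⟩
  · intro j j' h
    have h1 := congrArg (fun k : powExps (m₀ + 1) => k.1 0) h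
    simp only [Finsupp.single_eq_same] at h1
    exact Fin.ext h1
  · rintro ⟨k, hk⟩
    obtain ⟨j, hj, rfl⟩ := Finset.mem_image.1 hk
    exact ⟨⟨j, Finset.mem_range.1 hj⟩, rfl⟩
  · intro t t' h _
    funext i
    rw [Fin.fin_one_eq_zero i]
    exact h
  · intro t _
    exact isCoprime_one_right
  · intro t j
    rw [mon, one_pow, mul_one]
    simp
  · intro τ hτ
    refine ⟨{1}, by simp, ?_, ?_⟩
    · intro u hu
      rw [Finset.mem_singleton.1 hu]
      unfold ab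
      rw [map_one, norm_one]
      exact hτ
    · intro t _
      exact Finset.mem_singleton_self _

theorem form_str (m₀ : ℕ) : Structured 1 m₀ (formExps (m₀ + 1)) (fun t => IsCoprime (t 0) (t 1)) := by
  classical
  have hmon : ∀ (t : Fin 2 → GaussianInt) (j l : ℕ),
      mon t (Finsupp.single 0 j + Finsupp.single 1 l) = t 0 ^ j * t 1 ^ l := by
    intro t j l
    rw [mon, Fin.prod_univ_two]
    simp
  have hDF : ∀ τ : ℝ, 1 ≤ τ → ((DF τ).card : ℝ) ≤ (9 * τ ^ 2) ^ 1 := fun τ hτ => by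
    rw [pow_one]
    exact card_DF_le hτ
  intro i
  fin_cases i
  · refine ⟨fun j => ⟨Finsupp.single 0 (j : ℕ) + Finsupp.single 1 (m₀ + 1 - (j : ℕ)),
      Finset.mem_image.2 ⟨j, Finset.mem_range.2 j.2, rfl⟩⟩, fun t => t 1, ⟨?_, ?_⟩, ?_, ?_, ?_, ?_⟩
    · intro j j' h
      have h1 := congrArg (fun k : formExps (m₀ + 1) => k.1 0) h
      simp at h1
      exact Fin.ext h1
    · rintro ⟨k, hk⟩
      obtain ⟨j, hj, rfl⟩ := Finset.mem_image.1 hk
      exact ⟨⟨j, Finset.mem_range.1 hj⟩, rfl⟩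
    · intro t t' h1 h2
      funext i
      fin_cases i
      · exact h1
      · exact h2
    · intro t ht
      exact ht
    · intro t j
      exact hmon t _ _
    · intro τ hτ
      exact ⟨DF τ, hDF τ hτ, fun u hu => mem_DF.1 hu, fun t ht => mem_DF.2 (ht 1)⟩
  · refine ⟨fun j => ⟨Finsupp.single 0 (m₀ + 1 - (j : ℕ)) + Finsupp.single 1 (j : ℕ),
      Finset.mem_image.2 ⟨m₀ + 1 - j, Finset.mem_range.2 (by omega), ?_⟩⟩, fun t => t 0, ⟨?_, ?_⟩, ?_, ?_, ?_, ?_⟩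
    · have := Nat.lt_succ_iff.1 j.2
      rw [Nat.sub_sub_self this]
    · intro j j' h
      have h1 := congrArg (fun k : formExps (m₀ + 1) => k.1 1) h
      simp at h1
      exact Fin.ext h1
    · rintro ⟨k, hk⟩
      obtain ⟨j, hj, rfl⟩ := Finset.mem_image.1 hk
      have hj' := Finset.mem_range.1 hj
      refine ⟨⟨m₀ + 1 - j, by omega⟩, ?_⟩
      apply Subtype.ext
      show Finsupp.single 0 (m₀ + 1 - (m₀ + 1 - j)) + Finsupp.single 1 (m₀ + 1 - j) = _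
      rw [Nat.sub_sub_self (by omega)]
    · intro t t' h1 h2
      funext i
      fin_cases i
      · exact h2
      · exact h1
    · intro t ht
      exact ht.symm
    · intro t j
      exact (hmon t _ _).trans (mul_comm _ _)
    · intro τ hτ
      exact ⟨DF τ, hDF τ hτ, fun u hu => mem_DF.1 hu, fun t ht => mem_DF.2 (ht 0)⟩

theorem uni_final (hall : ∀ B lam ε : ℝ, 0 < lam → 0 < ε → ∃ C : ℝ, 0 ≤ C ∧
      ∀ Y : ℝ, 1 ≤ Y → (Pairs B lam Y).Finite ∧ ((Pairs B lam Y).ncard : ℝ) ≤ C * Y ^ (expo lam + ε))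
    (d : ℕ) (hd1 : 1 ≤ d) (B lam θ : ℝ) (hlam : 0 < lam) (hθ : 0 ≤ θ) (he4 : expo lam < 4)
    (hcond : θ * (2 + d * expo lam) + expo lam < 4 + min (4 * d * θ) (4 * d - 2 + 2 * θ)) :
    ∃ ν : ℝ, 0 < ν ∧ ∃ H₀ : ℝ, ∀ H : ℝ, H₀ ≤ H →
      ((BadPairs (powExps d) B lam H (H ^ θ)).ncard : ℝ) ≤ H ^ (-ν) * ((Polys (powExps d) H).ncard : ℝ) ^ 2 := by
  obtain ⟨m₀, rfl⟩ : ∃ m₀, d = m₀ + 1 := ⟨d - 1, by omega⟩
  refine asym2 hall 0 m₀ (m₀ + 1) (m₀ + 1) rfl rfl rfl (powExps (m₀ + 1)) (pow_card _) pow_deg B lam θ hlam hθ he4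
    (by push_cast at hcond ⊢; linarith) (fun _ => True) (36 ^ (m₀ + 1) * 4 ^ (m₀ + 1 + 1)) (by positivity)
    ?_ ?_ (fun _ _ _ _ _ _ _ => trivial) (pow_str m₀)
  · intro H hH t _ a
    have h := fib_le (powExps (m₀ + 1)) H 1 hH le_rfl t 0 (fun _ => ⟨0, by
        have := pow_mem (d := m₀ + 1) (Nat.zero_le _) 0
        rwa [Finsupp.single_zero] at this⟩) (fun a b _ => by
      rw [Fin.fin_one_eq_zero a, Fin.fin_one_eq_zero b]) 1 1
      (by unfold ab; rw [map_one, norm_one]) isCoprime_one_left (fun j => by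
        rw [mon]
        simp) a
    simp only [pow_zero, zero_add, pow_one, one_mul, mul_one] at h
    refine h.trans (mul_le_mul_of_nonneg_right (mul_le_mul_of_nonneg_right ?_ (by positivity)) (Nat.cast_nonneg _))
    have h1 : (1 : ℝ) ≤ 36 ^ (m₀ + 1) := one_le_pow₀ (by norm_num)
    have h2 : (4 : ℝ) ≤ 4 ^ (m₀ + 1 + 1) := by
      rw [pow_succ]
      have : (1 : ℝ) ≤ 4 ^ (m₀ + 1) := one_le_pow₀ (by norm_num)
      linarith
    nlinarith
  · rintro H τ hH hτ t - ⟨i, hi⟩ a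
    refine fib_le (powExps (m₀ + 1)) H τ hH hτ t (m₀ + 1)
      (fun j => ⟨Finsupp.single i (j : ℕ), pow_mem (Nat.lt_succ_iff.1 j.2) i⟩) ?_
      (t i) 1 hi isCoprime_one_right (fun j => ?_) a
    · intro j j' h
      have h1 := congrArg (fun k : powExps (m₀ + 1) => k.1 i) h
      simp only [Finsupp.single_eq_same] at h1
      exact Fin.ext h1
    · dsimp only
      rw [mon, one_pow, mul_one, Finset.prod_eq_single i]
      · rw [Finsupp.single_eq_same]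
      · intro b _ hb
        rw [Finsupp.single_eq_of_ne hb, pow_zero]
      · intro h
        exact absurd (Finset.mem_univ i) h

theorem form_final2 (hall : ∀ B lam ε : ℝ, 0 < lam → 0 < ε → ∃ C : ℝ, 0 ≤ C ∧
      ∀ Y : ℝ, 1 ≤ Y → (Pairs B lam Y).Finite ∧ ((Pairs B lam Y).ncard : ℝ) ≤ C * Y ^ (expo lam + ε))
    (d : ℕ) (hd1 : 1 ≤ d) (B lam θ : ℝ) (hlam : 0 < lam) (hθ : 0 ≤ θ) (he4 : expo lam < 4)
    (hcond : θ * (4 + d * expo lam) + expo lam < 4 + min (4 * d * θ) (4 * d - 2 + 2 * θ)) :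
    ∃ ν : ℝ, 0 < ν ∧ ∃ H₀ : ℝ, ∀ H : ℝ, H₀ ≤ H →
      ((BadPairs (formExps d) B lam H (H ^ θ)).ncard : ℝ) ≤ H ^ (-ν) * ((Polys (formExps d) H).ncard : ℝ) ^ 2 := by
  obtain ⟨m₀, rfl⟩ : ∃ m₀, d = m₀ + 1 := ⟨d - 1, by omega⟩
  refine asym2 hall 1 m₀ (m₀ + 1) (m₀ + 1) rfl rfl rfl (formExps (m₀ + 1)) (form_card _) sum_form B lam θ hlam hθ
    he4 (by push_cast at hcond ⊢; linarith) (fun t => IsCoprime (t 0) (t 1))
    (144 ^ (m₀ + 1) * 4 ^ (m₀ + 1 + 1)) (by positivity) ?_ ?_ ?_ (form_str m₀)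
  · intro H hH t ht a
    have hex : ∃ i, (1 : ℝ) ≤ ab (t i) := by
      by_contra hcon
      push Not at hcon
      have hz : ∀ i, t i = 0 := by
        intro i
        by_contra hne
        have h1 : 0 < (t i).norm := GaussianInt.norm_pos.2 hne
        have h2 : (1 : ℝ) ≤ ((t i).norm : ℝ) := by exact_mod_cast h1
        rw [GaussianInt.intCast_real_norm, Complex.normSq_eq_norm_sq] at h2
        have h3 : ‖GaussianInt.toComplex (t i)‖ < 1 := hcon i
        have h4 := norm_nonneg (GaussianInt.toComplex (t i))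
        nlinarith
      rw [hz 0, hz 1] at ht
      exact not_isCoprime_zero_zero ht
    refine (form_fib H 1 hH le_rfl t ht hex a).trans ?_
    refine mul_le_mul_of_nonneg_right ?_ (Nat.cast_nonneg _)
    have h1 : ((1 + H / 1) ^ 2) ^ (m₀ + 1) ≤ 4 ^ (m₀ + 1) * (H ^ 2) ^ (m₀ + 1) := by
      rw [← mul_pow, div_one]
      refine pow_le_pow_left₀ (sq_nonneg _) ?_ _
      nlinarith
    have h2 : (H ^ 2) ^ (m₀ + 1) * (1 / H ^ 2) ^ (m₀ + 1) = 1 := by
      rw [← mul_pow, mul_one_div_cancel (by positivity), one_pow]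
    have h3 : (144 : ℝ) ^ (m₀ + 1) = 36 ^ (m₀ + 1) * 4 ^ (m₀ + 1) := by
      rw [← mul_pow]
      norm_num
    calc (36 ^ (m₀ + 1) * 4 ^ (m₀ + 1 + 1)) * ((1 + H / 1) ^ 2) ^ (m₀ + 1) * (1 / H ^ 2) ^ (m₀ + 1 + 1)
        ≤ (36 ^ (m₀ + 1) * 4 ^ (m₀ + 1 + 1)) * (4 ^ (m₀ + 1) * (H ^ 2) ^ (m₀ + 1)) * (1 / H ^ 2) ^ (m₀ + 1 + 1) :=
          mul_le_mul_of_nonneg_right (mul_le_mul_of_nonneg_left h1 (by positivity)) (by positivity)
      _ = (36 ^ (m₀ + 1) * 4 ^ (m₀ + 1)) * 4 ^ (m₀ + 1 + 1) *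
          ((H ^ 2) ^ (m₀ + 1) * (1 / H ^ 2) ^ (m₀ + 1)) * (1 / H ^ 2) := by
          rw [pow_succ (1 / H ^ 2) (m₀ + 1)]
          ring
      _ = 144 ^ (m₀ + 1) * 4 ^ (m₀ + 1 + 1) * (1 / H ^ 2) := by rw [h2, h3, mul_one]
  · intro H τ hH hτ t ht hi a
    refine (form_fib H τ hH hτ t ht hi a).trans ?_
    have h1 : (36 : ℝ) ^ (m₀ + 1) ≤ 144 ^ (m₀ + 1) := pow_le_pow_left₀ (by norm_num) (by norm_num) _
    gcongr
  · intro H P hP Q hQ t hb
    exact form_coprime hd1 hP hQ t hb.2.2.2.1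

end Pool.Agent.T6.H40.RP
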