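import Pool.Agent.T6.H40.RP.Block

set_option autoImplicit false

namespace Pool.Agent.T6.H40.RP

variable {r : ℕ}

/-- the numbers in the exponents -/
theorem phi_bound (e θ s δ : ℝ) (r d m : ℕ) (_he : 0 < e) (_hθ : 0 ≤ θ) (hs : 0 ≤ s) (hsθ : s ≤ θ)
    (hδ1 : δ ≤ 4 - e) (hδ2 : δ ≤ 4 + 4 * m * min θ 1 - θ * (2 * r + d * e) - e) :
    δ ≤ 4 + 4 * m * min s 1 - s * (2 * r + d * e) - e := by
  have hm : (0 : ℝ) ≤ 4 * m := by positivity
  rcases eq_or_lt_of_le hs with h | h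
  · rw [← h, min_eq_left (by norm_num : (0 : ℝ) ≤ 1)]
    linarith
  · have hθ0 : 0 < θ := by linarith
    set l := s / θ with hl
    have hl0 : 0 ≤ l := by positivity
    have hl1 : l ≤ 1 := by
      rw [hl, div_le_one hθ0]
      exact hsθ
    have hls : l * θ = s := by
      rw [hl]
      field_simp
    have hmin : l * min θ 1 ≤ min s 1 := by
      refine le_min ?_ ?_
      · rw [← hls]
        exact mul_le_mul_of_nonneg_left (min_le_left _ _) hl0
      · have h1 : min θ 1 ≤ 1 := min_le_right _ _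
        have h2 : 0 ≤ min θ 1 := le_min hθ0.le (by norm_num)
        nlinarith
    have h3 := mul_le_mul_of_nonneg_left hmin hm
    have h4 : l * δ ≤ l * (4 + 4 * m * min θ 1 - θ * (2 * r + d * e) - e) := mul_le_mul_of_nonneg_left hδ2 hl0
    have h5 : (1 - l) * δ ≤ (1 - l) * (4 - e) := mul_le_mul_of_nonneg_left hδ1 (by linarith)
    have h6 : l * (4 + 4 * m * min θ 1 - θ * (2 * r + d * e) - e) =
        l * 4 + 4 * m * (l * min θ 1) - (l * θ) * (2 * r + d * e) - l * e := by ring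
    rw [hls] at h6
    linarith

theorem exists_block (H θ : ℝ) (n : ℕ) (hn : 0 < n) (t : Fin r → GaussianInt) (ht : ∀ i, ab (t i) ≤ H ^ θ) :
    ∃ j < n, (∀ i, ab (t i) ≤ H ^ (θ * (j + 1) / n)) ∧ (j = 0 ∨ ∃ i, H ^ (θ * j / n) ≤ ab (t i)) := by
  classical
  have hn0 : (0 : ℝ) < n := by exact_mod_cast hn
  have hex : ∃ j : ℕ, ∀ i, ab (t i) ≤ H ^ (θ * (j + 1) / n) := by
    refine ⟨n - 1, fun i => ?_⟩
    have h1 : θ * (((n - 1 : ℕ) : ℝ) + 1) / n = θ := by
      rw [Nat.cast_sub hn]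
      field_simp
      push_cast
      ring
    rw [h1]
    exact ht i
  refine ⟨Nat.find hex, ?_, Nat.find_spec hex, ?_⟩
  · have h2 : Nat.find hex ≤ n - 1 := by
      refine Nat.find_min' hex fun i => ?_
      have h1 : θ * (((n - 1 : ℕ) : ℝ) + 1) / n = θ := by
        rw [Nat.cast_sub hn]
        field_simp
        push_cast
        ring
      rw [h1]
      exact ht i
    omega
  · by_cases h0 : Nat.find hex = 0
    · exact Or.inl h0
    · right
      have h3 := Nat.find_min hex (Nat.sub_lt (Nat.pos_of_ne_zero h0) one_pos)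
      push Not at h3
      obtain ⟨i, hi⟩ := h3
      refine ⟨i, ?_⟩
      have h4 : ((Nat.find hex - 1 : ℕ) : ℝ) + 1 = (Nat.find hex : ℝ) := by
        rw [Nat.cast_sub (Nat.one_le_iff_ne_zero.2 h0)]
        push_cast
        ring
      rw [h4] at hi
      exact hi.le

theorem asym (hall : ∀ B lam ε : ℝ, 0 < lam → 0 < ε → ∃ C : ℝ, 0 ≤ C ∧
      ∀ Y : ℝ, 1 ≤ Y → (Pairs B lam Y).Finite ∧ ((Pairs B lam Y).ncard : ℝ) ≤ C * Y ^ (expo lam + ε))
    (d m : ℕ) (K : Finset (Fin r →₀ ℕ)) (hd : ∀ k ∈ K, ∑ i, k i ≤ d) (B lam θ : ℝ)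
    (hlam : 0 < lam) (hθ : 0 ≤ θ) (he4 : expo lam < 4)
    (hcond : θ * (2 * r + d * expo lam) + expo lam < 4 + 4 * m * min θ 1)
    (Adm : (Fin r → GaussianInt) → Prop) (A : ℝ) (hA : 0 ≤ A)
    (h1 : ∀ H : ℝ, 1 ≤ H → ∀ t, Adm t → ∀ a, ({P | P ∈ Polys K H ∧ MvPolynomial.eval t P = a}.ncard : ℝ) ≤
      A * (1 / H ^ 2) * (Polys K H).ncard)
    (h2 : ∀ H τ : ℝ, 1 ≤ H → 1 ≤ τ → ∀ t, Adm t → (∃ i, τ ≤ ab (t i)) → ∀ a,
      ({P | P ∈ Polys K H ∧ MvPolynomial.eval t P = a}.ncard : ℝ) ≤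
      A * ((1 + H / τ) ^ 2) ^ m * (1 / H ^ 2) ^ (m + 1) * (Polys K H).ncard)
    (h3 : ∀ H : ℝ, ∀ P ∈ Polys K H, ∀ Q ∈ Polys K H, ∀ t,
      Bad B lam (MvPolynomial.eval t P) (MvPolynomial.eval t Q) → Adm t) :
    ∃ ν : ℝ, 0 < ν ∧ ∃ H₀ : ℝ, ∀ H : ℝ, H₀ ≤ H →
      ((BadPairs K B lam H (H ^ θ)).ncard : ℝ) ≤ H ^ (-ν) * ((Polys K H).ncard : ℝ) ^ 2 := by
  classical
  have he := expo_nonneg hlam
  set e := expo lam with he'
  set δ : ℝ := min (4 - e) (4 + 4 * m * min θ 1 - θ * (2 * r + d * e) - e) with hδ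
  have hδ0 : 0 < δ := lt_min (by linarith) (by linarith)
  have hδ1 : δ ≤ 4 - e := min_le_left _ _
  have hδ2 : δ ≤ 4 + 4 * m * min θ 1 - θ * (2 * r + d * e) - e := min_le_right _ _
  have hdθ : (0 : ℝ) ≤ d * θ := mul_nonneg (Nat.cast_nonneg _) hθ
  have hd0 : (0 : ℝ) ≤ d := Nat.cast_nonneg _
  have hr0 : (0 : ℝ) ≤ r := Nat.cast_nonneg _
  set ε : ℝ := δ / (4 * (1 + d * θ)) with hε
  have hε0 : 0 < ε := by positivity
  have hε1 : ε * (1 + d * θ) = δ / 4 := by
    rw [hε]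
    field_simp
  obtain ⟨C, hC0, hC⟩ := hall B lam ε hlam hε0
  have hκ : 0 ≤ e + ε := by linarith
  set L : ℝ := (2 * r + d * (e + ε)) * θ with hL
  have hL0 : 0 ≤ L := by positivity
  set n : ℕ := ⌈4 * L / δ⌉₊ + 1 with hn
  have hnpos : 0 < n := Nat.succ_pos _
  have hn0 : (0 : ℝ) < n := by exact_mod_cast hnpos
  have hnL : L / n ≤ δ / 4 := by
    rw [div_le_iff₀ hn0]
    have h4 : 4 * L / δ ≤ n := by
      refine (Nat.le_ceil _).trans ?_
      rw [hn]
      push_cast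
      linarith
    rw [div_le_iff₀ hδ0] at h4
    linarith
  set M : ℝ := 9 ^ r * C * (1 + K.card) ^ (e + ε) * (A * 4 ^ m) ^ 2 with hM
  have hK0 : (0 : ℝ) ≤ K.card := Nat.cast_nonneg _
  have hM0 : 0 ≤ M := by
    rw [hM]
    have : 0 ≤ (1 + (K.card : ℝ)) ^ (e + ε) := Real.rpow_nonneg (by linarith) _
    positivity
  have hnM0 : 0 ≤ n * M := by positivity
  refine ⟨δ / 4, by linarith, max 1 ((n * M) ^ (4 / δ)), fun H hH => ?_⟩
  have hH1 : 1 ≤ H := (le_max_left _ _).trans hH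
  have hH2 : (n * M) ^ (4 / δ) ≤ H := (le_max_right _ _).trans hH
  have hH0 : 0 < H := by linarith
  have hMH : n * M ≤ H ^ (δ / 4) := by
    have h2 := Real.rpow_le_rpow (Real.rpow_nonneg hnM0 _) hH2 (by linarith : 0 ≤ δ / 4)
    rw [← Real.rpow_mul hnM0] at h2
    have h3 : 4 / δ * (δ / 4) = 1 := by
      field_simp
    rw [h3, Real.rpow_one] at h2
    exact h2
  set W : ℝ := ((Polys K H).ncard : ℝ) with hW
  have hW0 : 0 ≤ W := Nat.cast_nonneg _
  set S : ℕ → Set (Fin r → GaussianInt) := fun j => {t | Adm t ∧ (∀ i, ab (t i) ≤ H ^ (θ * (j + 1) / n)) ∧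
    (j = 0 ∨ ∃ i, H ^ (θ * j / n) ≤ ab (t i))} with hS
  set E : ℕ → Set (MvPolynomial (Fin r) GaussianInt × MvPolynomial (Fin r) GaussianInt) := fun j =>
    {x | x.1 ∈ Polys K H ∧ x.2 ∈ Polys K H ∧
      ∃ t ∈ S j, Bad B lam (MvPolynomial.eval t x.1) (MvPolynomial.eval t x.2)} with hE
  have hEfin : ∀ j, (E j).Finite := fun j =>
    ((polys_fin K H hH0.le).prod (polys_fin K H hH0.le)).subset fun x hx => ⟨hx.1, hx.2.1⟩
  have hEcard : ∀ j < n, ((E j).ncard : ℝ) ≤ M * H ^ (-(δ / 2)) * W ^ 2 := by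
    intro j hj
    set s' : ℝ := θ * j / n with hs'
    set s : ℝ := θ * (j + 1) / n with hs
    have hj0 : (0 : ℝ) ≤ j := Nat.cast_nonneg _
    have hjn : (j : ℝ) + 1 ≤ n := by exact_mod_cast hj
    have hs'0 : 0 ≤ s' := by positivity
    have hs0 : 0 ≤ s := by positivity
    have hss : s = s' + θ / n := by
      rw [hs, hs']
      ring
    have hs'θ : s' ≤ θ := by
      rw [hs', div_le_iff₀ hn0]
      exact mul_le_mul_of_nonneg_left (by linarith) hθ
    have hτ1 : 1 ≤ H ^ s := Real.one_le_rpow hH1 hs0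
    have hτ'1 : 1 ≤ H ^ s' := Real.one_le_rpow hH1 hs'0
    set u : ℝ := min s' 1 with hu
    have hu0 : 0 ≤ u := le_min hs'0 (by norm_num)
    have hu1 : u ≤ 1 := min_le_right _ _
    have hus : u ≤ s' := min_le_left _ _
    set N : ℝ := A * 4 ^ m * H ^ (-2 - 2 * m * u) * W with hN
    have hN0 : 0 ≤ N := by
      have : 0 ≤ H ^ (-2 - 2 * m * u) := Real.rpow_nonneg hH0.le _
      positivity
    have hH2' : 1 / H ^ 2 = H ^ (-2 : ℝ) := by
      rw [Real.rpow_neg hH0.le, one_div]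
      congr 1
      rw [← Real.rpow_natCast]
      norm_num
    have hfib : ∀ t ∈ S j, ∀ a, ({P | P ∈ Polys K H ∧ MvPolynomial.eval t P = a}.ncard : ℝ) ≤ N := by
      rintro t ⟨ht1, -, ht2⟩ a
      rcases ht2 with hj | hi
      · have hs00 : s' = 0 := by
          rw [hs', hj]
          simp
        have hu00 : u = 0 := by
          rw [hu, hs00]
          norm_num
        refine (h1 H hH1 t ht1 a).trans ?_
        rw [hN, hu00, mul_zero, sub_zero, hH2']
        have h5 : 0 ≤ H ^ (-2 : ℝ) := Real.rpow_nonneg hH0.le _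
        have h6 : (1 : ℝ) ≤ 4 ^ m := one_le_pow₀ (by norm_num)
        have h7 : A ≤ A * 4 ^ m := le_mul_of_one_le_right hA h6
        exact mul_le_mul_of_nonneg_right (mul_le_mul_of_nonneg_right h7 h5) hW0
      · refine (h2 H (H ^ s') hH1 hτ'1 t ht1 hi a).trans ?_
        refine mul_le_mul_of_nonneg_right ?_ hW0
        have h5 : H / H ^ s' = H ^ (1 - s') := by
          rw [Real.rpow_sub hH0, Real.rpow_one]
        have h6 : 1 + H / H ^ s' ≤ 2 * H ^ (1 - u) := by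
          rw [h5]
          have h7 : 1 ≤ H ^ (1 - u) := Real.one_le_rpow hH1 (by linarith)
          have h8 : H ^ (1 - s') ≤ H ^ (1 - u) := Real.rpow_le_rpow_of_exponent_le hH1 (by linarith)
          linarith
        have h7 : 0 ≤ 1 + H / H ^ s' := by positivity
        have h8 : ((1 + H / H ^ s') ^ 2) ^ m ≤ 4 ^ m * H ^ (2 * m * (1 - u)) := by
          have h9 : (1 + H / H ^ s') ^ 2 ≤ 4 * H ^ (2 * (1 - u)) := by
            have h10 := pow_le_pow_left₀ h7 h6 2
            refine h10.trans (le_of_eq ?_)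
            rw [mul_pow, ← Real.rpow_natCast (H ^ (1 - u)), ← Real.rpow_mul hH0.le]
            congr 1
            · norm_num
            · congr 1
              push_cast
              ring
          refine (pow_le_pow_left₀ (sq_nonneg _) h9 m).trans (le_of_eq ?_)
          rw [mul_pow, ← Real.rpow_natCast (H ^ (2 * (1 - u))), ← Real.rpow_mul hH0.le]
          congr 2
          ring
        have h11 : (1 / H ^ 2) ^ (m + 1) = H ^ (-2 * ((m : ℝ) + 1)) := by
          rw [hH2', ← Real.rpow_natCast, ← Real.rpow_mul hH0.le]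
          congr 1
          push_cast
          ring
        rw [h11]
        calc A * ((1 + H / H ^ s') ^ 2) ^ m * H ^ (-2 * ((m : ℝ) + 1))
            ≤ A * (4 ^ m * H ^ (2 * m * (1 - u))) * H ^ (-2 * ((m : ℝ) + 1)) :=
              mul_le_mul_of_nonneg_right (mul_le_mul_of_nonneg_left h8 hA) (Real.rpow_nonneg hH0.le _)
          _ = A * 4 ^ m * (H ^ (2 * m * (1 - u)) * H ^ (-2 * ((m : ℝ) + 1))) := by ring
          _ = A * 4 ^ m * H ^ (-2 - 2 * m * u) := by
              rw [← Real.rpow_add hH0]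
              congr 2
              ring
    have hb := block_count B lam (e + ε) C hC0 hC K d hd H (H ^ s) N hH1 hτ1 hN0 (S j)
      (fun t ht => ht.2.1) hfib
    refine hb.trans ?_
    have e1 : (9 * (H ^ s) ^ 2) ^ r = 9 ^ r * H ^ (2 * r * s) := by
      rw [mul_pow, ← pow_mul, ← Real.rpow_natCast (H ^ s), ← Real.rpow_mul hH0.le]
      congr 2
      push_cast
      ring
    have e2 : ((1 + (K.card : ℝ)) * (H * (H ^ s) ^ d)) ^ (e + ε) =
        (1 + K.card) ^ (e + ε) * H ^ ((1 + d * s) * (e + ε)) := by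
      have h4 : H * (H ^ s) ^ d = H ^ (1 + d * s) := by
        rw [← Real.rpow_natCast (H ^ s), ← Real.rpow_mul hH0.le, Real.rpow_add hH0, Real.rpow_one]
        congr 2
        ring
      rw [h4, Real.mul_rpow (by linarith) (Real.rpow_nonneg hH0.le _), ← Real.rpow_mul hH0.le]
    have e3 : N ^ 2 = (A * 4 ^ m) ^ 2 * H ^ (-4 - 4 * m * u) * W ^ 2 := by
      rw [hN, mul_pow, mul_pow, ← Real.rpow_natCast (H ^ (-2 - 2 * m * u)), ← Real.rpow_mul hH0.le]
      congr 3
      push_cast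
      ring
    rw [e1, e2, e3]
    have hφ := phi_bound e θ s' δ r d m he hθ hs'0 hs'θ hδ1 hδ2
    rw [← hu] at hφ
    have hexp : 2 * r * s + (1 + d * s) * (e + ε) + (-4 - 4 * m * u) ≤ -(δ / 2) := by
      have h5 : (2 * r + d * (e + ε)) * (θ / n) ≤ δ / 4 := by
        have h6 : (2 * r + d * (e + ε)) * (θ / n) = L / n := by
          rw [hL]
          ring
        rw [h6]
        exact hnL
      have h7 : ε * (1 + d * s') ≤ δ / 4 := by
        rw [← hε1]
        refine mul_le_mul_of_nonneg_left ?_ hε0.le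
        have := mul_le_mul_of_nonneg_left hs'θ (Nat.cast_nonneg d : (0 : ℝ) ≤ d)
        linarith
      have h8 : 2 * r * s + (1 + d * s) * (e + ε) + (-4 - 4 * m * u) =
          -(4 + 4 * m * u - s' * (2 * r + d * e) - e) + (2 * r + d * (e + ε)) * (θ / n) + ε * (1 + d * s') := by
        rw [hss]
        ring
      rw [h8]
      linarith
    calc 9 ^ r * H ^ (2 * r * s) * (C * ((1 + (K.card : ℝ)) ^ (e + ε) * H ^ ((1 + d * s) * (e + ε)))) *
          ((A * 4 ^ m) ^ 2 * H ^ (-4 - 4 * m * u) * W ^ 2)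
        = M * (H ^ (2 * r * s) * H ^ ((1 + d * s) * (e + ε)) * H ^ (-4 - 4 * m * u)) * W ^ 2 := by
          rw [hM]
          ring
      _ = M * H ^ (2 * r * s + (1 + d * s) * (e + ε) + (-4 - 4 * m * u)) * W ^ 2 := by
          rw [← Real.rpow_add hH0, ← Real.rpow_add hH0]
      _ ≤ M * H ^ (-(δ / 2)) * W ^ 2 :=
          mul_le_mul_of_nonneg_right (mul_le_mul_of_nonneg_left
            (Real.rpow_le_rpow_of_exponent_le hH1 hexp) hM0) (sq_nonneg _)
  have hsub : BadPairs K B lam H (H ^ θ) ⊆ (((Finset.range n).biUnion fun j => (hEfin j).toFinset) : Finset _) := by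
    rintro ⟨P, Q⟩ ⟨hP, hQ, t, ht, hb⟩
    obtain ⟨j, hj, hj1, hj2⟩ := exists_block H θ n hnpos t ht
    rw [Finset.mem_coe, Finset.mem_biUnion]
    refine ⟨j, Finset.mem_range.2 hj, (Set.Finite.mem_toFinset _).2 ⟨hP, hQ, t, ⟨?_, hj1, hj2⟩, hb⟩⟩
    exact h3 H P hP Q hQ t hb
  have h5 := Set.ncard_le_ncard hsub (Finset.finite_toSet _)
  rw [Set.ncard_coe_finset] at h5
  have h6 : (((Finset.range n).biUnion fun j => (hEfin j).toFinset).card : ℝ) ≤
      ∑ j ∈ Finset.range n, ((E j).ncard : ℝ) := by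
    have h7 := Finset.card_biUnion_le (s := Finset.range n) (t := fun j => (hEfin j).toFinset)
    have h8 : ∀ j, (E j).ncard = (hEfin j).toFinset.card := fun j => Set.ncard_eq_toFinset_card _ (hEfin j)
    simp only [h8]
    exact_mod_cast h7
  calc ((BadPairs K B lam H (H ^ θ)).ncard : ℝ)
      ≤ (((Finset.range n).biUnion fun j => (hEfin j).toFinset).card : ℝ) := by exact_mod_cast h5
    _ ≤ ∑ j ∈ Finset.range n, ((E j).ncard : ℝ) := h6
    _ ≤ ∑ j ∈ Finset.range n, M * H ^ (-(δ / 2)) * W ^ 2 :=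
        Finset.sum_le_sum fun j hj => hEcard j (Finset.mem_range.1 hj)
    _ = (n * M) * H ^ (-(δ / 2)) * W ^ 2 := by
        rw [Finset.sum_const, Finset.card_range, nsmul_eq_mul]
        ring
    _ ≤ H ^ (δ / 4) * H ^ (-(δ / 2)) * W ^ 2 :=
        mul_le_mul_of_nonneg_right (mul_le_mul_of_nonneg_right hMH (Real.rpow_nonneg hH0.le _)) (sq_nonneg _)
    _ = H ^ (-(δ / 4)) * W ^ 2 := by
        rw [← Real.rpow_add hH0]
        congr 2
        ring

end Pool.Agent.T6.H40.RP
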