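import Pool.Agent.T6.H40.RP.Defs

set_option autoImplicit false

namespace Pool.Agent.T6.H40.RP

theorem ab_nonneg (x : GaussianInt) : 0 ≤ ab x := norm_nonneg _

theorem ab_zero : ab 0 = 0 := by
  unfold ab
  rw [map_zero, norm_zero]

theorem ab_add (x y : GaussianInt) : ab (x + y) ≤ ab x + ab y := by
  unfold ab
  rw [map_add]
  exact norm_add_le _ _

theorem ab_sub (x y : GaussianInt) : ab (x - y) ≤ ab x + ab y := by
  unfold ab
  rw [map_sub]
  exact norm_sub_le _ _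

theorem ab_mul (x y : GaussianInt) : ab (x * y) = ab x * ab y := by
  unfold ab
  rw [map_mul, norm_mul]

theorem ab_pow (x : GaussianInt) (n : ℕ) : ab (x ^ n) = ab x ^ n := by
  unfold ab
  rw [map_pow, norm_pow]

theorem ab_prod {ι : Type} (s : Finset ι) (f : ι → GaussianInt) :
    ab (∏ i ∈ s, f i) = ∏ i ∈ s, ab (f i) := by
  unfold ab
  rw [map_prod, norm_prod]

theorem ab_sum {ι : Type} (s : Finset ι) (f : ι → GaussianInt) :
    ab (∑ i ∈ s, f i) ≤ ∑ i ∈ s, ab (f i) := by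
  unfold ab
  rw [map_sum]
  exact norm_sum_le _ _

theorem bad_mono {B B' lam : ℝ} (h : B ≤ B') {a b : GaussianInt} (hb : Bad B lam a b) :
    Bad B' lam a b := by
  obtain ⟨h1, h2, h3, h4, S, h5, h6⟩ := hb
  refine ⟨h1, h2, h3, h4, S, h5, h6.trans ?_⟩
  have h7 : 0 ≤ ht a b := le_max_of_le_left (ab_nonneg _)
  exact mul_le_mul_of_nonneg_right h (Real.rpow_nonneg h7 _)

/-- the violations of height at most `Y` -/
def Pairs (B lam Y : ℝ) : Set (GaussianInt × GaussianInt) :=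
  {x | Bad B lam x.1 x.2 ∧ ab x.1 ≤ Y ∧ ab x.2 ≤ Y}

/-- the translates of two functions -/
theorem translates (B lam κ C : ℝ)
    (hC : ∀ Y : ℝ, 1 ≤ Y → (Pairs B lam Y).Finite ∧ ((Pairs B lam Y).ncard : ℝ) ≤ C * Y ^ κ) :
    ∀ (ι : Type) (s : Finset ι) (p q : ι → GaussianInt) (H Y : ℝ), 1 ≤ H → 0 ≤ Y →
      (∀ t ∈ s, ab (p t) ≤ Y) → (∀ t ∈ s, ab (q t) ≤ Y) →
      {x : GaussianInt × GaussianInt | ab x.1 ≤ H ∧ ab x.2 ≤ H ∧
        ∃ t ∈ s, Bad B lam (x.1 + p t) (x.2 + q t)}.Finite ∧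
      ({x : GaussianInt × GaussianInt | ab x.1 ≤ H ∧ ab x.2 ≤ H ∧
        ∃ t ∈ s, Bad B lam (x.1 + p t) (x.2 + q t)}.ncard : ℝ) ≤
        C * s.card * (H + Y) ^ κ := by
  classical
  intro ι s p q H Y hH hY hp hq
  obtain ⟨h1, h2⟩ := hC (H + Y) (by linarith)
  set PF := h1.toFinset with hPF
  have hPFc : (PF.card : ℝ) = ((Pairs B lam (H + Y)).ncard : ℝ) := by
    rw [Set.ncard_eq_toFinset_card _ h1]
  set U : Finset (GaussianInt × GaussianInt) :=
    s.biUnion fun t => PF.image fun x => (x.1 - p t, x.2 - q t) with hU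
  have hsub : {x : GaussianInt × GaussianInt | ab x.1 ≤ H ∧ ab x.2 ≤ H ∧
        ∃ t ∈ s, Bad B lam (x.1 + p t) (x.2 + q t)} ⊆ (U : Set (GaussianInt × GaussianInt)) := by
    rintro ⟨u, v⟩ ⟨g1, g2, t, ht, g3⟩
    rw [hU, Finset.mem_coe, Finset.mem_biUnion]
    refine ⟨t, ht, ?_⟩
    rw [Finset.mem_image]
    refine ⟨(u + p t, v + q t), ?_, ?_⟩
    · rw [hPF, Set.Finite.mem_toFinset]
      have g4 := ab_add u (p t)
      have g5 := ab_add v (q t)
      have g6 := hp t ht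
      have g7 := hq t ht
      dsimp only at g1 g2
      exact ⟨g3, by dsimp only; linarith, by dsimp only; linarith⟩
    · simp
  refine ⟨U.finite_toSet.subset hsub, ?_⟩
  have h3 := Set.ncard_le_ncard hsub U.finite_toSet
  rw [Set.ncard_coe_finset] at h3
  have h4 : U.card ≤ s.card * PF.card := by
    rw [hU]
    refine Finset.card_biUnion_le_card_mul _ _ _ fun t _ => ?_
    exact Finset.card_image_le
  have h5 : ({x : GaussianInt × GaussianInt | ab x.1 ≤ H ∧ ab x.2 ≤ H ∧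
        ∃ t ∈ s, Bad B lam (x.1 + p t) (x.2 + q t)}.ncard : ℝ) ≤ s.card * PF.card := by
    exact_mod_cast h3.trans h4
  refine h5.trans ?_
  rw [hPFc]
  calc (s.card : ℝ) * (Pairs B lam (H + Y)).ncard ≤ s.card * (C * (H + Y) ^ κ) :=
        mul_le_mul_of_nonneg_left h2 (Nat.cast_nonneg _)
    _ = _ := by ring

end Pool.Agent.T6.H40.RP
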