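import Pool.Agent.T6.H40.RP.Lift

set_option autoImplicit false

namespace Pool.Agent.T6.H40.RP

variable {r : ℕ}

theorem block_count (B lam κ C0 : ℝ) (hC0 : 0 ≤ C0)
    (hC : ∀ Y : ℝ, 1 ≤ Y → (Pairs B lam Y).Finite ∧ ((Pairs B lam Y).ncard : ℝ) ≤ C0 * Y ^ κ)
    (K : Finset (Fin r →₀ ℕ)) (d : ℕ) (hd : ∀ k ∈ K, ∑ i, k i ≤ d) (H τ N : ℝ) (hH : 1 ≤ H) (hτ : 1 ≤ τ)
    (hN : 0 ≤ N) (S : Set (Fin r → GaussianInt)) (hS : ∀ t ∈ S, ∀ i, ab (t i) ≤ τ)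
    (hfib : ∀ t ∈ S, ∀ a, ({P | P ∈ Polys K H ∧ MvPolynomial.eval t P = a}.ncard : ℝ) ≤ N) :
    ({x : MvPolynomial (Fin r) GaussianInt × MvPolynomial (Fin r) GaussianInt | x.1 ∈ Polys K H ∧ x.2 ∈ Polys K H ∧
      ∃ t ∈ S, Bad B lam (MvPolynomial.eval t x.1) (MvPolynomial.eval t x.2)}.ncard : ℝ) ≤
      (9 * τ ^ 2) ^ r * (C0 * ((1 + K.card) * (H * τ ^ d)) ^ κ) * N ^ 2 := by
  classical
  have hH0 : 0 ≤ H := by linarith
  have hτ0 : 0 ≤ τ := by linarith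
  set Y : ℝ := (1 + K.card) * (H * τ ^ d) with hY
  have hHτ : 1 ≤ H * τ ^ d := one_le_mul_of_one_le_of_one_le hH (one_le_pow₀ hτ)
  have hKc : (0 : ℝ) ≤ K.card := Nat.cast_nonneg _
  have hY1 : 1 ≤ Y := by
    rw [hY]
    nlinarith
  obtain ⟨hfin, hcnt⟩ := hC Y hY1
  set PF := hfin.toFinset with hPF
  set sF : Finset (Fin r → GaussianInt) := (Fintype.piFinset fun _ => DF τ).filter (· ∈ S) with hsF
  have hGfin : ∀ t a, {P | P ∈ Polys K H ∧ MvPolynomial.eval t P = a}.Finite := fun t a =>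
    (polys_fin K H hH0).subset fun P hP => hP.1
  set G : (Fin r → GaussianInt) → GaussianInt → Finset (MvPolynomial (Fin r) GaussianInt) :=
    fun t a => (hGfin t a).toFinset with hG
  have hGcard : ∀ t ∈ S, ∀ a, ((G t a).card : ℝ) ≤ N := by
    intro t ht a
    have h := hfib t ht a
    rwa [Set.ncard_eq_toFinset_card _ (hGfin t a)] at h
  set U := sF.biUnion fun t => PF.biUnion fun y => (G t y.1) ×ˢ (G t y.2) with hU
  have hsub : {x : MvPolynomial (Fin r) GaussianInt × MvPolynomial (Fin r) GaussianInt | x.1 ∈ Polys K H ∧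
      x.2 ∈ Polys K H ∧ ∃ t ∈ S, Bad B lam (MvPolynomial.eval t x.1) (MvPolynomial.eval t x.2)} ⊆ (U : Set _) := by
    rintro ⟨P, Q⟩ ⟨hP, hQ, t, ht, hb⟩
    dsimp only at hP hQ hb
    rw [Finset.mem_coe, hU, Finset.mem_biUnion]
    refine ⟨t, Finset.mem_filter.2 ⟨Fintype.mem_piFinset.2 fun i => mem_DF.2 (hS t ht i), ht⟩, ?_⟩
    rw [Finset.mem_biUnion]
    refine ⟨(MvPolynomial.eval t P, MvPolynomial.eval t Q), ?_, ?_⟩
    · rw [hPF, Set.Finite.mem_toFinset]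
      have e1 := eval_bound hd hH0 hτ hP (hS t ht)
      have e2 := eval_bound hd hH0 hτ hQ (hS t ht)
      have e3 : (K.card : ℝ) * (H * τ ^ d) ≤ Y := by
        rw [hY]
        nlinarith
      exact ⟨hb, e1.trans e3, e2.trans e3⟩
    · rw [Finset.mem_product]
      exact ⟨(Set.Finite.mem_toFinset _).2 ⟨hP, rfl⟩, (Set.Finite.mem_toFinset _).2 ⟨hQ, rfl⟩⟩
  have h1 := Set.ncard_le_ncard hsub (Finset.finite_toSet _)
  rw [Set.ncard_coe_finset] at h1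
  have h2 : (U.card : ℝ) ≤ ∑ t ∈ sF, ∑ y ∈ PF, ((G t y.1).card : ℝ) * (G t y.2).card := by
    have h3 : U.card ≤ ∑ t ∈ sF, ∑ y ∈ PF, (G t y.1).card * (G t y.2).card := by
      refine Finset.card_biUnion_le.trans (Finset.sum_le_sum fun t _ => ?_)
      refine Finset.card_biUnion_le.trans (Finset.sum_le_sum fun y _ => ?_)
      rw [Finset.card_product]
    exact_mod_cast h3
  have h4 : ∑ t ∈ sF, ∑ y ∈ PF, ((G t y.1).card : ℝ) * (G t y.2).card ≤ ∑ t ∈ sF, ∑ y ∈ PF, N ^ 2 := by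
    refine Finset.sum_le_sum fun t ht => Finset.sum_le_sum fun y _ => ?_
    have htS : t ∈ S := (Finset.mem_filter.1 ht).2
    rw [sq]
    exact mul_le_mul (hGcard t htS _) (hGcard t htS _) (Nat.cast_nonneg _) hN
  have h5 : ∑ t ∈ sF, ∑ y ∈ PF, N ^ 2 = (sF.card : ℝ) * ((PF.card : ℝ) * N ^ 2) := by
    rw [Finset.sum_const, Finset.sum_const, nsmul_eq_mul, nsmul_eq_mul]
  have h6 : (sF.card : ℝ) ≤ (9 * τ ^ 2) ^ r := by
    have h7 : sF.card ≤ (DF τ).card ^ r := by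
      refine (Finset.card_filter_le _ _).trans ?_
      rw [Fintype.card_piFinset, Finset.prod_const, Finset.card_univ, Fintype.card_fin]
    refine le_trans (by exact_mod_cast h7 : (sF.card : ℝ) ≤ ((DF τ).card : ℝ) ^ r) ?_
    exact pow_le_pow_left₀ (Nat.cast_nonneg _) (card_DF_le hτ) _
  have h7 : (PF.card : ℝ) ≤ C0 * Y ^ κ := by
    rw [hPF, ← Set.ncard_eq_toFinset_card _ hfin]
    exact hcnt
  have h8 : 0 ≤ C0 * Y ^ κ := mul_nonneg hC0 (Real.rpow_nonneg (by linarith) _)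
  calc _ ≤ (U.card : ℝ) := by exact_mod_cast h1
    _ ≤ (sF.card : ℝ) * ((PF.card : ℝ) * N ^ 2) := (h2.trans h4).trans (le_of_eq h5)
    _ ≤ (9 * τ ^ 2) ^ r * ((C0 * Y ^ κ) * N ^ 2) := by
        refine mul_le_mul h6 (mul_le_mul_of_nonneg_right h7 (sq_nonneg _))
          (mul_nonneg (Nat.cast_nonneg _) (sq_nonneg _)) (by positivity)
    _ = (9 * τ ^ 2) ^ r * (C0 * Y ^ κ) * N ^ 2 := by ring

end Pool.Agent.T6.H40.RP
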