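import Pool.Agent.T6.H40.RP.Div
import Pool.Agent.T6.H40.RP.Block

set_option autoImplicit false

namespace Pool.Agent.T6.H40.RP

variable {r : ℕ}

/-- the polynomials and arguments with a given value, the polynomial not a multiple of one monomial -/
def PT {m : ℕ} (K : Finset (Fin r →₀ ℕ)) (ι : Fin (m + 1 + 1) → K) (H : ℝ) (S : Set (Fin r → GaussianInt))
    (a : GaussianInt) : Set (MvPolynomial (Fin r) GaussianInt × (Fin r → GaussianInt)) :=
  {z | z.1 ∈ Polys K H ∧ (∃ j : Fin (m + 1), z.1.coeff (ι j.succ).1 ≠ 0) ∧ z.2 ∈ S ∧ MvPolynomial.eval z.2 z.1 = a}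

theorem big_pairs (m : ℕ) (K : Finset (Fin r →₀ ℕ)) (ι : Fin (m + 1 + 1) → K) (hι : Function.Bijective ι)
    (H τ : ℝ) (hH : 1 ≤ H) (hτ : 0 ≤ τ) (S : Set (Fin r → GaussianInt)) (x y : (Fin r → GaussianInt) → GaussianInt)
    (hinj : ∀ t ∈ S, ∀ t' ∈ S, x t = x t' → y t = y t' → t = t')
    (YF : Finset GaussianInt) (hY : ∀ t ∈ S, y t ∈ YF) (hyτ : ∀ u ∈ YF, ab u ≤ τ)
    (hx : ∀ t ∈ S, H < ab (x t) ∧ ab (x t) ≤ τ) (hco : ∀ t ∈ S, IsCoprime (x t) (y t))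
    (hw : ∀ t ∈ S, ∀ j, mon t (ι j).1 = x t ^ (j : ℕ) * y t ^ (m + 1 - (j : ℕ)))
    (ε D : ℝ) (hε : 0 ≤ ε) (hD0 : 0 ≤ D)
    (hD : ∀ n : GaussianInt, n ≠ 0 → ∀ P : Finset GaussianInt, (∀ d ∈ P, d ∣ n) → (P.card : ℝ) ≤ D * ab n ^ ε)
    (a : GaussianInt) :
    (PT K ι H S a).Finite ∧ ((PT K ι H S a).ncard : ℝ) ≤
      YF.card * (9 * H ^ 2 * (D * (ab a + H * τ ^ (m + 1)) ^ ε * 144 ^ m)) := by
  classical
  set T : Finset (Σ _ : GaussianInt, GaussianInt × (Fin (m + 1 + 1) → GaussianInt)) :=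
    YF.sigma fun u => JF m H τ u a with hT
  set f : MvPolynomial (Fin r) GaussianInt × (Fin r → GaussianInt) →
      (Σ _ : GaussianInt, GaussianInt × (Fin (m + 1 + 1) → GaussianInt)) :=
    fun z => ⟨y z.2, (x z.2, fun j => z.1.coeff (ι j).1)⟩ with hf
  have hmaps : Set.MapsTo f (PT K ι H S a) (T : Set _) := by
    rintro ⟨P, t⟩ ⟨hP, ⟨j, hj⟩, ht, hPa⟩
    dsimp only at hP hj ht hPa
    rw [Finset.mem_coe, hT, Finset.mem_sigma]
    refine ⟨hY t ht, ?_⟩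
    refine Finset.mem_filter.2 ⟨Finset.mem_product.2 ⟨mem_DF.2 (hx t ht).2,
      Fintype.mem_piFinset.2 fun j => mem_DF.2 (hP.2 _)⟩, (hx t ht).1, hco t ht, ?_, ?_⟩
    · intro h
      exact hj (congrFun h j)
    · rw [← hPa, ← toPoly_coeff hP.1, eval_toPoly]
      rw [← (Equiv.ofBijective ι hι).sum_comp]
      refine Finset.sum_congr rfl fun j _ => ?_
      show MvPolynomial.coeff (ι j).1 (toPoly K fun k => MvPolynomial.coeff k.1 P) * _ =
        MvPolynomial.coeff (ι j).1 P * mon t (ι j).1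
      rw [toPoly_coeff hP.1, hw t ht j]
  have hinjOn : Set.InjOn f (PT K ι H S a) := by
    rintro ⟨P, t⟩ ⟨hP, -, ht, -⟩ ⟨P', t'⟩ ⟨hP', -, ht', -⟩ h
    dsimp only at hP hP' ht ht'
    simp only [hf, Sigma.mk.injEq, Prod.mk.injEq, heq_eq_eq] at h
    refine Prod.ext ?_ (hinj t ht t' ht' h.2.1 h.1)
    show P = P'
    rw [← toPoly_coeff hP.1, ← toPoly_coeff hP'.1]
    congr 1
    funext k
    obtain ⟨j, rfl⟩ := hι.2 k
    exact congrFun h.2.2 j
  have hfin : (PT K ι H S a).Finite := Set.Finite.of_finite_image ((Finset.finite_toSet T).subset hmaps.image_subset) hinjOn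
  refine ⟨hfin, ?_⟩
  have h1 : (PT K ι H S a).ncard ≤ T.card := by
    rw [← Set.ncard_coe_finset]
    exact Set.ncard_le_ncard_of_injOn f hmaps hinjOn (Finset.finite_toSet T)
  have h2 : (T.card : ℝ) = ∑ u ∈ YF, ((JF m H τ u a).card : ℝ) := by
    rw [hT, Finset.card_sigma]
    push_cast
    rfl
  calc ((PT K ι H S a).ncard : ℝ) ≤ T.card := by exact_mod_cast h1
    _ = ∑ u ∈ YF, ((JF m H τ u a).card : ℝ) := h2
    _ ≤ ∑ u ∈ YF, 9 * H ^ 2 * (D * (ab a + H * τ ^ (m + 1)) ^ ε * 144 ^ m) := by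
        refine Finset.sum_le_sum fun u hu => ?_
        refine (card_JF m H τ hH u a ε D hε hD0 hD).trans ?_
        have h3 : (ab a + H * ab u ^ (m + 1)) ^ ε ≤ (ab a + H * τ ^ (m + 1)) ^ ε := by
          refine Real.rpow_le_rpow (add_nonneg (ab_nonneg _) (mul_nonneg (by linarith) (pow_nonneg (ab_nonneg _) _)))
            ?_ hε
          have h4 := pow_le_pow_left₀ (ab_nonneg u) (hyτ u hu) (m + 1)
          have h5 := mul_le_mul_of_nonneg_left h4 (by linarith : 0 ≤ H)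
          linarith
        have h4 := mul_le_mul_of_nonneg_left h3 hD0
        have h5 := mul_le_mul_of_nonneg_right h4 (by positivity : (0 : ℝ) ≤ 144 ^ m)
        exact mul_le_mul_of_nonneg_left h5 (by positivity)
    _ = YF.card * (9 * H ^ 2 * (D * (ab a + H * τ ^ (m + 1)) ^ ε * 144 ^ m)) := by
        rw [Finset.sum_const, nsmul_eq_mul]

theorem big_count {m : ℕ} (B lam κ C0 : ℝ)
    (hC : ∀ Y : ℝ, 1 ≤ Y → (Pairs B lam Y).Finite ∧ ((Pairs B lam Y).ncard : ℝ) ≤ C0 * Y ^ κ)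
    (K : Finset (Fin r →₀ ℕ)) (ι : Fin (m + 1 + 1) → K) (d : ℕ) (hd : ∀ k ∈ K, ∑ i, k i ≤ d) (H τ J N : ℝ)
    (hH : 1 ≤ H) (hτ : 1 ≤ τ) (hJ0 : 0 ≤ J) (hN : 0 ≤ N)
    (S : Set (Fin r → GaussianInt)) (hS : ∀ t ∈ S, ∀ i, ab (t i) ≤ τ)
    (hJ : ∀ a, ab a ≤ (1 + K.card) * (H * τ ^ d) → (PT K ι H S a).Finite ∧ ((PT K ι H S a).ncard : ℝ) ≤ J)
    (hfib : ∀ t ∈ S, ∀ a, ({P | P ∈ Polys K H ∧ MvPolynomial.eval t P = a}.ncard : ℝ) ≤ N) :
    ({x : MvPolynomial (Fin r) GaussianInt × MvPolynomial (Fin r) GaussianInt | x.1 ∈ Polys K H ∧ x.2 ∈ Polys K H ∧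
      (∃ j : Fin (m + 1), x.1.coeff (ι j.succ).1 ≠ 0) ∧
      ∃ t ∈ S, Bad B lam (MvPolynomial.eval t x.1) (MvPolynomial.eval t x.2)}.ncard : ℝ) ≤
      (C0 * ((1 + K.card) * (H * τ ^ d)) ^ κ) * (J * N) := by
  classical
  have hH0 : 0 ≤ H := by linarith
  have hτ0 : 0 ≤ τ := by linarith
  set Y : ℝ := (1 + K.card) * (H * τ ^ d) with hY
  have hHτ : 1 ≤ H * τ ^ d := one_le_mul_of_one_le_of_one_le hH (one_le_pow₀ hτ)
  have hKc : (0 : ℝ) ≤ K.card := Nat.cast_nonneg _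
  have hY1 : 1 ≤ Y := by
    rw [hY]
    nlinarith
  obtain ⟨hfin, hcnt⟩ := hC Y hY1
  set PF := hfin.toFinset with hPF
  have hGfin : ∀ t a, {P | P ∈ Polys K H ∧ MvPolynomial.eval t P = a}.Finite := fun t a =>
    (polys_fin K H hH0).subset fun P hP => hP.1
  set G : (Fin r → GaussianInt) → GaussianInt → Finset (MvPolynomial (Fin r) GaussianInt) :=
    fun t a => (hGfin t a).toFinset with hG
  have hGcard : ∀ t ∈ S, ∀ a, ((G t a).card : ℝ) ≤ N := by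
    intro t ht a
    have h := hfib t ht a
    rwa [Set.ncard_eq_toFinset_card _ (hGfin t a)] at h
  set PTF : GaussianInt → Finset (MvPolynomial (Fin r) GaussianInt × (Fin r → GaussianInt)) :=
    fun a => if h : ab a ≤ Y then (hJ a h).1.toFinset else ∅ with hPTF
  have hPTcard : ∀ a, ((PTF a).card : ℝ) ≤ J := by
    intro a
    simp only [hPTF]
    split_ifs with h
    · rw [← Set.ncard_eq_toFinset_card _ (hJ a h).1]
      exact (hJ a h).2
    · rw [Finset.card_empty, Nat.cast_zero]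
      exact hJ0
  have hPTS : ∀ a, ∀ z ∈ PTF a, z.2 ∈ S := by
    intro a z hz
    simp only [hPTF] at hz
    split_ifs at hz with h
    · rw [Set.Finite.mem_toFinset] at hz
      exact hz.2.2.1
    · exact absurd hz (Finset.notMem_empty _)
  set U := PF.biUnion fun y => (PTF y.1).biUnion fun z => ({z.1} : Finset _) ×ˢ (G z.2 y.2) with hU
  have hsub : {x : MvPolynomial (Fin r) GaussianInt × MvPolynomial (Fin r) GaussianInt | x.1 ∈ Polys K H ∧
      x.2 ∈ Polys K H ∧ (∃ j : Fin (m + 1), x.1.coeff (ι j.succ).1 ≠ 0) ∧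
      ∃ t ∈ S, Bad B lam (MvPolynomial.eval t x.1) (MvPolynomial.eval t x.2)} ⊆ (U : Set _) := by
    rintro ⟨P, Q⟩ ⟨hP, hQ, hnd, t, ht, hb⟩
    dsimp only at hP hQ hb hnd
    have e1 := eval_bound hd hH0 hτ hP (hS t ht)
    have e2 := eval_bound hd hH0 hτ hQ (hS t ht)
    have e3 : (K.card : ℝ) * (H * τ ^ d) ≤ Y := by
      rw [hY]
      nlinarith
    rw [Finset.mem_coe, hU, Finset.mem_biUnion]
    refine ⟨(MvPolynomial.eval t P, MvPolynomial.eval t Q), ?_, ?_⟩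
    · rw [hPF, Set.Finite.mem_toFinset]
      exact ⟨hb, e1.trans e3, e2.trans e3⟩
    · rw [Finset.mem_biUnion]
      refine ⟨(P, t), ?_, ?_⟩
      · simp only [hPTF]
        rw [dif_pos (e1.trans e3), Set.Finite.mem_toFinset]
        exact ⟨hP, hnd, ht, rfl⟩
      · rw [Finset.mem_product]
        exact ⟨Finset.mem_singleton_self _, (Set.Finite.mem_toFinset _).2 ⟨hQ, rfl⟩⟩
  have h1 := Set.ncard_le_ncard hsub (Finset.finite_toSet _)
  rw [Set.ncard_coe_finset] at h1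
  have h2 : (U.card : ℝ) ≤ ∑ y ∈ PF, ∑ z ∈ PTF y.1, ((G z.2 y.2).card : ℝ) := by
    have h3 : U.card ≤ ∑ y ∈ PF, ∑ z ∈ PTF y.1, (G z.2 y.2).card := by
      refine Finset.card_biUnion_le.trans (Finset.sum_le_sum fun y _ => ?_)
      refine Finset.card_biUnion_le.trans (Finset.sum_le_sum fun z _ => ?_)
      rw [Finset.card_product, Finset.card_singleton, one_mul]
    exact_mod_cast h3
  have h4 : ∑ y ∈ PF, ∑ z ∈ PTF y.1, ((G z.2 y.2).card : ℝ) ≤ ∑ y ∈ PF, J * N := by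
    refine Finset.sum_le_sum fun y _ => ?_
    refine (Finset.sum_le_sum fun z hz => hGcard z.2 (hPTS _ z hz) y.2).trans ?_
    rw [Finset.sum_const, nsmul_eq_mul]
    exact mul_le_mul_of_nonneg_right (hPTcard _) hN
  have h7 : (PF.card : ℝ) ≤ C0 * Y ^ κ := by
    rw [hPF, ← Set.ncard_eq_toFinset_card _ hfin]
    exact hcnt
  calc _ ≤ (U.card : ℝ) := by exact_mod_cast h1
    _ ≤ (PF.card : ℝ) * (J * N) := (h2.trans h4).trans (le_of_eq (by rw [Finset.sum_const, nsmul_eq_mul]))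
    _ ≤ (C0 * Y ^ κ) * (J * N) := mul_le_mul_of_nonneg_right h7 (mul_nonneg hJ0 hN)

end Pool.Agent.T6.H40.RP
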