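import Pool.Agent.T6.H40.RP.Big
import Pool.Agent.T6.H40.RP.Asym

set_option autoImplicit false

namespace Pool.Agent.T6.H40.RP

variable {r : ℕ}

theorem degen_count {m : ℕ} (K : Finset (Fin r →₀ ℕ)) (ι : Fin (m + 1 + 1) → K) (hι : Function.Bijective ι)
    (H : ℝ) (hH : 1 ≤ H) :
    ({x : MvPolynomial (Fin r) GaussianInt × MvPolynomial (Fin r) GaussianInt | x.1 ∈ Polys K H ∧ x.2 ∈ Polys K H ∧
      ∀ j : Fin (m + 1), x.1.coeff (ι j.succ).1 = 0}.ncard : ℝ) ≤ 9 * H ^ 2 * (Polys K H).ncard := by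
  have hH0 : 0 ≤ H := by linarith
  have h1 : {x : MvPolynomial (Fin r) GaussianInt × MvPolynomial (Fin r) GaussianInt | x.1 ∈ Polys K H ∧
      x.2 ∈ Polys K H ∧ ∀ j : Fin (m + 1), x.1.coeff (ι j.succ).1 = 0}.ncard ≤ ((Disc H) ×ˢ (Polys K H)).ncard := by
    refine Set.ncard_le_ncard_of_injOn (fun x => (x.1.coeff (ι 0).1, x.2)) ?_ ?_
      ((disc_fin H hH0).prod (polys_fin K H hH0))
    · rintro ⟨P, Q⟩ ⟨hP, hQ, -⟩
      exact ⟨hP.2 _, hQ⟩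
    · rintro ⟨P, Q⟩ ⟨hP, hQ, h0⟩ ⟨P', Q'⟩ ⟨hP', hQ', h0'⟩ h
      dsimp only at hP hP' h0 h0' h
      rw [Prod.mk.injEq] at h
      refine Prod.ext ?_ h.2
      show P = P'
      rw [← toPoly_coeff hP.1, ← toPoly_coeff hP'.1]
      congr 1
      funext k
      obtain ⟨j, rfl⟩ := hι.2 k
      refine Fin.cases ?_ (fun j => ?_) j
      · exact h.1
      · exact (h0 j).trans (h0' j).symm
  rw [Set.ncard_prod] at h1
  have h2 : ({x : MvPolynomial (Fin r) GaussianInt × MvPolynomial (Fin r) GaussianInt | x.1 ∈ Polys K H ∧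
      x.2 ∈ Polys K H ∧ ∀ j : Fin (m + 1), x.1.coeff (ι j.succ).1 = 0}.ncard : ℝ) ≤
      ((Disc H).ncard : ℝ) * (Polys K H).ncard := by exact_mod_cast h1
  exact h2.trans (mul_le_mul_of_nonneg_right (disc_le H hH) (Nat.cast_nonneg _))

/-- what is needed to use divisors -/
def Structured (p m : ℕ) (K : Finset (Fin r →₀ ℕ)) (Adm : (Fin r → GaussianInt) → Prop) : Prop :=
  ∀ i : Fin r, ∃ (ι : Fin (m + 1 + 1) → K) (y : (Fin r → GaussianInt) → GaussianInt), Function.Bijective ι ∧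
    (∀ t t' : Fin r → GaussianInt, t i = t' i → y t = y t' → t = t') ∧
    (∀ t, Adm t → IsCoprime (t i) (y t)) ∧
    (∀ t j, mon t (ι j).1 = t i ^ (j : ℕ) * y t ^ (m + 1 - (j : ℕ))) ∧
    (∀ τ : ℝ, 1 ≤ τ → ∃ YF : Finset GaussianInt, (YF.card : ℝ) ≤ (9 * τ ^ 2) ^ p ∧ (∀ u ∈ YF, ab u ≤ τ) ∧
      ∀ t : Fin r → GaussianInt, (∀ i, ab (t i) ≤ τ) → y t ∈ YF)

theorem big_case (p m : ℕ) (B lam κ C0 : ℝ) (hC0 : 0 ≤ C0)
    (hC : ∀ Y : ℝ, 1 ≤ Y → (Pairs B lam Y).Finite ∧ ((Pairs B lam Y).ncard : ℝ) ≤ C0 * Y ^ κ)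
    (K : Finset (Fin r →₀ ℕ)) (hd : ∀ k ∈ K, ∑ i, k i ≤ m + 1) (Adm : (Fin r → GaussianInt) → Prop)
    (hK : Structured p m K Adm) (ε D : ℝ) (hε : 0 ≤ ε) (hD0 : 0 ≤ D)
    (hD : ∀ n : GaussianInt, n ≠ 0 → ∀ P : Finset GaussianInt, (∀ d ∈ P, d ∣ n) → (P.card : ℝ) ≤ D * ab n ^ ε)
    (H τ τ' N : ℝ) (hH : 1 ≤ H) (hτ : 1 ≤ τ) (hτ' : H ≤ τ') (hN : 0 ≤ N)
    (hfib : ∀ t, Adm t → (∃ i, τ' ≤ ab (t i)) → ∀ a,
      ({P | P ∈ Polys K H ∧ MvPolynomial.eval t P = a}.ncard : ℝ) ≤ N) :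
    ({x : MvPolynomial (Fin r) GaussianInt × MvPolynomial (Fin r) GaussianInt | x.1 ∈ Polys K H ∧ x.2 ∈ Polys K H ∧
      ∃ t, (Adm t ∧ (∀ i, ab (t i) ≤ τ) ∧ ∃ i, τ' < ab (t i)) ∧
        Bad B lam (MvPolynomial.eval t x.1) (MvPolynomial.eval t x.2)}.ncard : ℝ) ≤
      r * (9 * H ^ 2 * (Polys K H).ncard + (C0 * ((1 + K.card) * (H * τ ^ (m + 1))) ^ κ) *
        (((9 * τ ^ 2) ^ p * (9 * H ^ 2 * (D * ((2 + K.card) * (H * τ ^ (m + 1))) ^ ε * 144 ^ m))) * N)) := by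
  classical
  have hH0 : 0 ≤ H := by linarith
  have hτ0 : 0 ≤ τ := by linarith
  have hKc : (0 : ℝ) ≤ K.card := Nat.cast_nonneg _
  have hHτ0 : 0 ≤ H * τ ^ (m + 1) := by positivity
  choose ι y hι hyinj hyco hw hYF using hK
  set J : ℝ := (9 * τ ^ 2) ^ p * (9 * H ^ 2 * (D * ((2 + K.card) * (H * τ ^ (m + 1))) ^ ε * 144 ^ m)) with hJdef
  have hJ0 : 0 ≤ J := by
    have : 0 ≤ ((2 + (K.card : ℝ)) * (H * τ ^ (m + 1))) ^ ε := Real.rpow_nonneg (by positivity) _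
    positivity
  set S : Fin r → Set (Fin r → GaussianInt) := fun i => {t | Adm t ∧ (∀ i, ab (t i) ≤ τ) ∧ τ' < ab (t i)} with hS
  set Dg : Fin r → Set (MvPolynomial (Fin r) GaussianInt × MvPolynomial (Fin r) GaussianInt) := fun i =>
    {x | x.1 ∈ Polys K H ∧ x.2 ∈ Polys K H ∧ ∀ j : Fin (m + 1), x.1.coeff (ι i j.succ).1 = 0} with hDg
  set Nd : Fin r → Set (MvPolynomial (Fin r) GaussianInt × MvPolynomial (Fin r) GaussianInt) := fun i =>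
    {x | x.1 ∈ Polys K H ∧ x.2 ∈ Polys K H ∧ (∃ j : Fin (m + 1), x.1.coeff (ι i j.succ).1 ≠ 0) ∧
      ∃ t ∈ S i, Bad B lam (MvPolynomial.eval t x.1) (MvPolynomial.eval t x.2)} with hNd
  have hfin2 := (polys_fin K H hH0).prod (polys_fin K H hH0)
  have hDgf : ∀ i, (Dg i).Finite := fun i => hfin2.subset fun x hx => ⟨hx.1, hx.2.1⟩
  have hNdf : ∀ i, (Nd i).Finite := fun i => hfin2.subset fun x hx => ⟨hx.1, hx.2.1⟩
  have hNdc : ∀ i, ((Nd i).ncard : ℝ) ≤ (C0 * ((1 + K.card) * (H * τ ^ (m + 1))) ^ κ) * (J * N) := by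
    intro i
    obtain ⟨YF, hY1, hY2, hY3⟩ := hYF i τ hτ
    refine big_count B lam κ C0 hC K (ι i) (m + 1) hd H τ J N hH hτ hJ0 hN (S i) (fun t ht => ht.2.1) ?_ ?_
    · intro a ha
      have h := big_pairs m K (ι i) (hι i) H τ hH hτ0 (S i) (fun t => t i) (y i)
        (fun t _ t' _ h1 h2 => hyinj i t t' h1 h2) YF (fun t ht => hY3 t ht.2.1) hY2
        (fun t ht => ⟨lt_of_le_of_lt hτ' ht.2.2, ht.2.1 i⟩) (fun t ht => hyco i t ht.1)
        (fun t _ j => hw i t j) ε D hε hD0 hD a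
      refine ⟨h.1, h.2.trans ?_⟩
      have h1 : (ab a + H * τ ^ (m + 1)) ^ ε ≤ ((2 + K.card) * (H * τ ^ (m + 1))) ^ ε := by
        refine Real.rpow_le_rpow (add_nonneg (ab_nonneg _) hHτ0) ?_ hε
        linarith
      have h2 := mul_le_mul_of_nonneg_left h1 hD0
      have h3 := mul_le_mul_of_nonneg_right h2 (by positivity : (0 : ℝ) ≤ 144 ^ m)
      have h4 := mul_le_mul_of_nonneg_left h3 (by positivity : 0 ≤ 9 * H ^ 2)
      have h5 : 0 ≤ 9 * H ^ 2 * (D * ((2 + K.card) * (H * τ ^ (m + 1))) ^ ε * 144 ^ m) := by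
        have : 0 ≤ ((2 + (K.card : ℝ)) * (H * τ ^ (m + 1))) ^ ε := Real.rpow_nonneg (by positivity) _
        positivity
      calc (YF.card : ℝ) * (9 * H ^ 2 * (D * (ab a + H * τ ^ (m + 1)) ^ ε * 144 ^ m))
          ≤ YF.card * (9 * H ^ 2 * (D * ((2 + K.card) * (H * τ ^ (m + 1))) ^ ε * 144 ^ m)) :=
            mul_le_mul_of_nonneg_left h4 (Nat.cast_nonneg _)
        _ ≤ J := mul_le_mul_of_nonneg_right hY1 h5
    · intro t ht a
      exact hfib t ht.1 ⟨i, ht.2.2.le⟩ a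
  have hsub : {x : MvPolynomial (Fin r) GaussianInt × MvPolynomial (Fin r) GaussianInt | x.1 ∈ Polys K H ∧
      x.2 ∈ Polys K H ∧ ∃ t, (Adm t ∧ (∀ i, ab (t i) ≤ τ) ∧ ∃ i, τ' < ab (t i)) ∧
        Bad B lam (MvPolynomial.eval t x.1) (MvPolynomial.eval t x.2)} ⊆
      ((Finset.univ.biUnion fun i => (hDgf i).toFinset ∪ (hNdf i).toFinset : Finset _) : Set _) := by
    rintro x ⟨h1, h2, t, ⟨h3, h4, i, h5⟩, h6⟩
    rw [Finset.mem_coe, Finset.mem_biUnion]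
    refine ⟨i, Finset.mem_univ _, ?_⟩
    rw [Finset.mem_union, Set.Finite.mem_toFinset, Set.Finite.mem_toFinset]
    by_cases hnd : ∃ j : Fin (m + 1), x.1.coeff (ι i j.succ).1 ≠ 0
    · exact Or.inr ⟨h1, h2, hnd, t, ⟨h3, h4, h5⟩, h6⟩
    · push Not at hnd
      exact Or.inl ⟨h1, h2, hnd⟩
  have h1 := Set.ncard_le_ncard hsub (Finset.finite_toSet _)
  rw [Set.ncard_coe_finset] at h1
  have h2 : ((Finset.univ.biUnion fun i => (hDgf i).toFinset ∪ (hNdf i).toFinset).card : ℝ) ≤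
      ∑ i : Fin r, (((Dg i).ncard : ℝ) + (Nd i).ncard) := by
    have h3 : (Finset.univ.biUnion fun i => (hDgf i).toFinset ∪ (hNdf i).toFinset).card ≤
        ∑ i : Fin r, ((hDgf i).toFinset.card + (hNdf i).toFinset.card) :=
      Finset.card_biUnion_le.trans (Finset.sum_le_sum fun i _ => Finset.card_union_le _ _)
    have h4 : ∀ i, (Dg i).ncard = (hDgf i).toFinset.card := fun i => Set.ncard_eq_toFinset_card _ (hDgf i)
    have h5 : ∀ i, (Nd i).ncard = (hNdf i).toFinset.card := fun i => Set.ncard_eq_toFinset_card _ (hNdf i)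
    simp only [h4, h5]
    exact_mod_cast h3
  calc _ ≤ ((Finset.univ.biUnion fun i => (hDgf i).toFinset ∪ (hNdf i).toFinset).card : ℝ) := by exact_mod_cast h1
    _ ≤ ∑ i : Fin r, (((Dg i).ncard : ℝ) + (Nd i).ncard) := h2
    _ ≤ ∑ i : Fin r, (9 * H ^ 2 * (Polys K H).ncard + (C0 * ((1 + K.card) * (H * τ ^ (m + 1))) ^ κ) * (J * N)) :=
        Finset.sum_le_sum fun i _ => add_le_add (degen_count K (ι i) (hι i) H hH) (hNdc i)
    _ = r * (9 * H ^ 2 * (Polys K H).ncard + (C0 * ((1 + K.card) * (H * τ ^ (m + 1))) ^ κ) * (J * N)) := by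
        rw [Finset.sum_const, Finset.card_univ, Fintype.card_fin, nsmul_eq_mul]

end Pool.Agent.T6.H40.RP
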