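import Pool.Agent.T6.H40.RP.Base
import Pool.Agent.Results.MP_dc323a_nt.ExceptionalSetTwelveElevenths

set_option autoImplicit false

namespace Pool.Agent.T6.H40.RP

theorem pairs_count (B lam ε : ℝ) (hlam : 0 < lam) (hε : 0 < ε) : ∃ C : ℝ, 0 ≤ C ∧
    ∀ Y : ℝ, 1 ≤ Y → (Pairs B lam Y).Finite ∧ ((Pairs B lam Y).ncard : ℝ) ≤ C * Y ^ (expo lam + ε) := by
  obtain ⟨C, hC⟩ := Pool.Agent.Results.MP_dc323a_nt.ExceptionalSetTwelveElevenths.result B lam ε hlam hε
  refine ⟨max C 0 * 2 ^ (expo lam + ε), mul_nonneg (le_max_right _ _) (Real.rpow_nonneg (by norm_num) _),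
    fun Y hY => ?_⟩
  obtain ⟨h1, h2⟩ := hC (2 * Y) (by linarith)
  set E := Pool.Agent.Results.MP_dc323a_nt.ExceptionalSetTwelveElevenths.Exc B lam (2 * Y) with hE
  set f : GaussianInt × GaussianInt → GaussianInt × GaussianInt × GaussianInt :=
    fun x => (x.1, x.2, x.1 + x.2) with hf
  have hinj : Function.Injective f := by
    rintro ⟨a, b⟩ ⟨a', b'⟩ h
    simp only [hf, Prod.mk.injEq] at h
    rw [h.1, h.2.1]
  have hmaps : Set.MapsTo f (Pairs B lam Y) E := by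
    rintro ⟨a, b⟩ ⟨⟨g1, g2, g3, g4, S, g5, g6⟩, g7, g8⟩
    refine ⟨g1, g2, g3, rfl, g4, ?_, S, g5, g6⟩
    have g9 := ab_add a b
    show max (ab a) (max (ab b) (ab (a + b))) ≤ 2 * Y
    dsimp only at g7 g8
    refine max_le (by linarith) (max_le (by linarith) (by linarith))
  have hfin : (Pairs B lam Y).Finite :=
    Set.Finite.of_finite_image (h1.subset hmaps.image_subset) hinj.injOn
  refine ⟨hfin, ?_⟩
  have h3 : (Pairs B lam Y).ncard ≤ E.ncard := Set.ncard_le_ncard_of_injOn f hmaps hinj.injOn h1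
  have h4 : ((Pairs B lam Y).ncard : ℝ) ≤ E.ncard := by exact_mod_cast h3
  refine (h4.trans h2).trans ?_
  have h5 : (2 * Y) ^ (min (8 * lam / 7) (12 / 11) + 2 * max (lam - 1) 0 + ε) =
      2 ^ (expo lam + ε) * Y ^ (expo lam + ε) := by
    rw [Real.mul_rpow (by norm_num) (by linarith)]
    rfl
  rw [h5]
  have h6 : 0 ≤ (2 : ℝ) ^ (expo lam + ε) * Y ^ (expo lam + ε) :=
    mul_nonneg (Real.rpow_nonneg (by norm_num) _) (Real.rpow_nonneg (by linarith) _)
  calc C * (2 ^ (expo lam + ε) * Y ^ (expo lam + ε))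
      ≤ max C 0 * (2 ^ (expo lam + ε) * Y ^ (expo lam + ε)) :=
        mul_le_mul_of_nonneg_right (le_max_left _ _) h6
    _ = _ := by ring

end Pool.Agent.T6.H40.RP
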