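import Mathlib

/-!
# abc over the Gaussian integers for the values of random polynomials: definitions
-/

set_option autoImplicit false

namespace Pool.Agent.T6.H40.RP

/-- `S` contains exactly one Gaussian prime from each associate class of Gaussian primes dividing `x` -/
def IsPrimeSystem (S : Finset GaussianInt) (x : GaussianInt) : Prop :=
  (∀ Q ∈ S, Prime Q ∧ Q ∣ x) ∧
  (∀ Q : GaussianInt, Prime Q → Q ∣ x → ∃ R ∈ S, Associated Q R) ∧
  (∀ Q ∈ S, ∀ R ∈ S, Associated Q R → Q = R)

/-- the absolute value of a Gaussian integer -/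
noncomputable def ab (x : GaussianInt) : ℝ := ‖GaussianInt.toComplex x‖

/-- the height of the triple `(a, b, a + b)` -/
noncomputable def ht (a b : GaussianInt) : ℝ := max (ab a) (max (ab b) (ab (a + b)))

/-- the triple `a + b = c` of nonzero coprime Gaussian integers has `rad (abc) ≤ B * ht ^ lam` -/
def Bad (B lam : ℝ) (a b : GaussianInt) : Prop :=
  a ≠ 0 ∧ b ≠ 0 ∧ a + b ≠ 0 ∧ IsCoprime a b ∧
    ∃ S : Finset GaussianInt, IsPrimeSystem S (a * b * (a + b)) ∧
      ∏ Q ∈ S, ab Q ≤ B * ht a b ^ lam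

/-- the exponent -/
noncomputable def expo (lam : ℝ) : ℝ := min (8 * lam / 7) (12 / 11) + 2 * max (lam - 1) 0

/-- the polynomials in `r` variables over the Gaussian integers whose monomials are in `K` and whose coefficients are at
most `H` in absolute value -/
def Polys {r : ℕ} (K : Finset (Fin r →₀ ℕ)) (H : ℝ) : Set (MvPolynomial (Fin r) GaussianInt) :=
  {P | P.support ⊆ K ∧ ∀ k, ab (P.coeff k) ≤ H}

/-- the pairs of such polynomials for which the triple `P(t) + Q(t) = (P + Q)(t)` is a violation for some `t` with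
`|t i| ≤ T` -/
def BadPairs {r : ℕ} (K : Finset (Fin r →₀ ℕ)) (B lam H T : ℝ) :
    Set (MvPolynomial (Fin r) GaussianInt × MvPolynomial (Fin r) GaussianInt) :=
  {x | x.1 ∈ Polys K H ∧ x.2 ∈ Polys K H ∧ ∃ t : Fin r → GaussianInt, (∀ i, ab (t i) ≤ T) ∧
    Bad B lam (MvPolynomial.eval t x.1) (MvPolynomial.eval t x.2)}

theorem expo_nonneg {lam : ℝ} (h : 0 < lam) : 0 < expo lam := by
  unfold expo
  have h1 : 0 < min (8 * lam / 7) (12 / 11 : ℝ) := lt_min (by positivity) (by norm_num)
  have h2 : 0 ≤ max (lam - 1) 0 := le_max_right _ _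
  linarith

end Pool.Agent.T6.H40.RP
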