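import Pool.Agent.T6.H40.RP.Defs

set_option autoImplicit false

namespace Pool.Agent.T6.H40.RP

theorem re_le_ab (u : GaussianInt) : |(u.re : ℝ)| ≤ ab u := by
  have h := Complex.abs_re_le_norm (GaussianInt.toComplex u)
  rw [← GaussianInt.intCast_re] at h
  exact h

theorem im_le_ab (u : GaussianInt) : |(u.im : ℝ)| ≤ ab u := by
  have h := Complex.abs_im_le_norm (GaussianInt.toComplex u)
  rw [← GaussianInt.intCast_im] at h
  exact h

theorem ab_le (u : GaussianInt) : ab u ≤ |(u.re : ℝ)| + |(u.im : ℝ)| := by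
  have h := Complex.norm_le_abs_re_add_abs_im (GaussianInt.toComplex u)
  rw [← GaussianInt.intCast_im, ← GaussianInt.intCast_re] at h
  exact h

/-- a disc -/
def Disc (H : ℝ) : Set GaussianInt := {u | ab u ≤ H}

/-- a square of Gaussian integers -/
noncomputable def Sq (n : ℕ) : Finset GaussianInt :=
  ((Finset.Icc (-(n : ℤ)) n) ×ˢ (Finset.Icc (-(n : ℤ)) n)).map
    ⟨fun x => ⟨x.1, x.2⟩, fun x y h => by
      have h1 := congrArg Zsqrtd.re h
      have h2 := congrArg Zsqrtd.im h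
      exact Prod.ext h1 h2⟩

theorem card_Sq (n : ℕ) : (Sq n).card = (2 * n + 1) ^ 2 := by
  rw [Sq, Finset.card_map, Finset.card_product, Int.card_Icc]
  have : ((n : ℤ) + 1 - -(n : ℤ)).toNat = 2 * n + 1 := by omega
  rw [this]
  ring

theorem mem_Sq (n : ℕ) (u : GaussianInt) : u ∈ Sq n ↔ |u.re| ≤ n ∧ |u.im| ≤ n := by
  rw [Sq, Finset.mem_map]
  constructor
  · rintro ⟨x, hx, rfl⟩
    rw [Finset.mem_product, Finset.mem_Icc, Finset.mem_Icc] at hx
    exact ⟨abs_le.2 hx.1, abs_le.2 hx.2⟩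
  · rintro ⟨h1, h2⟩
    refine ⟨(u.re, u.im), ?_, rfl⟩
    rw [Finset.mem_product, Finset.mem_Icc, Finset.mem_Icc]
    exact ⟨abs_le.1 h1, abs_le.1 h2⟩

theorem disc_sub (H : ℝ) (_hH : 0 ≤ H) : Disc H ⊆ (Sq ⌊H⌋₊ : Set GaussianInt) := by
  intro u hu
  have hu' : ab u ≤ H := hu
  rw [Finset.mem_coe, mem_Sq]
  constructor
  · have h := (re_le_ab u).trans hu'
    have h2 : ((u.re.natAbs : ℕ) : ℝ) ≤ H := by
      rw [Nat.cast_natAbs]
      push_cast
      exact h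
    have h3 := Nat.le_floor h2
    rw [Int.abs_eq_natAbs]
    exact_mod_cast h3
  · have h := (im_le_ab u).trans hu'
    have h2 : ((u.im.natAbs : ℕ) : ℝ) ≤ H := by
      rw [Nat.cast_natAbs]
      push_cast
      exact h
    have h3 := Nat.le_floor h2
    rw [Int.abs_eq_natAbs]
    exact_mod_cast h3

theorem disc_fin (H : ℝ) (hH : 0 ≤ H) : (Disc H).Finite := (Sq _).finite_toSet.subset (disc_sub H hH)

theorem disc_le (H : ℝ) (hH : 1 ≤ H) : ((Disc H).ncard : ℝ) ≤ 9 * H ^ 2 := by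
  have h1 := Set.ncard_le_ncard (disc_sub H (by linarith)) (Sq _).finite_toSet
  rw [Set.ncard_coe_finset, card_Sq] at h1
  have h2 : ((Disc H).ncard : ℝ) ≤ ((2 * ⌊H⌋₊ + 1) ^ 2 : ℕ) := by exact_mod_cast h1
  refine h2.trans ?_
  have h3 := Nat.floor_le (by linarith : 0 ≤ H)
  push_cast
  have h4 : (0 : ℝ) ≤ ⌊H⌋₊ := Nat.cast_nonneg _
  nlinarith

theorem le_disc (H : ℝ) (hH : 1 ≤ H) : H ^ 2 / 4 ≤ ((Disc H).ncard : ℝ) := by
  have hsub : (Sq ⌊H / 2⌋₊ : Set GaussianInt) ⊆ Disc H := by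
    intro u hu
    rw [Finset.mem_coe, mem_Sq] at hu
    have h3 := Nat.floor_le (by linarith : 0 ≤ H / 2)
    have h1 : |(u.re : ℝ)| ≤ H / 2 := le_trans (by exact_mod_cast hu.1) h3
    have h2 : |(u.im : ℝ)| ≤ H / 2 := le_trans (by exact_mod_cast hu.2) h3
    show ab u ≤ H
    have := ab_le u
    linarith
  have h1 := Set.ncard_le_ncard hsub (disc_fin H (by linarith))
  rw [Set.ncard_coe_finset, card_Sq] at h1
  have h2 : (((2 * ⌊H / 2⌋₊ + 1) ^ 2 : ℕ) : ℝ) ≤ ((Disc H).ncard : ℝ) := by exact_mod_cast h1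
  refine le_trans ?_ h2
  push_cast
  have h3 := Nat.lt_floor_add_one (H / 2)
  have h4 : (0 : ℝ) ≤ ⌊H / 2⌋₊ := Nat.cast_nonneg _
  have h5 : H / 2 ≤ 2 * (⌊H / 2⌋₊ : ℝ) + 1 := by
    rcases le_total H 2 with h | h
    · linarith
    · linarith
  nlinarith

end Pool.Agent.T6.H40.RP
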