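import Pool.Agent.T6.H40.RP.Fib
import Pool.Agent.W17.AB.Count

set_option autoImplicit false

namespace Pool.Agent.T6.H40.RP

theorem div_bound (ε : ℝ) (hε : 0 < ε) : ∃ D : ℝ, 0 < D ∧ ∀ n : GaussianInt, n ≠ 0 →
    ∀ P : Finset GaussianInt, (∀ d ∈ P, d ∣ n) → (P.card : ℝ) ≤ D * ab n ^ ε := by
  obtain ⟨D, hD, h⟩ := Pool.Agent.W17.AB.divisors (ε / 2) (by linarith)
  refine ⟨D, hD, fun n hn P hP => (h n hn P hP).trans (le_of_eq ?_)⟩
  have h1 : (Pool.Agent.W17.AB.nm n : ℝ) = ab n ^ 2 := Pool.Agent.W17.AB.nm_real n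
  rw [h1, ← Real.rpow_natCast, ← Real.rpow_mul (ab_nonneg _)]
  congr 2
  push_cast
  ring

theorem sum_split (m : ℕ) (x y : GaussianInt) (c : Fin (m + 1 + 1) → GaussianInt) :
    ∑ j : Fin (m + 1 + 1), c j * (x ^ (j : ℕ) * y ^ (m + 1 - (j : ℕ))) =
      c 0 * y ^ (m + 1) + x * ∑ j : Fin (m + 1), Fin.tail c j * (x ^ (j : ℕ) * y ^ (m - (j : ℕ))) := by
  rw [Fin.sum_univ_succ, Finset.mul_sum]
  congr 1
  · simp
  · refine Finset.sum_congr rfl fun j _ => ?_
    rw [Fin.val_succ, pow_succ, Nat.add_sub_add_right]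
    show c j.succ * _ = x * (c j.succ * _)
    ring

theorem zero_form (H : ℝ) (x y : GaussianInt) (hx : H < ab x) (hxy : IsCoprime x y) : ∀ (m : ℕ)
    (c : Fin (m + 1) → GaussianInt), (∀ j, ab (c j) ≤ H) →
    ∑ j : Fin (m + 1), c j * (x ^ (j : ℕ) * y ^ (m - (j : ℕ))) = 0 → c = 0 := by
  have hsmall : ∀ u : GaussianInt, ab u ≤ H → x ∣ u → u = 0 := by
    rintro u hu ⟨v, rfl⟩
    by_contra h
    have hv : v ≠ 0 := fun h' => h (by rw [h', mul_zero])
    have h1 : 1 ≤ ab v := by
      have h1 : 0 < v.norm := GaussianInt.norm_pos.2 hv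
      have h2 : (1 : ℝ) ≤ (v.norm : ℝ) := by exact_mod_cast h1
      rw [GaussianInt.intCast_real_norm, Complex.normSq_eq_norm_sq] at h2
      have h3 : 0 ≤ ‖GaussianInt.toComplex v‖ := norm_nonneg _
      show 1 ≤ ‖GaussianInt.toComplex v‖
      nlinarith
    rw [ab_mul] at hu
    have h2 := ab_nonneg x
    nlinarith
  intro m
  induction m with
  | zero =>
    intro c hc h
    funext j
    rw [Fin.fin_one_eq_zero j]
    simpa using h
  | succ m ih =>
    intro c hc h
    rw [sum_split] at h
    have h1 : x ∣ c 0 * y ^ (m + 1) := by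
      refine ⟨-∑ j : Fin (m + 1), Fin.tail c j * (x ^ (j : ℕ) * y ^ (m - (j : ℕ))), ?_⟩
      rw [mul_neg]
      exact eq_neg_of_add_eq_zero_left h
    have h2 : x ∣ c 0 := (hxy.pow_right (n := m + 1)).dvd_of_dvd_mul_right h1
    have h3 := hsmall (c 0) (hc 0) h2
    have hx0 : x ≠ 0 := by
      rintro rfl
      rw [ab_zero] at hx
      have := (ab_nonneg (c 0)).trans (hc 0)
      linarith
    rw [h3, zero_mul, zero_add] at h
    have h4 := ih (Fin.tail c) (fun j => hc j.succ) ((mul_eq_zero.1 h).resolve_left hx0)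
    rw [← Fin.cons_self_tail c, h4, h3]
    funext j
    refine Fin.cases ?_ (fun j => ?_) j
    · simp
    · simp

open Classical in
/-- the pairs of a form and a value of `x` for given `y` and given value of the form -/
noncomputable def JF (m : ℕ) (H τ : ℝ) (y a : GaussianInt) : Finset (GaussianInt × (Fin (m + 1 + 1) → GaussianInt)) :=
  ((DF τ) ×ˢ (Fintype.piFinset fun _ : Fin (m + 1 + 1) => DF H)).filter fun z =>
    H < ab z.1 ∧ IsCoprime z.1 y ∧ Fin.tail z.2 ≠ 0 ∧
      ∑ j : Fin (m + 1 + 1), z.2 j * (z.1 ^ (j : ℕ) * y ^ (m + 1 - (j : ℕ))) = a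

theorem card_JF (m : ℕ) (H τ : ℝ) (hH : 1 ≤ H) (y a : GaussianInt) (ε D : ℝ) (hε : 0 ≤ ε) (hD0 : 0 ≤ D)
    (hD : ∀ n : GaussianInt, n ≠ 0 → ∀ P : Finset GaussianInt, (∀ d ∈ P, d ∣ n) → (P.card : ℝ) ≤ D * ab n ^ ε) :
    ((JF m H τ y a).card : ℝ) ≤ 9 * H ^ 2 * (D * (ab a + H * ab y ^ (m + 1)) ^ ε * 144 ^ m) := by
  classical
  have hV0 : 0 ≤ ab a + H * ab y ^ (m + 1) :=
    add_nonneg (ab_nonneg _) (mul_nonneg (by linarith) (pow_nonneg (ab_nonneg _) _))
  have hM0 : 0 ≤ D * (ab a + H * ab y ^ (m + 1)) ^ ε * 144 ^ m :=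
    mul_nonneg (mul_nonneg hD0 (Real.rpow_nonneg hV0 _)) (by positivity)
  rw [Finset.card_eq_sum_card_image (fun z => z.2 0) (JF m H τ y a)]
  push_cast
  have hfib : ∀ u ∈ (JF m H τ y a).image (fun z => z.2 0),
      (((JF m H τ y a).filter fun z => z.2 0 = u).card : ℝ) ≤ D * (ab a + H * ab y ^ (m + 1)) ^ ε * 144 ^ m := by
    intro u hu
    have huH : ab u ≤ H := by
      obtain ⟨z, hz, rfl⟩ := Finset.mem_image.1 hu
      exact mem_DF.1 (Fintype.mem_piFinset.1 (Finset.mem_product.1 (Finset.mem_filter.1 hz).1).2 0)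
    set n := a - u * y ^ (m + 1) with hn
    have hkey : ∀ z ∈ (JF m H τ y a).filter fun z => z.2 0 = u,
        n = z.1 * ∑ j : Fin (m + 1), Fin.tail z.2 j * (z.1 ^ (j : ℕ) * y ^ (m - (j : ℕ))) := by
      intro z hz
      have h1 := Finset.mem_filter.1 hz
      have h2 := (Finset.mem_filter.1 h1.1).2.2.2.2
      rw [sum_split, h1.2] at h2
      rw [hn, ← h2]
      ring
    by_cases hn0 : n = 0
    · have hempty : (JF m H τ y a).filter (fun z => z.2 0 = u) = ∅ := by
        refine Finset.eq_empty_of_forall_notMem fun z hz => ?_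
        have h1 := hkey z hz
        have h2 := Finset.mem_filter.1 (Finset.mem_filter.1 hz).1
        rw [hn0] at h1
        have hz0 : z.1 ≠ 0 := by
          intro h
          have := h2.2.1
          rw [h, ab_zero] at this
          linarith
        have h3 := (mul_eq_zero.1 h1.symm).resolve_left hz0
        refine h2.2.2.2.1 (zero_form H z.1 y h2.2.1 h2.2.2.1 m _ (fun j => ?_) h3)
        exact mem_DF.1 (Fintype.mem_piFinset.1 (Finset.mem_product.1 h2.1).2 j.succ)
      rw [hempty, Finset.card_empty, Nat.cast_zero]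
      exact hM0
    · rw [Finset.card_eq_sum_card_image (fun z => z.1) ((JF m H τ y a).filter fun z => z.2 0 = u)]
      push_cast
      have hdiv : (((((JF m H τ y a).filter fun z => z.2 0 = u).image fun z => z.1).card : ℕ) : ℝ) ≤
          D * (ab a + H * ab y ^ (m + 1)) ^ ε := by
        have h1 := hD n hn0 (((JF m H τ y a).filter fun z => z.2 0 = u).image fun z => z.1) (fun x hx => by
          obtain ⟨z, hz, rfl⟩ := Finset.mem_image.1 hx
          exact ⟨_, hkey z hz⟩)
        refine h1.trans (mul_le_mul_of_nonneg_left ?_ hD0)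
        refine Real.rpow_le_rpow (ab_nonneg _) ?_ hε
        rw [hn]
        refine (ab_sub _ _).trans ?_
        rw [ab_mul, ab_pow]
        have := mul_le_mul_of_nonneg_right huH (pow_nonneg (ab_nonneg y) (m + 1))
        linarith
      have hfib2 : ∀ x ∈ ((JF m H τ y a).filter fun z => z.2 0 = u).image (fun z => z.1),
          ((((JF m H τ y a).filter fun z => z.2 0 = u).filter fun z => z.1 = x).card : ℝ) ≤ 144 ^ m := by
        intro x hx
        obtain ⟨z0, hz0, hz0x⟩ := Finset.mem_image.1 hx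
        have g1 := Finset.mem_filter.1 (Finset.mem_filter.1 hz0).1
        rw [hz0x] at g1
        have hxH : H < ab x := g1.2.1
        have hxy : IsCoprime x y := g1.2.2.1
        have hxab : 0 < ab x := by linarith
        have hx0 : x ≠ 0 := by
          rintro rfl
          rw [ab_zero] at hxab
          exact lt_irrefl _ hxab
        have h1 : (((JF m H τ y a).filter fun z => z.2 0 = u).filter fun z => z.1 = x).card ≤
            ((Fintype.piFinset fun _ : Fin (m + 1) => DF H).filter fun c => ∑ j : Fin (m + 1),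
              c j * (x ^ (j : ℕ) * y ^ (m - (j : ℕ))) = n / x).card := by
          refine Finset.card_le_card_of_injOn (fun z => Fin.tail z.2) ?_ ?_
          · intro z hz
            have h2 := Finset.mem_filter.1 hz
            have h3 := Finset.mem_filter.1 h2.1
            have h4 := Finset.mem_filter.1 h3.1
            refine Finset.mem_coe.2 (Finset.mem_filter.2 ⟨Fintype.mem_piFinset.2 fun j =>
              Fintype.mem_piFinset.1 (Finset.mem_product.1 h4.1).2 j.succ, ?_⟩)
            have h5 := hkey z h2.1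
            rw [h2.2] at h5
            rw [h5, mul_div_cancel_left₀ _ hx0]
          · intro z hz z' hz' h
            have h2 := Finset.mem_filter.1 hz
            have h2' := Finset.mem_filter.1 hz'
            have h3 := (Finset.mem_filter.1 h2.1).2
            have h3' := (Finset.mem_filter.1 h2'.1).2
            dsimp only at h
            refine Prod.ext (h2.2.trans h2'.2.symm) ?_
            rw [← Fin.cons_self_tail z.2, ← Fin.cons_self_tail z'.2, h, h3, h3']
        have h2 := uni H x y hx0 hxy m (n / x)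
        have h3 : (36 * (1 + H / ab x) ^ 2) ^ m ≤ (144 : ℝ) ^ m := by
          have h4 : H / ab x ≤ 1 := (div_le_one hxab).2 hxH.le
          have h5 : 0 ≤ H / ab x := by positivity
          refine pow_le_pow_left₀ (by positivity) ?_ _
          nlinarith
        refine le_trans ?_ (h2.trans h3)
        exact_mod_cast h1
      refine (Finset.sum_le_sum hfib2).trans ?_
      rw [Finset.sum_const, nsmul_eq_mul]
      exact mul_le_mul_of_nonneg_right hdiv (by positivity)
  refine (Finset.sum_le_sum hfib).trans ?_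
  rw [Finset.sum_const, nsmul_eq_mul]
  refine mul_le_mul_of_nonneg_right ?_ hM0
  refine le_trans ?_ (card_DF_le hH)
  have himg : (JF m H τ y a).image (fun z => z.2 0) ⊆ DF H := by
    intro u hu
    obtain ⟨z, hz, rfl⟩ := Finset.mem_image.1 hu
    exact Fintype.mem_piFinset.1 (Finset.mem_product.1 (Finset.mem_filter.1 hz).1).2 0
  exact_mod_cast Finset.card_le_card himg

end Pool.Agent.T6.H40.RP
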