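import Pool.Agent.T6.H40.RP.Base
import Pool.Agent.T6.H40.RP.Disc

set_option autoImplicit false

namespace Pool.Agent.T6.H40.RP

open Classical in
/-- the disc as a finite set -/
noncomputable def DF (H : ℝ) : Finset GaussianInt := (Sq ⌊H⌋₊).filter fun u => ab u ≤ H

theorem mem_DF {H : ℝ} {u : GaussianInt} : u ∈ DF H ↔ ab u ≤ H := by
  classical
  rw [DF, Finset.mem_filter]
  refine ⟨fun h => h.2, fun h => ⟨?_, h⟩⟩
  have hH : 0 ≤ H := (ab_nonneg u).trans h
  exact Finset.mem_coe.1 (disc_sub H hH h)

theorem coe_DF (H : ℝ) : (DF H : Set GaussianInt) = Disc H := by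
  ext u
  rw [Finset.mem_coe, mem_DF]
  rfl

theorem card_DF_le {H : ℝ} (hH : 1 ≤ H) : ((DF H).card : ℝ) ≤ 9 * H ^ 2 := by
  have h := disc_le H hH
  rwa [← coe_DF, Set.ncard_coe_finset] at h

theorem le_card_DF {H : ℝ} (hH : 1 ≤ H) : H ^ 2 / 4 ≤ ((DF H).card : ℝ) := by
  have h := le_disc H hH
  rwa [← coe_DF, Set.ncard_coe_finset] at h

open Classical in
theorem card_residue (H : ℝ) (x a v : GaussianInt) (hx : x ≠ 0) (hv : IsCoprime x v) :
    (((DF H).filter fun u => x ∣ a - u * v).card : ℝ) ≤ 36 * (1 + H / ab x) ^ 2 := by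
  set s := (DF H).filter fun u => x ∣ a - u * v with hs
  have hx0 : 0 < ab x := norm_pos_iff.2 (fun h => hx (GaussianInt.toComplex_eq_zero.1 h))
  rcases s.eq_empty_or_nonempty with h | ⟨u0, hu0⟩
  · rw [h, Finset.card_empty, Nat.cast_zero]
    positivity
  · rw [hs, Finset.mem_filter, mem_DF] at hu0
    have hH : 0 ≤ H := (ab_nonneg _).trans hu0.1
    have hdvd : ∀ u ∈ s, x ∣ u - u0 := by
      intro u hu
      rw [hs, Finset.mem_filter] at hu
      have h1 : x ∣ (u - u0) * v := by
        have h2 := dvd_sub hu0.2 hu.2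
        have h3 : a - u0 * v - (a - u * v) = (u - u0) * v := by ring
        rwa [h3] at h2
      exact hv.dvd_of_dvd_mul_right h1
    have h1 : s.card ≤ (DF (1 + 2 * (H / ab x))).card := by
      refine Finset.card_le_card_of_injOn (fun u => (u - u0) / x) ?_ ?_
      · intro u hu
        rw [Finset.mem_coe, mem_DF]
        have h2 := EuclideanDomain.mul_div_cancel' hx (hdvd u hu)
        have h3 : ab x * ab ((u - u0) / x) = ab (u - u0) := by rw [← ab_mul, h2]
        have h4 : ab (u - u0) ≤ 2 * H := by
          have h5 : ab (u - u0) ≤ ab u + ab u0 := by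
            show ‖GaussianInt.toComplex (u - u0)‖ ≤ _
            rw [map_sub]
            exact norm_sub_le _ _
          have h6 : ab u ≤ H := mem_DF.1 (Finset.mem_filter.1 hu).1
          linarith [hu0.1]
        have h5 : ab ((u - u0) / x) ≤ 2 * (H / ab x) := by
          rw [← mul_div_assoc, le_div_iff₀ hx0]
          linarith
        show ab ((u - u0) / x) ≤ _
        linarith
      · intro u hu u' hu' h
        have h2 := EuclideanDomain.mul_div_cancel' hx (hdvd u hu)
        have h3 := EuclideanDomain.mul_div_cancel' hx (hdvd u' hu')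
        dsimp only at h
        rw [h, h3] at h2
        exact (sub_left_injective h2).symm
    have hHx : 0 ≤ H / ab x := div_nonneg hH hx0.le
    have h2 : (s.card : ℝ) ≤ 9 * (1 + 2 * (H / ab x)) ^ 2 :=
      le_trans (by exact_mod_cast h1) (card_DF_le (by linarith))
    nlinarith

open Classical in
/-- the number of binary forms with given value at `(x, y)` -/
theorem uni (H : ℝ) (x y : GaussianInt) (hx : x ≠ 0) (hxy : IsCoprime x y) : ∀ (m : ℕ) (a : GaussianInt),
    (((Fintype.piFinset fun _ : Fin (m + 1) => DF H).filter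
      fun c => ∑ j : Fin (m + 1), c j * (x ^ (j : ℕ) * y ^ (m - (j : ℕ))) = a).card : ℝ) ≤ (36 * (1 + H / ab x) ^ 2) ^ m := by
  intro m
  induction m with
  | zero =>
    intro a
    rw [pow_zero]
    have h : ((Fintype.piFinset fun _ : Fin (0 + 1) => DF H).filter
      fun c => ∑ j : Fin (0 + 1), c j * (x ^ (j : ℕ) * y ^ (0 - (j : ℕ))) = a).card ≤ 1 := by
      refine Finset.card_le_one.2 fun c hc c' hc' => ?_
      have h1 : c 0 = a := by
        have := (Finset.mem_filter.1 hc).2
        simpa using this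
      have h2 : c' 0 = a := by
        have := (Finset.mem_filter.1 hc').2
        simpa using this
      funext j
      have hj : j = 0 := Fin.fin_one_eq_zero j
      rw [hj, h1, h2]
    exact_mod_cast h
  | succ m ih =>
    intro a
    set s := (Fintype.piFinset fun _ : Fin (m + 1 + 1) => DF H).filter
      fun c => ∑ j : Fin (m + 1 + 1), c j * (x ^ (j : ℕ) * y ^ (m + 1 - (j : ℕ))) = a with hs
    have hsum : ∀ c : Fin (m + 1 + 1) → GaussianInt, ∑ j, c j * (x ^ (j : ℕ) * y ^ (m + 1 - (j : ℕ))) =
        c 0 * y ^ (m + 1) + x * ∑ j : Fin (m + 1), Fin.tail c j * (x ^ (j : ℕ) * y ^ (m - (j : ℕ))) := by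
      intro c
      rw [Fin.sum_univ_succ, Finset.mul_sum]
      congr 1
      · simp
      · refine Finset.sum_congr rfl fun j _ => ?_
        rw [Fin.val_succ, pow_succ, Nat.add_sub_add_right]
        show c j.succ * _ = x * (c j.succ * _)
        ring
    rw [Finset.card_eq_sum_card_image (fun c : Fin (m + 1 + 1) → GaussianInt => c 0) s]
    push_cast
    have himg : s.image (fun c : Fin (m + 1 + 1) → GaussianInt => c 0) ⊆
        (DF H).filter fun u => x ∣ a - u * y ^ (m + 1) := by
      intro u hu
      obtain ⟨c, hc, rfl⟩ := Finset.mem_image.1 hu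
      have h1 := Finset.mem_filter.1 hc
      rw [hsum] at h1
      refine Finset.mem_filter.2 ⟨Fintype.mem_piFinset.1 h1.1 0, ?_⟩
      rw [← h1.2]
      exact ⟨∑ j : Fin (m + 1), Fin.tail c j * (x ^ (j : ℕ) * y ^ (m - (j : ℕ))), by ring⟩
    have hfib : ∀ u ∈ s.image (fun c : Fin (m + 1 + 1) → GaussianInt => c 0),
        ((s.filter fun c => c 0 = u).card : ℝ) ≤ (36 * (1 + H / ab x) ^ 2) ^ m := by
      intro u hu
      obtain ⟨a', ha'⟩ := (Finset.mem_filter.1 (himg hu)).2
      refine le_trans ?_ (ih a')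
      have h1 : (s.filter fun c => c 0 = u).card ≤ ((Fintype.piFinset fun _ : Fin (m + 1) => DF H).filter
          fun c => ∑ j : Fin (m + 1), c j * (x ^ (j : ℕ) * y ^ (m - (j : ℕ))) = a').card := by
        refine Finset.card_le_card_of_injOn Fin.tail ?_ ?_
        · intro c hc
          have h2 := Finset.mem_filter.1 hc
          have h3 := Finset.mem_filter.1 h2.1
          rw [hsum] at h3
          refine Finset.mem_coe.2 (Finset.mem_filter.2 ⟨Fintype.mem_piFinset.2 fun j => Fintype.mem_piFinset.1 h3.1 j.succ, ?_⟩)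
          have h4 : x * ∑ j : Fin (m + 1), Fin.tail c j * (x ^ (j : ℕ) * y ^ (m - (j : ℕ))) = x * a' := by
            rw [← ha', ← h2.2, ← h3.2]
            ring
          exact mul_left_cancel₀ hx h4
        · intro c hc c' hc' h
          have h2 := (Finset.mem_filter.1 hc).2
          have h3 := (Finset.mem_filter.1 hc').2
          rw [← Fin.cons_self_tail c, ← Fin.cons_self_tail c', h, h2, h3]
      exact_mod_cast h1
    refine (Finset.sum_le_sum hfib).trans ?_
    rw [Finset.sum_const, nsmul_eq_mul, pow_succ, mul_comm]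
    have h0 : 0 ≤ (36 * (1 + H / ab x) ^ 2) ^ m := by positivity
    refine mul_le_mul_of_nonneg_left ?_ h0
    refine le_trans ?_ (card_residue H x a (y ^ (m + 1)) hx hxy.pow_right)
    exact_mod_cast Finset.card_le_card himg

end Pool.Agent.T6.H40.RP
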