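import Mathlib

set_option autoImplicit false

namespace Pool.Agent.T6.H40.RP

open MeasureTheory Filter Topology ENNReal

theorem hausdorff_limsup {X : Type} [EMetricSpace X] [MeasurableSpace X] [BorelSpace X] {ι κ : Type} [Countable ι]
    (s : ℝ) (hs : 0 < s) (A : ι → Set X) (F : ι → Finset κ) (U : ι → κ → Set X) (ρ : ι → ℝ≥0∞)
    (hA : ∀ t, A t ⊆ ⋃ y ∈ F t, U t y) (hU : ∀ t, ∀ y ∈ F t, Metric.ediam (U t y) ≤ ρ t)
    (hsum : ∑' t, ((F t).card : ℝ≥0∞) * ρ t ^ s ≠ ⊤) :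
    Measure.hausdorffMeasure s {x | {t | x ∈ A t}.Infinite} = 0 := by
  classical
  set c : ι → ℝ≥0∞ := fun t => ((F t).card : ℝ≥0∞) * ρ t ^ s with hc
  set tail : Finset ι → ℝ≥0∞ := fun S => ∑' b : {x // x ∉ S}, c b with htl
  have htail : Tendsto tail atTop (𝓝 0) := ENNReal.tendsto_tsum_compl_atTop_zero hsum
  have hr : Tendsto (fun S => tail S ^ (1 / s)) atTop (𝓝 0) := by
    have h := htail.ennrpow_const (1 / s)
    rwa [ENNReal.zero_rpow_of_pos (by positivity)] at h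
  have hle := Measure.hausdorffMeasure_le_liminf_tsum (X := X)
    (ι := fun S : Finset ι => Σ t : {t // t ∉ S}, {y // y ∈ F t.1}) s
    {x | {t | x ∈ A t}.Infinite} (l := atTop) (fun S => tail S ^ (1 / s)) hr
    (fun S i => U i.1.1 i.2.1) (Eventually.of_forall fun S => ?_) (Eventually.of_forall fun S => ?_)
  · refine le_antisymm (hle.trans ?_) zero_le
    rw [← htail.liminf_eq]
    refine liminf_le_liminf (Eventually.of_forall fun S => ?_)
    refine (le_of_eq (ENNReal.tsum_sigma (fun (t : {t // t ∉ S}) (y : {y // y ∈ F t.1}) =>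
      Metric.ediam (U t.1 y.1) ^ s))).trans ?_
    refine ENNReal.tsum_le_tsum fun t => ?_
    calc ∑' y : {y // y ∈ F t.1}, Metric.ediam (U t.1 y.1) ^ s ≤ ∑' y : {y // y ∈ F t.1}, ρ t.1 ^ s :=
          ENNReal.tsum_le_tsum fun y => ENNReal.rpow_le_rpow (hU _ _ y.2) hs.le
      _ = c t.1 := by
          rw [tsum_fintype, Finset.sum_const, nsmul_eq_mul, Finset.card_univ, Fintype.card_coe]
  · rintro ⟨t, y⟩
    refine (hU t.1 y.1 y.2).trans ?_
    have h1 : ρ t.1 ^ s ≤ tail S := by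
      have h2 : c t.1 ≤ tail S := ENNReal.le_tsum t
      refine le_trans ?_ h2
      have h3 : (1 : ℝ≥0∞) ≤ ((F t.1).card : ℝ≥0∞) := by
        exact_mod_cast Finset.card_pos.2 ⟨y.1, y.2⟩
      calc ρ t.1 ^ s = 1 * ρ t.1 ^ s := (one_mul _).symm
        _ ≤ c t.1 := mul_le_mul' h3 le_rfl
    calc ρ t.1 = (ρ t.1 ^ s) ^ (1 / s) := by
          rw [← ENNReal.rpow_mul, mul_one_div_cancel hs.ne', ENNReal.rpow_one]
      _ ≤ tail S ^ (1 / s) := ENNReal.rpow_le_rpow h1 (by positivity)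
  · intro x hx
    obtain ⟨t, ht, htS⟩ := hx.exists_notMem_finset S
    obtain ⟨y, hy⟩ := Set.mem_iUnion.1 (hA t ht)
    obtain ⟨hy1, hy2⟩ := Set.mem_iUnion.1 hy
    exact Set.mem_iUnion.2 ⟨⟨⟨t, htS⟩, ⟨y, hy1⟩⟩, hy2⟩

end Pool.Agent.T6.H40.RP
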