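import Pool.Agent.T6.H40.RP.Base
import Pool.Agent.T6.H40.RP.Disc

set_option autoImplicit false

namespace Pool.Agent.T6.H40.RP

open MvPolynomial

variable {r : ℕ}

theorem polys_fin (K : Finset (Fin r →₀ ℕ)) (H : ℝ) (hH : 0 ≤ H) : (Polys K H).Finite := by
  classical
  set f : MvPolynomial (Fin r) GaussianInt → (K → GaussianInt) := fun P k => P.coeff k with hf
  have hpi : (Set.univ.pi fun _ : K => Disc H).Finite := Set.Finite.pi fun _ => disc_fin H hH
  have hmaps : Set.MapsTo f (Polys K H) (Set.univ.pi fun _ : K => Disc H) := fun P hP k _ => hP.2 k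
  have hinj : Set.InjOn f (Polys K H) := by
    intro P hP Q hQ h
    apply MvPolynomial.ext
    intro k
    by_cases hk : k ∈ K
    · exact congrFun h ⟨k, hk⟩
    · rw [notMem_support_iff.1 fun h' => hk (hP.1 h'), notMem_support_iff.1 fun h' => hk (hQ.1 h')]
  exact Set.Finite.of_finite_image (hpi.subset hmaps.image_subset) hinj

/-- the polynomials without constant term -/
def Polys0 (K : Finset (Fin r →₀ ℕ)) (H : ℝ) : Set (MvPolynomial (Fin r) GaussianInt) :=
  {P | P ∈ Polys K H ∧ P.coeff 0 = 0}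

theorem polys0_fin (K : Finset (Fin r →₀ ℕ)) (H : ℝ) (hH : 0 ≤ H) : (Polys0 K H).Finite :=
  (polys_fin K H hH).subset fun _ hP => hP.1

theorem add_const {K : Finset (Fin r →₀ ℕ)} (h0 : 0 ∈ K) {H : ℝ} {P : MvPolynomial (Fin r) GaussianInt}
    (hP : P ∈ Polys0 K H) {u : GaussianInt} (hu : ab u ≤ H) : P + C u ∈ Polys K H := by
  classical
  refine ⟨?_, ?_⟩
  · intro k hk
    by_contra hcon
    have hk0 : k ≠ 0 := fun h => hcon (h ▸ h0)
    rw [mem_support_iff, coeff_add, coeff_C, if_neg (Ne.symm hk0), add_zero] at hk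
    exact hcon (hP.1.1 (mem_support_iff.2 hk))
  · intro k
    rw [coeff_add, coeff_C]
    split_ifs with h
    · rw [← h, hP.2, zero_add]
      exact hu
    · rw [add_zero]
      exact hP.1.2 k

theorem sub_const {K : Finset (Fin r →₀ ℕ)} {H : ℝ} (hH : 0 ≤ H) {P : MvPolynomial (Fin r) GaussianInt}
    (hP : P ∈ Polys K H) : P - C (P.coeff 0) ∈ Polys0 K H := by
  classical
  refine ⟨⟨?_, ?_⟩, ?_⟩
  · intro k hk
    rw [mem_support_iff, coeff_sub, coeff_C] at hk
    by_cases h : (0 : Fin r →₀ ℕ) = k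
    · subst h
      simp at hk
    · rw [if_neg h, sub_zero] at hk
      exact hP.1 (mem_support_iff.2 hk)
  · intro k
    rw [coeff_sub, coeff_C]
    split_ifs with h
    · rw [← h, sub_self, ab_zero]
      exact hH
    · rw [sub_zero]
      exact hP.2 k
  · rw [coeff_sub, coeff_C, if_pos rfl, sub_self]

theorem polys_lower {K : Finset (Fin r →₀ ℕ)} (h0 : 0 ∈ K) {H : ℝ} (hH : 1 ≤ H) :
    ((Polys0 K H).ncard : ℝ) * (H ^ 2 / 4) ≤ (Polys K H).ncard := by
  classical
  have hH0 : 0 ≤ H := by linarith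
  have h1 : ((Polys0 K H) ×ˢ (Disc H)).ncard ≤ (Polys K H).ncard := by
    refine Set.ncard_le_ncard_of_injOn (fun x => x.1 + C x.2) ?_ ?_ (polys_fin K H hH0)
    · rintro ⟨P, u⟩ ⟨hP, hu⟩
      exact add_const h0 hP hu
    · rintro ⟨P, u⟩ ⟨hP, hu⟩ ⟨Q, v⟩ ⟨hQ, hv⟩ h
      dsimp only at h hP hQ
      have h2 : u = v := by
        have h3 := congrArg (coeff 0) h
        rw [coeff_add, coeff_add, coeff_C, coeff_C, if_pos rfl, if_pos rfl, hP.2, hQ.2, zero_add,
          zero_add] at h3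
        exact h3
      subst h2
      rw [add_left_injective _ h]
  rw [Set.ncard_prod] at h1
  have h2 : ((Polys0 K H).ncard : ℝ) * (Disc H).ncard ≤ (Polys K H).ncard := by exact_mod_cast h1
  refine le_trans (mul_le_mul_of_nonneg_left (le_disc H hH) (Nat.cast_nonneg _)) h2

theorem eval_bound {K : Finset (Fin r →₀ ℕ)} {d : ℕ} (hd : ∀ k ∈ K, ∑ i, k i ≤ d) {H T : ℝ}
    (hH : 0 ≤ H) (hT : 1 ≤ T) {P : MvPolynomial (Fin r) GaussianInt} (hP : P ∈ Polys K H)
    {t : Fin r → GaussianInt} (ht : ∀ i, ab (t i) ≤ T) : ab (eval t P) ≤ K.card * (H * T ^ d) := by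
  rw [eval_eq']
  refine (ab_sum _ _).trans ?_
  have h1 : ∀ k ∈ P.support, ab (P.coeff k * ∏ i, t i ^ k i) ≤ H * T ^ d := by
    intro k hk
    rw [ab_mul, ab_prod]
    refine mul_le_mul (hP.2 k) ?_ (Finset.prod_nonneg fun i _ => ab_nonneg _) hH
    calc ∏ i, ab (t i ^ k i) ≤ ∏ i, T ^ k i := by
          refine Finset.prod_le_prod (fun i _ => ab_nonneg _) fun i _ => ?_
          rw [ab_pow]
          exact pow_le_pow_left₀ (ab_nonneg _) (ht i) _
      _ = T ^ (∑ i, k i) := Finset.prod_pow_eq_pow_sum _ _ _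
      _ ≤ T ^ d := pow_le_pow_right₀ hT (hd k (hP.1 hk))
  refine (Finset.sum_le_sum h1).trans ?_
  rw [Finset.sum_const, nsmul_eq_mul]
  refine mul_le_mul_of_nonneg_right ?_ (mul_nonneg hH (pow_nonneg (by linarith) _))
  exact_mod_cast Finset.card_le_card hP.1

theorem bad_fin (K : Finset (Fin r →₀ ℕ)) (B lam H T : ℝ) (hH : 0 ≤ H) : (BadPairs K B lam H T).Finite :=
  ((polys_fin K H hH).prod (polys_fin K H hH)).subset fun _ hx => ⟨hx.1, hx.2.1⟩

theorem poly_count (B lam κ C0 : ℝ) (hC0 : 0 ≤ C0)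
    (hC : ∀ Y : ℝ, 1 ≤ Y → (Pairs B lam Y).Finite ∧ ((Pairs B lam Y).ncard : ℝ) ≤ C0 * Y ^ κ)
    (K : Finset (Fin r →₀ ℕ)) (h0 : 0 ∈ K) (d : ℕ) (hd : ∀ k ∈ K, ∑ i, k i ≤ d) (H T : ℝ)
    (hH : 1 ≤ H) (hT : 1 ≤ T) :
    ((BadPairs K B lam H T).ncard : ℝ) ≤
      C0 * (9 * T ^ 2) ^ r * (H + K.card * (H * T ^ d)) ^ κ * (16 / H ^ 4) * ((Polys K H).ncard : ℝ) ^ 2 := by
  classical
  have hH0 : 0 ≤ H := by linarith
  have hT0 : 0 ≤ T := by linarith
  set Y : ℝ := K.card * (H * T ^ d) with hY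
  have hY0 : 0 ≤ Y := mul_nonneg (Nat.cast_nonneg _) (mul_nonneg hH0 (pow_nonneg hT0 _))
  set E := (bad_fin K B lam H T hH0).toFinset with hE
  set F := (polys0_fin K H hH0).toFinset with hF
  set s : Finset (Fin r → GaussianInt) := Fintype.piFinset fun _ => (disc_fin T hT0).toFinset with hs
  have hscard : (s.card : ℝ) ≤ (9 * T ^ 2) ^ r := by
    rw [hs, Fintype.card_piFinset, Finset.prod_const, Finset.card_univ, Fintype.card_fin]
    push_cast
    refine pow_le_pow_left₀ (Nat.cast_nonneg _) ?_ _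
    rw [← Set.ncard_eq_toFinset_card _ (disc_fin T hT0)]
    exact disc_le T hT
  have hmem : ∀ t : Fin r → GaussianInt, t ∈ s ↔ ∀ i, ab (t i) ≤ T := by
    intro t
    rw [hs, Fintype.mem_piFinset]
    exact forall_congr' fun i => Set.Finite.mem_toFinset _
  set φ : MvPolynomial (Fin r) GaussianInt × MvPolynomial (Fin r) GaussianInt →
      MvPolynomial (Fin r) GaussianInt × MvPolynomial (Fin r) GaussianInt :=
    fun x => (x.1 - C (x.1.coeff 0), x.2 - C (x.2.coeff 0)) with hφ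
  have hmaps : ∀ x ∈ E, φ x ∈ F ×ˢ F := by
    intro x hx
    rw [hE, Set.Finite.mem_toFinset] at hx
    rw [Finset.mem_product, hF, Set.Finite.mem_toFinset, Set.Finite.mem_toFinset]
    exact ⟨sub_const hH0 hx.1, sub_const hH0 hx.2.1⟩
  have hcard := Finset.card_eq_sum_card_fiberwise hmaps
  have hfib : ∀ b ∈ F ×ˢ F, (((E.filter fun a => φ a = b).card : ℕ) : ℝ) ≤
      C0 * (9 * T ^ 2) ^ r * (H + Y) ^ κ := by
    rintro ⟨P1, Q1⟩ hb
    rw [Finset.mem_product, hF, Set.Finite.mem_toFinset, Set.Finite.mem_toFinset] at hb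
    obtain ⟨g1, g2⟩ := translates B lam κ C0 hC (Fin r → GaussianInt) s (fun t => eval t P1)
      (fun t => eval t Q1) H Y hH hY0
      (fun t ht => eval_bound hd hH0 hT hb.1.1 ((hmem t).1 ht))
      (fun t ht => eval_bound hd hH0 hT hb.2.1 ((hmem t).1 ht))
    have g3 : (E.filter fun a => φ a = (P1, Q1)).card ≤ {x : GaussianInt × GaussianInt | ab x.1 ≤ H ∧ ab x.2 ≤ H ∧
        ∃ t ∈ s, Bad B lam (x.1 + eval t P1) (x.2 + eval t Q1)}.ncard := by
      rw [← Set.ncard_coe_finset]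
      refine Set.ncard_le_ncard_of_injOn (fun x => (x.1.coeff 0, x.2.coeff 0)) ?_ ?_ g1
      · rintro ⟨P, Q⟩ hx
        rw [Finset.mem_coe, Finset.mem_filter, hE, Set.Finite.mem_toFinset] at hx
        obtain ⟨⟨a1, a2, t, a3, a4⟩, a5⟩ := hx
        rw [hφ] at a5
        simp only [Prod.mk.injEq] at a5
        refine ⟨a1.2 0, a2.2 0, t, (hmem t).2 a3, ?_⟩
        rw [← a5.1, ← a5.2]
        simp only [map_sub, eval_C, add_sub_cancel]
        exact a4
      · rintro ⟨P, Q⟩ hx ⟨P', Q'⟩ hx' h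
        rw [Finset.mem_coe, Finset.mem_filter] at hx hx'
        have a5 := hx.2
        have a6 := hx'.2
        rw [hφ] at a5 a6
        simp only [Prod.mk.injEq] at a5 a6 h
        have e1 : P = P' := by
          rw [← sub_add_cancel P (C (P.coeff 0)), a5.1, h.1, ← a6.1, sub_add_cancel]
        have e2 : Q = Q' := by
          rw [← sub_add_cancel Q (C (Q.coeff 0)), a5.2, h.2, ← a6.2, sub_add_cancel]
        rw [e1, e2]
    have g4 : (((E.filter fun a => φ a = (P1, Q1)).card : ℕ) : ℝ) ≤ C0 * s.card * (H + Y) ^ κ :=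
      le_trans (by exact_mod_cast g3) g2
    refine g4.trans ?_
    have g5 : 0 ≤ (H + Y) ^ κ := Real.rpow_nonneg (by linarith) _
    gcongr
  have h1 : (E.card : ℝ) ≤ (C0 * (9 * T ^ 2) ^ r * (H + Y) ^ κ) * ((F.card : ℝ) * F.card) := by
    rw [hcard]
    push_cast
    refine (Finset.sum_le_sum hfib).trans ?_
    rw [Finset.sum_const, nsmul_eq_mul, Finset.card_product]
    push_cast
    exact le_of_eq (by ring)
  have h2 : ((BadPairs K B lam H T).ncard : ℝ) = E.card := by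
    rw [Set.ncard_eq_toFinset_card _ (bad_fin K B lam H T hH0)]
  have h3 : ((Polys0 K H).ncard : ℝ) = F.card := by
    rw [Set.ncard_eq_toFinset_card _ (polys0_fin K H hH0)]
  have h4 := polys_lower h0 hH
  rw [h3] at h4
  rw [h2]
  refine h1.trans ?_
  have h5 : 0 ≤ C0 * (9 * T ^ 2) ^ r * (H + Y) ^ κ :=
    mul_nonneg (mul_nonneg hC0 (pow_nonneg (by positivity) _)) (Real.rpow_nonneg (by linarith) _)
  rw [mul_assoc _ (16 / H ^ 4)]
  refine mul_le_mul_of_nonneg_left ?_ h5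
  have h6 : (F.card : ℝ) ≤ 4 / H ^ 2 * (Polys K H).ncard := by
    rw [div_mul_eq_mul_div, le_div_iff₀ (by positivity)]
    linarith
  calc (F.card : ℝ) * F.card ≤ (4 / H ^ 2 * (Polys K H).ncard) * (4 / H ^ 2 * (Polys K H).ncard) :=
        mul_le_mul h6 h6 (Nat.cast_nonneg _) (by positivity)
    _ = 16 / H ^ 4 * ((Polys K H).ncard : ℝ) ^ 2 := by
        field_simp
        ring

end Pool.Agent.T6.H40.RP
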