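import Pool.Agent.T6.H40.RP.Fib
import Pool.Agent.T6.H40.RP.Poly

set_option autoImplicit false

namespace Pool.Agent.T6.H40.RP

open Classical in
/-- from the solutions of a linear equation in some of the variables to all variables -/
theorem lift_fib {κ : Type} [Fintype κ] [DecidableEq κ] (H : ℝ) (w : κ → GaussianInt) (m : ℕ) (ι : Fin (m + 1) → κ)
    (hι : Function.Injective ι) (N : ℝ)
    (hN : ∀ a : GaussianInt, (((Fintype.piFinset fun _ : Fin (m + 1) => DF H).filter
      fun c => ∑ j : Fin (m + 1), c j * w (ι j) = a).card : ℝ) ≤ N) (a : GaussianInt) :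
    (((Fintype.piFinset fun _ : κ => DF H).filter fun c => ∑ k, c k * w k = a).card : ℝ) *
      ((DF H).card : ℝ) ^ (m + 1) ≤ N * ((DF H).card : ℝ) ^ (Fintype.card κ) := by
  set s := (Fintype.piFinset fun _ : κ => DF H).filter fun c => ∑ k, c k * w k = a with hs
  set I : Finset κ := Finset.univ.image ι with hI
  set Φ : (κ → GaussianInt) → ({k // k ∈ Iᶜ} → GaussianInt) := fun c k => c k.1 with hΦ
  have hIcard : I.card = m + 1 := by
    rw [hI, Finset.card_image_of_injective _ hι, Finset.card_univ, Fintype.card_fin]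
  have hcard : Fintype.card {k // k ∈ Iᶜ} + (m + 1) = Fintype.card κ := by
    rw [Fintype.card_coe, ← hIcard]
    exact Finset.card_compl_add_card I
  have hsum : ∀ c : κ → GaussianInt, ∑ k, c k * w k =
      ∑ j : Fin (m + 1), c (ι j) * w (ι j) + ∑ k : {k // k ∈ Iᶜ}, Φ c k * w k.1 := by
    intro c
    rw [← Finset.sum_add_sum_compl I (fun k => c k * w k)]
    congr 1
    · rw [hI, Finset.sum_image fun x _ y _ h => hι h]
    · exact (Finset.sum_coe_sort Iᶜ (fun k => c k * w k)).symm
  have h1 : (s.card : ℝ) ≤ N * ((DF H).card : ℝ) ^ Fintype.card {k // k ∈ Iᶜ} := by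
    rw [Finset.card_eq_sum_card_image Φ s]
    push_cast
    have hfib : ∀ b ∈ s.image Φ, ((s.filter fun c => Φ c = b).card : ℝ) ≤ N := by
      intro b _
      refine le_trans ?_ (hN (a - ∑ k : {k // k ∈ Iᶜ}, b k * w k.1))
      have h2 : (s.filter fun c => Φ c = b).card ≤ ((Fintype.piFinset fun _ : Fin (m + 1) => DF H).filter
          fun c => ∑ j : Fin (m + 1), c j * w (ι j) =
            a - ∑ k : {k // k ∈ Iᶜ}, b k * w k.1).card := by
        refine Finset.card_le_card_of_injOn (fun c j => c (ι j)) ?_ ?_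
        · intro c hc
          have h2 := Finset.mem_filter.1 hc
          have h3 := Finset.mem_filter.1 h2.1
          refine Finset.mem_coe.2 (Finset.mem_filter.2
            ⟨Fintype.mem_piFinset.2 fun j => Fintype.mem_piFinset.1 h3.1 (ι j), ?_⟩)
          rw [← h3.2, hsum, ← h2.2, add_sub_cancel_right]
        · intro c hc c' hc' h
          have h2 := (Finset.mem_filter.1 hc).2
          have h3 := (Finset.mem_filter.1 hc').2
          funext k
          by_cases hk : k ∈ I
          · obtain ⟨j, -, rfl⟩ := Finset.mem_image.1 hk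
            exact congrFun h j
          · rw [← Finset.mem_compl] at hk
            exact (congrFun h2 ⟨k, hk⟩).trans (congrFun h3 ⟨k, hk⟩).symm
      exact_mod_cast h2
    refine (Finset.sum_le_sum hfib).trans ?_
    rw [Finset.sum_const, nsmul_eq_mul, mul_comm]
    have hN0 : 0 ≤ N := le_trans (Nat.cast_nonneg _) (hN 0)
    refine mul_le_mul_of_nonneg_left ?_ hN0
    have h3 : (s.image Φ).card ≤ (DF H).card ^ Fintype.card {k // k ∈ Iᶜ} := by
      have h4 : s.image Φ ⊆ Fintype.piFinset fun _ : {k // k ∈ Iᶜ} => DF H := by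
        intro b hb
        obtain ⟨c, hc, rfl⟩ := Finset.mem_image.1 hb
        exact Fintype.mem_piFinset.2 fun k => Fintype.mem_piFinset.1 (Finset.mem_filter.1 hc).1 k.1
      refine (Finset.card_le_card h4).trans ?_
      rw [Fintype.card_piFinset, Finset.prod_const, Finset.card_univ]
    exact_mod_cast h3
  calc (s.card : ℝ) * ((DF H).card : ℝ) ^ (m + 1)
      ≤ (N * ((DF H).card : ℝ) ^ Fintype.card {k // k ∈ Iᶜ}) * ((DF H).card : ℝ) ^ (m + 1) :=
        mul_le_mul_of_nonneg_right h1 (by positivity)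
    _ = N * ((DF H).card : ℝ) ^ (Fintype.card κ) := by
        rw [mul_assoc, ← pow_add, hcard]

variable {r : ℕ}

/-- the value of a monomial -/
noncomputable def mon (t : Fin r → GaussianInt) (k : Fin r →₀ ℕ) : GaussianInt := ∏ i, t i ^ k i

/-- the polynomial with given coefficients -/
noncomputable def toPoly (K : Finset (Fin r →₀ ℕ)) (c : K → GaussianInt) : MvPolynomial (Fin r) GaussianInt :=
  ∑ k : K, MvPolynomial.monomial k.1 (c k)

theorem coeff_toPoly (K : Finset (Fin r →₀ ℕ)) (c : K → GaussianInt) (k : K) : (toPoly K c).coeff k.1 = c k := by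
  classical
  rw [toPoly, MvPolynomial.coeff_sum]
  rw [Finset.sum_eq_single k]
  · rw [MvPolynomial.coeff_monomial, if_pos rfl]
  · intro b _ hb
    rw [MvPolynomial.coeff_monomial, if_neg fun h => hb (Subtype.ext h)]
  · intro h
    exact absurd (Finset.mem_univ k) h

theorem coeff_toPoly_not (K : Finset (Fin r →₀ ℕ)) (c : K → GaussianInt) {k : Fin r →₀ ℕ} (hk : k ∉ K) :
    (toPoly K c).coeff k = 0 := by
  classical
  rw [toPoly, MvPolynomial.coeff_sum]
  refine Finset.sum_eq_zero fun b _ => ?_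
  rw [MvPolynomial.coeff_monomial, if_neg (fun h : (b : Fin r →₀ ℕ) = k => hk (h ▸ b.2))]

theorem toPoly_mem {K : Finset (Fin r →₀ ℕ)} {H : ℝ} (hH : 0 ≤ H) {c : K → GaussianInt} (hc : ∀ k, ab (c k) ≤ H) :
    toPoly K c ∈ Polys K H := by
  refine ⟨fun k hk => ?_, fun k => ?_⟩
  · by_contra h
    exact MvPolynomial.mem_support_iff.1 hk (coeff_toPoly_not K c h)
  · by_cases hk : k ∈ K
    · have := coeff_toPoly K c ⟨k, hk⟩
      dsimp only at this
      rw [this]
      exact hc _
    · rw [coeff_toPoly_not K c hk, ab_zero]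
      exact hH

theorem toPoly_coeff {K : Finset (Fin r →₀ ℕ)} {P : MvPolynomial (Fin r) GaussianInt} (hP : P.support ⊆ K) :
    toPoly K (fun k => P.coeff k.1) = P := by
  apply MvPolynomial.ext
  intro k
  by_cases hk : k ∈ K
  · exact coeff_toPoly K (fun k => P.coeff k.1) ⟨k, hk⟩
  · rw [coeff_toPoly_not K _ hk, MvPolynomial.notMem_support_iff.1 fun h => hk (hP h)]

theorem eval_toPoly (K : Finset (Fin r →₀ ℕ)) (c : K → GaussianInt) (t : Fin r → GaussianInt) :
    MvPolynomial.eval t (toPoly K c) = ∑ k : K, c k * mon t k.1 := by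
  rw [toPoly, map_sum]
  refine Finset.sum_congr rfl fun k _ => ?_
  rw [MvPolynomial.eval_monomial, mon, Finsupp.prod_fintype _ _ fun i => pow_zero _]

theorem ncard_polys (K : Finset (Fin r →₀ ℕ)) (H : ℝ) (hH : 0 ≤ H) :
    (Polys K H).ncard = (DF H).card ^ K.card := by
  classical
  have h1 : (Polys K H) = (toPoly K) '' ((Fintype.piFinset fun _ : K => DF H) : Finset (K → GaussianInt)) := by
    ext P
    constructor
    · intro hP
      exact ⟨fun k => P.coeff k.1, Finset.mem_coe.2 (Fintype.mem_piFinset.2 fun k => mem_DF.2 (hP.2 _)),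
        toPoly_coeff hP.1⟩
    · rintro ⟨c, hc, rfl⟩
      exact toPoly_mem hH fun k => mem_DF.1 (Fintype.mem_piFinset.1 (Finset.mem_coe.1 hc) k)
  have hinj : Function.Injective (toPoly K) := by
    intro c c' h
    funext k
    rw [← coeff_toPoly K c k, h, coeff_toPoly]
  rw [h1, Set.ncard_image_of_injective _ hinj, Set.ncard_coe_finset, Fintype.card_piFinset, Finset.prod_const,
    Finset.card_univ, Fintype.card_coe]

open Classical in
theorem ncard_fib (K : Finset (Fin r →₀ ℕ)) (H : ℝ) (t : Fin r → GaussianInt) (a : GaussianInt) :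
    {P | P ∈ Polys K H ∧ MvPolynomial.eval t P = a}.ncard ≤
      ((Fintype.piFinset fun _ : K => DF H).filter fun c => ∑ k : K, c k * mon t k.1 = a).card := by
  rw [← Set.ncard_coe_finset]
  refine Set.ncard_le_ncard_of_injOn (fun P => fun k : K => P.coeff k.1) ?_ ?_ (Finset.finite_toSet _)
  · rintro P ⟨hP, hPa⟩
    refine Finset.mem_coe.2 (Finset.mem_filter.2 ⟨Fintype.mem_piFinset.2 fun k => mem_DF.2 (hP.2 _), ?_⟩)
    rw [← eval_toPoly, toPoly_coeff hP.1, hPa]
  · rintro P ⟨hP, -⟩ Q ⟨hQ, -⟩ h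
    dsimp only at h
    rw [← toPoly_coeff hP.1, h, toPoly_coeff hQ.1]

/-- the number of polynomials with a given value -/
theorem fib_bound (K : Finset (Fin r →₀ ℕ)) (H : ℝ) (hH : 1 ≤ H) (t : Fin r → GaussianInt) (m : ℕ)
    (ι : Fin (m + 1) → K) (hι : Function.Injective ι) (x y : GaussianInt) (hx : x ≠ 0) (hxy : IsCoprime x y)
    (hw : ∀ j, mon t (ι j).1 = x ^ (j : ℕ) * y ^ (m - (j : ℕ))) (a : GaussianInt) :
    ({P | P ∈ Polys K H ∧ MvPolynomial.eval t P = a}.ncard : ℝ) ≤
      (36 * (1 + H / ab x) ^ 2) ^ m * (4 / H ^ 2) ^ (m + 1) * (Polys K H).ncard := by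
  classical
  have h1 := lift_fib H (fun k : K => mon t k.1) m ι hι ((36 * (1 + H / ab x) ^ 2) ^ m) (fun a => by
    have := uni H x y hx hxy m a
    simpa only [hw] using this) a
  rw [Fintype.card_coe] at h1
  have h2 : ((Polys K H).ncard : ℝ) = ((DF H).card : ℝ) ^ K.card := by
    rw [ncard_polys K H (by linarith)]
    push_cast
    rfl
  have h3 : ({P | P ∈ Polys K H ∧ MvPolynomial.eval t P = a}.ncard : ℝ) ≤
      (((Fintype.piFinset fun _ : K => DF H).filter fun c => ∑ k : K, c k * mon t k.1 = a).card : ℝ) := by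
    exact_mod_cast ncard_fib K H t a
  have h4 : (H ^ 2 / 4) ^ (m + 1) ≤ ((DF H).card : ℝ) ^ (m + 1) :=
    pow_le_pow_left₀ (by positivity) (le_card_DF hH) _
  have h5 : ({P | P ∈ Polys K H ∧ MvPolynomial.eval t P = a}.ncard : ℝ) * (H ^ 2 / 4) ^ (m + 1) ≤
      (36 * (1 + H / ab x) ^ 2) ^ m * (Polys K H).ncard := by
    rw [h2]
    refine le_trans ?_ h1
    exact mul_le_mul h3 h4 (by positivity) (Nat.cast_nonneg _)
  have h6 : (4 / H ^ 2) ^ (m + 1) * (H ^ 2 / 4) ^ (m + 1) = 1 := by
    rw [← mul_pow, div_mul_div_comm, mul_comm, div_self (by positivity), one_pow]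
  calc ({P | P ∈ Polys K H ∧ MvPolynomial.eval t P = a}.ncard : ℝ)
      = ({P | P ∈ Polys K H ∧ MvPolynomial.eval t P = a}.ncard : ℝ) * (H ^ 2 / 4) ^ (m + 1) *
        (4 / H ^ 2) ^ (m + 1) := by
        rw [mul_assoc, mul_comm ((H ^ 2 / 4) ^ (m + 1)), h6, mul_one]
    _ ≤ (36 * (1 + H / ab x) ^ 2) ^ m * (Polys K H).ncard * (4 / H ^ 2) ^ (m + 1) :=
        mul_le_mul_of_nonneg_right h5 (by positivity)
    _ = (36 * (1 + H / ab x) ^ 2) ^ m * (4 / H ^ 2) ^ (m + 1) * (Polys K H).ncard := by ring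

end Pool.Agent.T6.H40.RP
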