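import Pool.Agent.T6.H40.RP.Base
import Pool.Agent.T6.H40.RP.Disc

set_option autoImplicit false

namespace Pool.Agent.T6.H40.RP

open MeasureTheory

/-- the indices for which a violation is in the window -/
def Hits {ι : Type} (g p q : ι → ℂ) (w : ι → ℝ) (B lam : ℝ) (x : ℂ × ℂ) : Set ι :=
  {t | ∃ a b : GaussianInt, ‖GaussianInt.toComplex a - (x.1 * g t + p t)‖ ≤ w t ∧
    ‖GaussianInt.toComplex b - (x.2 * g t + q t)‖ ≤ w t ∧ Bad B lam a b}

theorem metric (lam ε : ℝ) (hlam : 0 < lam) (hε : 0 < ε)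
    (hall : ∀ B : ℝ, ∃ C : ℝ, 0 ≤ C ∧
      ∀ Y : ℝ, 1 ≤ Y → (Pairs B lam Y).Finite ∧ ((Pairs B lam Y).ncard : ℝ) ≤ C * Y ^ (expo lam + ε))
    {ι : Type} [Countable ι] (g p q : ι → ℂ) (w : ι → ℝ) (hg : ∀ t, g t ≠ 0) (hw : ∀ t, 0 ≤ w t)
    (hs : Summable fun t => (w t / ‖g t‖) ^ 4 * (1 + ‖g t‖ + ‖p t‖ + ‖q t‖ + w t) ^ (expo lam + ε)) :
    ∀ᵐ x : ℂ × ℂ, ∀ B : ℝ, (Hits g p q w B lam x).Finite := by
  classical
  have he := expo_nonneg hlam
  have hκ : 0 ≤ expo lam + ε := by linarith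
  have key : ∀ N R : ℕ, ∀ᵐ x : ℂ × ℂ, {t | ‖x.1‖ ≤ R ∧ ‖x.2‖ ≤ R ∧ t ∈ Hits g p q w N lam x}.Finite := by
    intro N R
    obtain ⟨C, hC0, hC⟩ := hall N
    set Y : ι → ℝ := fun t => (R + 1) * (1 + ‖g t‖ + ‖p t‖ + ‖q t‖ + w t) with hY
    have hR0 : (0 : ℝ) ≤ R := Nat.cast_nonneg _
    have hbase : ∀ t, 1 ≤ 1 + ‖g t‖ + ‖p t‖ + ‖q t‖ + w t := fun t => by
      have h1 := norm_nonneg (g t)
      have h2 := norm_nonneg (p t)
      have h3 := norm_nonneg (q t)
      have h4 := hw t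
      linarith
    have hY1 : ∀ t, 1 ≤ Y t := fun t => by
      have := hbase t
      simp only [hY]
      nlinarith
    set A : ι → Set (ℂ × ℂ) := fun t => {x | ‖x.1‖ ≤ R ∧ ‖x.2‖ ≤ R ∧ t ∈ Hits g p q w N lam x} with hA
    set c : ι → ℝ := fun t => C * Y t ^ (expo lam + ε) * ((w t / ‖g t‖) ^ 4 * Real.pi ^ 2) with hc
    have hvol : ∀ t, volume (A t) ≤ ENNReal.ofReal (c t) := by
      intro t
      obtain ⟨h1, h2⟩ := hC (Y t) (hY1 t)
      have hg0 : 0 < ‖g t‖ := norm_pos_iff.2 (hg t)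
      have hsub : A t ⊆ ⋃ y ∈ h1.toFinset,
          Metric.closedBall ((GaussianInt.toComplex y.1 - p t) / g t) (w t / ‖g t‖) ×ˢ
          Metric.closedBall ((GaussianInt.toComplex y.2 - q t) / g t) (w t / ‖g t‖) := by
        rintro ⟨x1, x2⟩ ⟨g1, g2, a, b, g3, g4, g5⟩
        dsimp only at g1 g2 g3 g4
        have hab : ∀ (u v z : ℂ) (m : ℝ), ‖u‖ ≤ R → ‖z - (u * g t + v)‖ ≤ m → ‖z‖ ≤ R * ‖g t‖ + ‖v‖ + m := by
          intro u v z m hu hz
          have e : z = (z - (u * g t + v)) + (u * g t + v) := by ring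
          have i1 : ‖z‖ ≤ ‖z - (u * g t + v)‖ + ‖u * g t + v‖ := by
            conv_lhs => rw [e]
            exact norm_add_le _ _
          have i2 := norm_add_le (u * g t) v
          rw [norm_mul] at i2
          have i3 := mul_le_mul_of_nonneg_right hu (norm_nonneg (g t))
          linarith
        have k1 := hab x1 (p t) _ _ g1 g3
        have k2 := hab x2 (q t) _ _ g2 g4
        have hp := norm_nonneg (p t)
        have hq := norm_nonneg (q t)
        have hwt := hw t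
        have hYt : R * ‖g t‖ + ‖p t‖ + ‖q t‖ + w t ≤ Y t := by
          simp only [hY]
          nlinarith [mul_nonneg hR0 hp, mul_nonneg hR0 hq, mul_nonneg hR0 hwt]
        rw [Set.mem_iUnion₂]
        refine ⟨(a, b), ?_, ?_⟩
        · rw [Set.Finite.mem_toFinset]
          refine ⟨g5, ?_, ?_⟩
          · show ‖GaussianInt.toComplex a‖ ≤ Y t
            linarith
          · show ‖GaussianInt.toComplex b‖ ≤ Y t
            linarith
        · have hdiv : ∀ (u v z : ℂ), ‖z - (u * g t + v)‖ ≤ w t →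
              u ∈ Metric.closedBall ((z - v) / g t) (w t / ‖g t‖) := by
            intro u v z hz
            rw [Metric.mem_closedBall, dist_comm, dist_eq_norm]
            have e : (z - v) / g t - u = (z - (u * g t + v)) / g t := by
              field_simp [hg t]
              ring
            rw [e, norm_div]
            gcongr
          exact ⟨hdiv _ _ _ g3, hdiv _ _ _ g4⟩
      refine (measure_mono hsub).trans ((measure_biUnion_finset_le _ _).trans ?_)
      have hball : ∀ y : GaussianInt × GaussianInt,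
          volume (Metric.closedBall ((GaussianInt.toComplex y.1 - p t) / g t) (w t / ‖g t‖) ×ˢ
          Metric.closedBall ((GaussianInt.toComplex y.2 - q t) / g t) (w t / ‖g t‖)) =
          ENNReal.ofReal ((w t / ‖g t‖) ^ 4 * Real.pi ^ 2) := by
        intro y
        rw [Measure.volume_eq_prod, Measure.prod_prod, Complex.volume_closedBall, Complex.volume_closedBall]
        have hwg : 0 ≤ w t / ‖g t‖ := div_nonneg (hw t) hg0.le
        have e1 : (NNReal.pi : ENNReal) = ENNReal.ofReal Real.pi := by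
          rw [ENNReal.ofReal, ← NNReal.coe_real_pi, Real.toNNReal_coe]
        rw [e1, ← ENNReal.ofReal_pow hwg, ← ENNReal.ofReal_mul (by positivity),
          ← ENNReal.ofReal_mul (by positivity)]
        congr 1
        ring
      rw [Finset.sum_congr rfl fun y _ => hball y, Finset.sum_const, nsmul_eq_mul]
      have hnn : 0 ≤ (w t / ‖g t‖) ^ 4 * Real.pi ^ 2 := by positivity
      rw [← ENNReal.ofReal_natCast, ← ENNReal.ofReal_mul (Nat.cast_nonneg _)]
      apply ENNReal.ofReal_le_ofReal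
      refine mul_le_mul_of_nonneg_right ?_ hnn
      rw [← Set.ncard_eq_toFinset_card _ h1]
      exact h2
    have hsum : Summable c := by
      have h1 := hs.mul_left (C * (R + 1) ^ (expo lam + ε) * Real.pi ^ 2)
      refine h1.congr fun t => ?_
      simp only [hc, hY]
      rw [Real.mul_rpow (by linarith) (by linarith [hbase t])]
      ring
    have hfin : ∑' t, volume (A t) ≠ ⊤ :=
      ne_top_of_le_ne_top hsum.tsum_ofReal_ne_top (ENNReal.tsum_le_tsum hvol)
    exact ae_finite_setOfPred_mem hfin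
  have key2 : ∀ᵐ x : ℂ × ℂ, ∀ N R : ℕ, {t | ‖x.1‖ ≤ R ∧ ‖x.2‖ ≤ R ∧ t ∈ Hits g p q w N lam x}.Finite :=
    ae_all_iff.2 fun N => ae_all_iff.2 fun R => key N R
  filter_upwards [key2] with x hx
  intro B
  refine (hx ⌈B⌉₊ ⌈max ‖x.1‖ ‖x.2‖⌉₊).subset ?_
  rintro t ⟨a, b, g3, g4, g5⟩
  have h1 := Nat.le_ceil (max ‖x.1‖ ‖x.2‖)
  exact ⟨(le_max_left _ _).trans h1, (le_max_right _ _).trans h1, a, b, g3, g4,
    bad_mono (Nat.le_ceil B) g5⟩

theorem summable_gi {s : ℝ} (hs : 2 < s) : Summable fun z : {z : GaussianInt // z ≠ 0} => ab z.1 ^ (-s) := by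
  have h1 := EisensteinSeries.summable_one_div_norm_rpow hs
  have hinj : Function.Injective fun z : {z : GaussianInt // z ≠ 0} => (![z.1.re, z.1.im] : Fin 2 → ℤ) := by
    rintro ⟨z, hz⟩ ⟨z', hz'⟩ h
    have e1 := congrFun h 0
    have e2 := congrFun h 1
    simp only [Matrix.cons_val_zero, Matrix.cons_val_one] at e1 e2
    exact Subtype.ext (Zsqrtd.ext e1 e2)
  have h2 := h1.comp_injective hinj
  refine Summable.of_nonneg_of_le (fun z => Real.rpow_nonneg (ab_nonneg _) _) (fun z => ?_) h2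
  have h3 : ‖(![z.1.re, z.1.im] : Fin 2 → ℤ)‖ ≤ ab z.1 := by
    rw [pi_norm_le_iff_of_nonneg (ab_nonneg _)]
    intro i
    fin_cases i
    · show ‖z.1.re‖ ≤ _
      rw [Int.norm_eq_abs]
      exact re_le_ab _
    · show ‖z.1.im‖ ≤ _
      rw [Int.norm_eq_abs]
      exact im_le_ab _
  have h4 : 0 < ‖(![z.1.re, z.1.im] : Fin 2 → ℤ)‖ := by
    rw [norm_pos_iff]
    intro h
    apply z.2
    have e1 := congrFun h 0
    have e2 := congrFun h 1
    exact Zsqrtd.ext e1 e2
  exact Real.rpow_le_rpow_of_nonpos h4 h3 (by linarith)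

end Pool.Agent.T6.H40.RP
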