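import Pool.Agent.T6.H40.RP.Metric
import Pool.Agent.T6.H40.RP.Haus

set_option autoImplicit false

namespace Pool.Agent.T6.H40.RP

open MeasureTheory Filter Topology ENNReal

theorem cover {ι : Type} (g p q : ι → ℂ) (w : ι → ℝ) (hg : ∀ t, g t ≠ 0) (hw : ∀ t, 0 ≤ w t) (B lam R : ℝ)
    (hR0 : 0 ≤ R) (t : ι) (h1 : (Pairs B lam ((R + 1) * (1 + ‖g t‖ + ‖p t‖ + ‖q t‖ + w t))).Finite) :
    {x : ℂ × ℂ | ‖x.1‖ ≤ R ∧ ‖x.2‖ ≤ R ∧ t ∈ Hits g p q w B lam x} ⊆ ⋃ y ∈ h1.toFinset,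
      Metric.closedBall (((GaussianInt.toComplex y.1 - p t) / g t, (GaussianInt.toComplex y.2 - q t) / g t) : ℂ × ℂ)
        (w t / ‖g t‖) := by
  have hg0 : 0 < ‖g t‖ := norm_pos_iff.2 (hg t)
  rintro ⟨x1, x2⟩ ⟨g1, g2, a, b, g3, g4, g5⟩
  dsimp only at g1 g2 g3 g4
  have hab : ∀ (u v z : ℂ) (m : ℝ), ‖u‖ ≤ R → ‖z - (u * g t + v)‖ ≤ m → ‖z‖ ≤ R * ‖g t‖ + ‖v‖ + m := by
    intro u v z m hu hz
    have e : z = (z - (u * g t + v)) + (u * g t + v) := by ring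
    have i1 : ‖z‖ ≤ ‖z - (u * g t + v)‖ + ‖u * g t + v‖ := by
      conv_lhs => rw [e]
      exact norm_add_le _ _
    have i2 := norm_add_le (u * g t) v
    rw [norm_mul] at i2
    have i3 := mul_le_mul_of_nonneg_right hu (norm_nonneg (g t))
    linarith
  have k1 := hab x1 (p t) _ _ g1 g3
  have k2 := hab x2 (q t) _ _ g2 g4
  have hp := norm_nonneg (p t)
  have hq := norm_nonneg (q t)
  have hwt := hw t
  have hYt : R * ‖g t‖ + ‖p t‖ + ‖q t‖ + w t ≤ (R + 1) * (1 + ‖g t‖ + ‖p t‖ + ‖q t‖ + w t) := by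
    nlinarith [mul_nonneg hR0 hp, mul_nonneg hR0 hq, mul_nonneg hR0 hwt]
  rw [Set.mem_iUnion₂]
  refine ⟨(a, b), ?_, ?_⟩
  · rw [Set.Finite.mem_toFinset]
    refine ⟨g5, ?_, ?_⟩
    · show ‖GaussianInt.toComplex a‖ ≤ _
      linarith
    · show ‖GaussianInt.toComplex b‖ ≤ _
      linarith
  · have hdiv : ∀ (u v z : ℂ), ‖z - (u * g t + v)‖ ≤ w t →
        u ∈ Metric.closedBall ((z - v) / g t) (w t / ‖g t‖) := by
      intro u v z hz
      rw [Metric.mem_closedBall, dist_comm, dist_eq_norm]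
      have e : (z - v) / g t - u = (z - (u * g t + v)) / g t := by
        field_simp [hg t]
        ring
      rw [e, norm_div]
      gcongr
    rw [← closedBall_prod_same]
    exact ⟨hdiv _ _ _ g3, hdiv _ _ _ g4⟩

theorem metric_haus (lam ε s : ℝ) (hlam : 0 < lam) (hε : 0 < ε) (hs0 : 0 < s)
    (hall : ∀ B : ℝ, ∃ C : ℝ, 0 ≤ C ∧
      ∀ Y : ℝ, 1 ≤ Y → (Pairs B lam Y).Finite ∧ ((Pairs B lam Y).ncard : ℝ) ≤ C * Y ^ (expo lam + ε))
    {ι : Type} [Countable ι] (g p q : ι → ℂ) (w : ι → ℝ) (hg : ∀ t, g t ≠ 0) (hw : ∀ t, 0 ≤ w t)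
    (hs : Summable fun t => (w t / ‖g t‖) ^ s * (1 + ‖g t‖ + ‖p t‖ + ‖q t‖ + w t) ^ (expo lam + ε)) :
    Measure.hausdorffMeasure s {x : ℂ × ℂ | ∃ B : ℝ, (Hits g p q w B lam x).Infinite} = 0 := by
  classical
  have he := expo_nonneg hlam
  have hκ : 0 ≤ expo lam + ε := by linarith
  have key : ∀ N R : ℕ, Measure.hausdorffMeasure s {x : ℂ × ℂ |
      {t | x ∈ {x : ℂ × ℂ | ‖x.1‖ ≤ R ∧ ‖x.2‖ ≤ R ∧ t ∈ Hits g p q w N lam x}}.Infinite} = 0 := by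
    intro N R
    obtain ⟨C, hC0, hC⟩ := hall N
    set Y : ι → ℝ := fun t => (R + 1) * (1 + ‖g t‖ + ‖p t‖ + ‖q t‖ + w t) with hY
    have hR0 : (0 : ℝ) ≤ R := Nat.cast_nonneg _
    have hbase : ∀ t, 1 ≤ 1 + ‖g t‖ + ‖p t‖ + ‖q t‖ + w t := fun t => by
      have h1 := norm_nonneg (g t)
      have h2 := norm_nonneg (p t)
      have h3 := norm_nonneg (q t)
      have h4 := hw t
      linarith
    have hY1 : ∀ t, 1 ≤ Y t := fun t => by
      have := hbase t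
      simp only [hY]
      nlinarith
    refine hausdorff_limsup s hs0 (fun t => {x : ℂ × ℂ | ‖x.1‖ ≤ R ∧ ‖x.2‖ ≤ R ∧ t ∈ Hits g p q w N lam x})
      (fun t => (hC (Y t) (hY1 t)).1.toFinset)
      (fun t y => Metric.closedBall (((GaussianInt.toComplex y.1 - p t) / g t,
        (GaussianInt.toComplex y.2 - q t) / g t) : ℂ × ℂ) (w t / ‖g t‖))
      (fun t => ENNReal.ofReal (2 * (w t / ‖g t‖)))
      (fun t => cover g p q w hg hw N lam R hR0 t _) (fun t y _ => ?_) ?_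
    · have hnn : 0 ≤ w t / ‖g t‖ := div_nonneg (hw t) (norm_nonneg _)
      have h1 : Metric.closedBall (((GaussianInt.toComplex y.1 - p t) / g t,
        (GaussianInt.toComplex y.2 - q t) / g t) : ℂ × ℂ) (w t / ‖g t‖) =
        Metric.closedEBall (((GaussianInt.toComplex y.1 - p t) / g t,
        (GaussianInt.toComplex y.2 - q t) / g t) : ℂ × ℂ) (ENNReal.ofReal (w t / ‖g t‖)) :=
        (Metric.closedEBall_ofReal hnn).symm
      rw [h1]
      refine Metric.ediam_closedEBall_le.trans (le_of_eq ?_)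
      rw [ENNReal.ofReal_mul (by norm_num), ENNReal.ofReal_ofNat]
    · have hsum : Summable fun t => C * Y t ^ (expo lam + ε) * (2 * (w t / ‖g t‖)) ^ s := by
        have h1 := hs.mul_left (C * (R + 1) ^ (expo lam + ε) * 2 ^ s)
        refine h1.congr fun t => ?_
        simp only [hY]
        rw [Real.mul_rpow (by linarith) (by linarith [hbase t]),
          Real.mul_rpow (by norm_num) (div_nonneg (hw t) (norm_nonneg _))]
        ring
      refine ne_top_of_le_ne_top hsum.tsum_ofReal_ne_top (ENNReal.tsum_le_tsum fun t => ?_)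
      have hnn : 0 ≤ 2 * (w t / ‖g t‖) := mul_nonneg (by norm_num) (div_nonneg (hw t) (norm_nonneg _))
      rw [ENNReal.ofReal_rpow_of_nonneg hnn hs0.le, ← ENNReal.ofReal_natCast,
        ← ENNReal.ofReal_mul (Nat.cast_nonneg _)]
      apply ENNReal.ofReal_le_ofReal
      refine mul_le_mul_of_nonneg_right ?_ (Real.rpow_nonneg hnn _)
      rw [← Set.ncard_eq_toFinset_card _ (hC (Y t) (hY1 t)).1]
      exact (hC (Y t) (hY1 t)).2
  refine measure_mono_null (t := ⋃ N : ℕ, ⋃ R : ℕ, {x : ℂ × ℂ |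
      {t | x ∈ {x : ℂ × ℂ | ‖x.1‖ ≤ R ∧ ‖x.2‖ ≤ R ∧ t ∈ Hits g p q w N lam x}}.Infinite}) ?_
      (measure_iUnion_null fun N => measure_iUnion_null fun R => key N R)
  rintro x ⟨B, hx⟩
  rw [Set.mem_iUnion₂]
  refine ⟨⌈B⌉₊, ⌈max ‖x.1‖ ‖x.2‖⌉₊, hx.mono ?_⟩
  rintro t ⟨a, b, g3, g4, g5⟩
  have h1 := Nat.le_ceil (max ‖x.1‖ ‖x.2‖)
  exact ⟨(le_max_left _ _).trans h1, (le_max_right _ _).trans h1, a, b, g3, g4,
    bad_mono (Nat.le_ceil B) g5⟩

end Pool.Agent.T6.H40.RP
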