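import Pool.Agent.T6.H40.RP.Poly

set_option autoImplicit false

namespace Pool.Agent.T6.H40.RP

theorem poly_main (hall : ∀ B lam ε : ℝ, 0 < lam → 0 < ε → ∃ C : ℝ, 0 ≤ C ∧
      ∀ Y : ℝ, 1 ≤ Y → (Pairs B lam Y).Finite ∧ ((Pairs B lam Y).ncard : ℝ) ≤ C * Y ^ (expo lam + ε))
    (r d : ℕ) (K : Finset (Fin r →₀ ℕ)) (h0 : 0 ∈ K) (hd : ∀ k ∈ K, ∑ i, k i ≤ d) (B lam θ : ℝ)
    (hlam : 0 < lam) (hθ : 0 ≤ θ) (hθ1 : θ * (2 * r + d * expo lam) < 4 - expo lam) :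
    ∃ ν : ℝ, 0 < ν ∧ ∃ H₀ : ℝ, ∀ H : ℝ, H₀ ≤ H →
      ((BadPairs K B lam H (H ^ θ)).ncard : ℝ) ≤ H ^ (-ν) * ((Polys K H).ncard : ℝ) ^ 2 := by
  have he := expo_nonneg hlam
  set e := expo lam with he'
  set δ : ℝ := 4 - e - θ * (2 * r + d * e) with hδ
  have hδ0 : 0 < δ := by linarith
  have hdθ : (0 : ℝ) ≤ d * θ := mul_nonneg (Nat.cast_nonneg _) hθ
  set ε : ℝ := δ / (2 * (1 + d * θ)) with hε
  have hε0 : 0 < ε := by positivity
  have hε1 : ε * (1 + d * θ) = δ / 2 := by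
    rw [hε]
    field_simp
  obtain ⟨C, hC0, hC⟩ := hall B lam ε hlam hε0
  set M : ℝ := C * 9 ^ r * 16 * (1 + K.card) ^ (e + ε) with hM
  have hK0 : (0 : ℝ) ≤ K.card := Nat.cast_nonneg _
  have hM0 : 0 ≤ M := by
    rw [hM]
    exact mul_nonneg (by positivity) (Real.rpow_nonneg (by linarith) _)
  refine ⟨δ / 4, by linarith, max 1 (M ^ (4 / δ)), fun H hH => ?_⟩
  have hH1 : 1 ≤ H := (le_max_left _ _).trans hH
  have hH2 : M ^ (4 / δ) ≤ H := (le_max_right _ _).trans hH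
  have hH0 : 0 < H := by linarith
  have hT : 1 ≤ H ^ θ := Real.one_le_rpow hH1 hθ
  have h1 := poly_count B lam (e + ε) C hC0 hC K h0 d hd H (H ^ θ) hH1 hT
  refine h1.trans (mul_le_mul_of_nonneg_right ?_ (sq_nonneg _))
  have hMH : M ≤ H ^ (δ / 4) := by
    have h2 := Real.rpow_le_rpow (Real.rpow_nonneg hM0 _) hH2 (by linarith : 0 ≤ δ / 4)
    rw [← Real.rpow_mul hM0] at h2
    have h3 : 4 / δ * (δ / 4) = 1 := by
      field_simp
    rw [h3, Real.rpow_one] at h2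
    exact h2
  have e1 : (9 * (H ^ θ) ^ 2) ^ r = 9 ^ r * H ^ (2 * θ * r) := by
    rw [mul_pow, ← pow_mul, ← Real.rpow_natCast (H ^ θ), ← Real.rpow_mul hH0.le]
    congr 2
    push_cast
    ring
  have e2 : (H + K.card * (H * (H ^ θ) ^ d)) ^ (e + ε) ≤
      (1 + K.card) ^ (e + ε) * H ^ ((1 + d * θ) * (e + ε)) := by
    have h4 : (H ^ θ) ^ d = H ^ (d * θ) := by
      rw [← Real.rpow_natCast (H ^ θ), ← Real.rpow_mul hH0.le]
      congr 1
      ring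
    rw [h4]
    have h5 : H ^ (1 + d * θ) = H * H ^ (d * θ) := by
      rw [Real.rpow_add hH0, Real.rpow_one]
    have h6 : H ≤ H ^ (1 + d * θ) := by
      have := Real.rpow_le_rpow_of_exponent_le hH1 (by linarith : (1 : ℝ) ≤ 1 + d * θ)
      rwa [Real.rpow_one] at this
    have h7 : H + K.card * (H * H ^ (d * θ)) ≤ (1 + K.card) * H ^ (1 + d * θ) := by
      rw [← h5]
      nlinarith
    have h8 : 0 ≤ H + K.card * (H * H ^ (d * θ)) := by positivity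
    refine (Real.rpow_le_rpow h8 h7 (by linarith)).trans (le_of_eq ?_)
    rw [Real.mul_rpow (by linarith) (Real.rpow_nonneg hH0.le _), ← Real.rpow_mul hH0.le]
  have e3 : 16 / H ^ 4 = 16 * H ^ (-4 : ℝ) := by
    rw [Real.rpow_neg hH0.le, div_eq_mul_inv]
    congr 2
    rw [← Real.rpow_natCast]
    norm_num
  rw [e1, e3]
  have h9 : 0 ≤ C * (9 ^ r * H ^ (2 * θ * r)) := by positivity
  have h10 : 0 ≤ 16 * H ^ (-4 : ℝ) := by positivity
  calc C * (9 ^ r * H ^ (2 * θ * r)) * (H + K.card * (H * (H ^ θ) ^ d)) ^ (e + ε) * (16 * H ^ (-4 : ℝ))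
      ≤ C * (9 ^ r * H ^ (2 * θ * r)) * ((1 + K.card) ^ (e + ε) * H ^ ((1 + d * θ) * (e + ε))) *
          (16 * H ^ (-4 : ℝ)) :=
        mul_le_mul_of_nonneg_right (mul_le_mul_of_nonneg_left e2 h9) h10
    _ = M * (H ^ (2 * θ * r) * H ^ ((1 + d * θ) * (e + ε)) * H ^ (-4 : ℝ)) := by
        rw [hM]
        ring
    _ = M * H ^ (-(δ / 2)) := by
        rw [← Real.rpow_add hH0, ← Real.rpow_add hH0]
        congr 2
        have h11 : (1 + d * θ) * (e + ε) = (1 + d * θ) * e + δ / 2 := by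
          rw [← hε1]
          ring
        rw [h11, hδ]
        ring
    _ ≤ H ^ (δ / 4) * H ^ (-(δ / 2)) := mul_le_mul_of_nonneg_right hMH (Real.rpow_nonneg hH0.le _)
    _ = H ^ (-(δ / 4)) := by
        rw [← Real.rpow_add hH0]
        congr 1
        ring

end Pool.Agent.T6.H40.RP
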