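import Pool.Agent.T6.H40.RP.Metric

set_option autoImplicit false

namespace Pool.Agent.T6.H40.RP

open MeasureTheory

theorem poly_norm_le {d : ℕ} (P : Polynomial ℂ) (hP : P.natDegree ≤ d) {z : ℂ} (hz : 1 ≤ ‖z‖) :
    ‖P.eval z‖ ≤ (∑ i ∈ Finset.range (d + 1), ‖P.coeff i‖) * ‖z‖ ^ d := by
  rw [Polynomial.eval_eq_sum_range' (Nat.lt_succ_of_le hP), Finset.sum_mul]
  refine (norm_sum_le _ _).trans (Finset.sum_le_sum fun i hi => ?_)
  rw [norm_mul, norm_pow]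
  refine mul_le_mul_of_nonneg_left ?_ (norm_nonneg _)
  exact pow_le_pow_right₀ hz (Nat.lt_succ_iff.1 (Finset.mem_range.1 hi))

theorem one_le_ab {z : GaussianInt} (hz : z ≠ 0) : 1 ≤ ab z := by
  have h1 : 0 < z.norm := GaussianInt.norm_pos.2 hz
  have h2 : (1 : ℝ) ≤ (z.norm : ℝ) := by exact_mod_cast h1
  rw [GaussianInt.intCast_real_norm, Complex.normSq_eq_norm_sq] at h2
  have h3 : 0 ≤ ‖GaussianInt.toComplex z‖ := norm_nonneg _
  show 1 ≤ ‖GaussianInt.toComplex z‖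
  nlinarith

instance : Countable {z : GaussianInt // z ≠ 0} := by
  refine Function.Injective.countable (f := fun z : {z : GaussianInt // z ≠ 0} => (z.1.re, z.1.im)) ?_
  rintro ⟨z, hz⟩ ⟨z', hz'⟩ h
  simp only [Prod.mk.injEq] at h
  exact Subtype.ext (Zsqrtd.ext h.1 h.2)

theorem poly_metric (lam : ℝ) (hlam : 0 < lam)
    (hall : ∀ B ε : ℝ, 0 < ε → ∃ C : ℝ, 0 ≤ C ∧
      ∀ Y : ℝ, 1 ≤ Y → (Pairs B lam Y).Finite ∧ ((Pairs B lam Y).ncard : ℝ) ≤ C * Y ^ (expo lam + ε))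
    (d : ℕ) (hd : 1 ≤ d) (ρ : ℝ) (hρ : 4 * ρ < (4 - expo lam) * d - 2) (P Q : Polynomial ℂ)
    (hP : P.natDegree ≤ d) (hQ : Q.natDegree ≤ d) :
    ∀ᵐ x : ℂ × ℂ, ∀ B : ℝ, (Hits (fun z : GaussianInt => GaussianInt.toComplex z ^ d)
      (fun z => P.eval (GaussianInt.toComplex z)) (fun z => Q.eval (GaussianInt.toComplex z))
      (fun z => ab z ^ ρ) B lam x).Finite := by
  have he := expo_nonneg hlam
  set e := expo lam with he'
  have hd0 : (0 : ℝ) < d := by exact_mod_cast hd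
  set ε : ℝ := ((4 - e) * d - 2 - 4 * ρ) / (2 * d) with hε
  have hε0 : 0 < ε := div_pos (by linarith) (by positivity)
  have hεd : ε * d = ((4 - e) * d - 2 - 4 * ρ) / 2 := by
    rw [hε]
    field_simp
  have hρd : ρ ≤ d := by nlinarith
  set s : ℝ := 4 * (d - ρ) - d * (e + ε) with hs
  have hs2 : 2 < s := by
    rw [hs]
    nlinarith
  set MP : ℝ := ∑ i ∈ Finset.range (d + 1), ‖P.coeff i‖ with hMP
  set MQ : ℝ := ∑ i ∈ Finset.range (d + 1), ‖Q.coeff i‖ with hMQ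
  have hMP0 : 0 ≤ MP := Finset.sum_nonneg fun _ _ => norm_nonneg _
  have hMQ0 : 0 ≤ MQ := Finset.sum_nonneg fun _ _ => norm_nonneg _
  have hκ : 0 ≤ e + ε := by linarith
  have hsum : Summable fun z : {z : GaussianInt // z ≠ 0} => ((ab z.1) ^ ρ / ‖GaussianInt.toComplex z.1 ^ d‖) ^ 4 *
      (1 + ‖GaussianInt.toComplex z.1 ^ d‖ + ‖P.eval (GaussianInt.toComplex z.1)‖ +
        ‖Q.eval (GaussianInt.toComplex z.1)‖ + ab z.1 ^ ρ) ^ (e + ε) := by
    refine Summable.of_nonneg_of_le (fun z => ?_) (fun z => ?_)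
      ((summable_gi hs2).mul_left ((3 + MP + MQ) ^ (e + ε)))
    · have h1 : 0 ≤ ab z.1 ^ ρ := Real.rpow_nonneg (ab_nonneg _) _
      refine mul_nonneg (pow_nonneg (div_nonneg h1 (norm_nonneg _)) _) (Real.rpow_nonneg ?_ _)
      have := norm_nonneg (GaussianInt.toComplex z.1 ^ d)
      have := norm_nonneg (P.eval (GaussianInt.toComplex z.1))
      have := norm_nonneg (Q.eval (GaussianInt.toComplex z.1))
      linarith
    · have hz1 : 1 ≤ ab z.1 := one_le_ab z.2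
      have hz0 : 0 < ab z.1 := by linarith
      have h1 : 0 ≤ ab z.1 ^ ρ := Real.rpow_nonneg (ab_nonneg _) _
      have hgn : ‖GaussianInt.toComplex z.1 ^ d‖ = ab z.1 ^ (d : ℝ) := by
        rw [norm_pow, Real.rpow_natCast]
        rfl
      have hPn : ‖P.eval (GaussianInt.toComplex z.1)‖ ≤ MP * ab z.1 ^ (d : ℝ) := by
        rw [Real.rpow_natCast]
        exact poly_norm_le P hP hz1
      have hQn : ‖Q.eval (GaussianInt.toComplex z.1)‖ ≤ MQ * ab z.1 ^ (d : ℝ) := by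
        rw [Real.rpow_natCast]
        exact poly_norm_le Q hQ hz1
      have hd1 : 1 ≤ ab z.1 ^ (d : ℝ) := Real.one_le_rpow hz1 hd0.le
      have hρ1 : ab z.1 ^ ρ ≤ ab z.1 ^ (d : ℝ) := Real.rpow_le_rpow_of_exponent_le hz1 hρd
      rw [hgn]
      have hn1 := norm_nonneg (P.eval (GaussianInt.toComplex z.1))
      have hn2 := norm_nonneg (Q.eval (GaussianInt.toComplex z.1))
      have h2 : 1 + ab z.1 ^ (d : ℝ) + ‖P.eval (GaussianInt.toComplex z.1)‖ +
          ‖Q.eval (GaussianInt.toComplex z.1)‖ + ab z.1 ^ ρ ≤ (3 + MP + MQ) * ab z.1 ^ (d : ℝ) := by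
        nlinarith
      have h3 : (1 + ab z.1 ^ (d : ℝ) + ‖P.eval (GaussianInt.toComplex z.1)‖ +
          ‖Q.eval (GaussianInt.toComplex z.1)‖ + ab z.1 ^ ρ) ^ (e + ε) ≤
          (3 + MP + MQ) ^ (e + ε) * ab z.1 ^ (d * (e + ε)) := by
        refine (Real.rpow_le_rpow (by linarith) h2 hκ).trans (le_of_eq ?_)
        rw [Real.mul_rpow (by linarith) (by linarith), ← Real.rpow_mul hz0.le]
      have h4 : (ab z.1 ^ ρ / ab z.1 ^ (d : ℝ)) ^ 4 = ab z.1 ^ (-(4 * (d - ρ))) := by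
        rw [← Real.rpow_sub hz0, ← Real.rpow_natCast, ← Real.rpow_mul hz0.le]
        congr 1
        push_cast
        ring
      rw [h4]
      calc ab z.1 ^ (-(4 * (d - ρ))) * (1 + ab z.1 ^ (d : ℝ) + ‖P.eval (GaussianInt.toComplex z.1)‖ +
            ‖Q.eval (GaussianInt.toComplex z.1)‖ + ab z.1 ^ ρ) ^ (e + ε)
          ≤ ab z.1 ^ (-(4 * (d - ρ))) * ((3 + MP + MQ) ^ (e + ε) * ab z.1 ^ (d * (e + ε))) :=
            mul_le_mul_of_nonneg_left h3 (Real.rpow_nonneg hz0.le _)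
        _ = (3 + MP + MQ) ^ (e + ε) * (ab z.1 ^ (-(4 * (d - ρ))) * ab z.1 ^ (d * (e + ε))) := by ring
        _ = (3 + MP + MQ) ^ (e + ε) * ab z.1 ^ (-s) := by
            rw [← Real.rpow_add hz0]
            congr 2
            rw [hs]
            ring
  have hmain := metric lam ε hlam hε0 (fun B => hall B ε hε0)
    (fun z : {z : GaussianInt // z ≠ 0} => GaussianInt.toComplex z.1 ^ d)
    (fun z => P.eval (GaussianInt.toComplex z.1)) (fun z => Q.eval (GaussianInt.toComplex z.1))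
    (fun z => ab z.1 ^ ρ)
    (fun z => pow_ne_zero _ (fun h => z.2 (GaussianInt.toComplex_eq_zero.1 h)))
    (fun z => Real.rpow_nonneg (ab_nonneg _) _) hsum
  filter_upwards [hmain] with x hx
  intro B
  have h1 := ((hx B).image Subtype.val).union (Set.finite_singleton (0 : GaussianInt))
  refine h1.subset ?_
  rintro z ⟨a, b, h2, h3, h4⟩
  by_cases hz : z = 0
  · exact Or.inr hz
  · exact Or.inl ⟨⟨z, hz⟩, ⟨a, b, h2, h3, h4⟩, rfl⟩

end Pool.Agent.T6.H40.RP
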